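import Mathlib

/-!
Extraction of many disjoint pendant pairs from a graph with few edges.
-/

open Finset

namespace Pool.Agent.H47

variable {n : ℕ} {τ : Type*} [DecidableEq τ]

/-- Degree of `v` in the (multi)graph with edge set `E`, edges `e t`. -/
def deg (E : Finset τ) (e : τ → Finset (Fin n)) (v : Fin n) : ℕ :=
  (E.filter (fun t => v ∈ e t)).card

lemma sum_deg_eq (E : Finset τ) (e : τ → Finset (Fin n)) (S : Finset (Fin n)) :
    ∑ v ∈ S, deg E e v = ∑ t ∈ E, (e t ∩ S).card := by
  unfold deg
  simp only [Finset.card_eq_sum_ones, Finset.sum_filter]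
  rw [Finset.sum_comm]
  apply Finset.sum_congr rfl
  intro t _
  rw [← Finset.sum_filter]
  congr 1
  ext v
  simp [and_comm]

/-- Support of a self map. -/
def supp (σ : Fin n → Fin n) : Finset (Fin n) := univ.filter (fun v => σ v ≠ v)

lemma mem_supp {σ : Fin n → Fin n} {v : Fin n} : v ∈ supp σ ↔ σ v ≠ v := by
  simp [supp]

/-- `σ` encodes a family of disjoint pairs `(v, σ v)`, `v ∈ supp σ`. -/
def GoodMap (σ : Fin n → Fin n) : Prop :=
  (∀ v ∈ supp σ, σ (σ v) = σ v) ∧ (∀ u ∈ supp σ, ∀ v ∈ supp σ, σ u = σ v → u = v)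

instance (σ : Fin n → Fin n) : Decidable (GoodMap σ) := by
  unfold GoodMap; infer_instance

/-- pairs of `σ` are pendant for the graph. -/
def Pendant (Q : Finset (Fin n)) (E : Finset τ) (e : τ → Finset (Fin n))
    (σ : Fin n → Fin n) : Prop :=
  GoodMap σ ∧ (∀ v ∈ supp σ, v ∈ Q ∧ σ v ∈ Q ∧ ∀ t ∈ E, v ∈ e t → e t = {v, σ v})

lemma goodMap_update {σ : Fin n → Fin n} (h : GoodMap σ) {v j : Fin n} (hvj : j ≠ v)
    (hv1 : v ∉ supp σ) (hv2 : ∀ u ∈ supp σ, σ u ≠ v) (hj1 : j ∉ supp σ)
    (hj2 : ∀ u ∈ supp σ, σ u ≠ j) :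
    GoodMap (Function.update σ v j) ∧ supp (Function.update σ v j) = insert v (supp σ) := by
  have hs : supp (Function.update σ v j) = insert v (supp σ) := by
    ext u
    rw [mem_supp, mem_insert, mem_supp]
    by_cases hu : u = v
    · subst hu
      simp [hvj]
    · rw [Function.update_of_ne hu]
      simp [hu]
  have hσj : σ j = j := by
    by_contra hc
    exact hj1 (mem_supp.2 hc)
  refine ⟨⟨?_, ?_⟩, hs⟩
  · intro u hu
    rw [hs, mem_insert] at hu
    rcases hu with rfl | hu
    · rw [Function.update_self, Function.update_of_ne hvj]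
      exact hσj
    · have huv : u ≠ v := fun h => hv1 (h ▸ hu)
      rw [Function.update_of_ne huv, Function.update_of_ne (hv2 u hu)]
      exact h.1 u hu
  · intro u hu w hw huw
    rw [hs, mem_insert] at hu hw
    rcases hu with rfl | hu
    · rcases hw with rfl | hw
      · rfl
      · have hwv : w ≠ u := fun h => hv1 (h ▸ hw)
        rw [Function.update_self, Function.update_of_ne hwv] at huw
        exact absurd huw.symm (hj2 w hw)
    · have huv : u ≠ v := fun h => hv1 (h ▸ hu)
      rcases hw with rfl | hw
      · rw [Function.update_self, Function.update_of_ne huv] at huw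
        exact absurd huw (hj2 u hu)
      · have hwv : w ≠ v := fun h => hv1 (h ▸ hw)
        rw [Function.update_of_ne huv, Function.update_of_ne hwv] at huw
        exact h.2 u hu w hw huw

theorem exists_pendant (Q : Finset (Fin n)) (E : Finset τ) (e : τ → Finset (Fin n))
    (he : ∀ t ∈ E, (e t).card = 2 ∧ e t ⊆ Q) (D : ℕ) (hD : 1 ≤ D) :
    ∃ σ : Fin n → Fin n, Pendant Q E e σ ∧
      (Q.card : ℝ) - E.card - 2 * E.card / D ≤ 2 * D * (supp σ).card + 1 := by
  classical
  -- hubs
  set B := Q.filter (fun v => D ≤ deg E e v) with hB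
  set EB := E.filter (fun t => ¬ Disjoint (e t) B) with hEB
  have hBcard : B.card * D ≤ 2 * E.card := by
    calc B.card * D = ∑ v ∈ B, D := by rw [Finset.sum_const, smul_eq_mul]
      _ ≤ ∑ v ∈ B, deg E e v := Finset.sum_le_sum (fun v hv => (Finset.mem_filter.1 hv).2)
      _ = ∑ t ∈ E, (e t ∩ B).card := sum_deg_eq E e B
      _ ≤ ∑ t ∈ E, 2 := Finset.sum_le_sum (fun t ht => by
          rw [← (he t ht).1]; exact Finset.card_le_card Finset.inter_subset_left)
      _ = 2 * E.card := by rw [Finset.sum_const, smul_eq_mul, mul_comm]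
  set SP := B ∪ EB.biUnion (fun t => e t \ B) with hSP
  have hSPcard : SP.card ≤ B.card + EB.card := by
    calc SP.card ≤ B.card + (EB.biUnion (fun t => e t \ B)).card := Finset.card_union_le _ _
      _ ≤ B.card + ∑ t ∈ EB, (e t \ B).card := by
          gcongr; exact Finset.card_biUnion_le
      _ ≤ B.card + ∑ t ∈ EB, 1 := by
          gcongr with t ht
          have h1 := Finset.mem_filter.1 ht
          have h2 : (e t \ B).card + (e t ∩ B).card = 2 := by
            rw [← (he t h1.1).1]; exact Finset.card_sdiff_add_card_inter _ _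
          have h3 : 0 < (e t ∩ B).card := by
            rw [Finset.card_pos]
            rw [Finset.not_disjoint_iff] at h1
            obtain ⟨v, hv1, hv2⟩ := h1.2
            exact ⟨v, Finset.mem_inter.2 ⟨hv1, hv2⟩⟩
          omega
      _ = B.card + EB.card := by rw [Finset.sum_const, smul_eq_mul, mul_one]
  set U := Q \ SP with hU
  have hUcard : Q.card ≤ U.card + (B.card + EB.card) := by
    have := Finset.le_card_sdiff SP Q
    rw [← hU] at this
    omega
  set P := U.filter (fun v => deg E e v ≤ 1) with hP
  set P2 := U.filter (fun v => ¬ deg E e v ≤ 1) with hP2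
  have hPP : P.card + P2.card = U.card := Finset.card_filter_add_card_filter_not _
  have hEEB : (E \ EB).card + EB.card = E.card :=
    Finset.card_sdiff_add_card_eq_card (Finset.filter_subset _ _)
  have hdegU : ∑ v ∈ U, deg E e v ≤ 2 * (E \ EB).card := by
    rw [sum_deg_eq]
    rw [← Finset.sum_sdiff (Finset.filter_subset (fun t => ¬ Disjoint (e t) B) E)]
    have hz : ∑ t ∈ EB, (e t ∩ U).card = 0 := by
      apply Finset.sum_eq_zero
      intro t ht
      rw [Finset.card_eq_zero]
      ext v
      simp only [Finset.mem_inter, Finset.notMem_empty, iff_false, not_and]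
      intro hv hvU
      rw [hU, Finset.mem_sdiff] at hvU
      apply hvU.2
      rw [hSP, Finset.mem_union]
      by_cases hvB : v ∈ B
      · exact Or.inl hvB
      · right
        exact Finset.mem_biUnion.2 ⟨t, ht, Finset.mem_sdiff.2 ⟨hv, hvB⟩⟩
    rw [← hEB, hz, add_zero]
    calc ∑ t ∈ E \ EB, (e t ∩ U).card ≤ ∑ t ∈ E \ EB, 2 :=
          Finset.sum_le_sum (fun t ht => by
            rw [← (he t (Finset.mem_sdiff.1 ht).1).1]
            exact Finset.card_le_card Finset.inter_subset_left)
      _ = 2 * (E \ EB).card := by rw [Finset.sum_const, smul_eq_mul, mul_comm]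
  have hP2card : P2.card ≤ (E \ EB).card := by
    have h1 : P2.card * 2 ≤ ∑ v ∈ P2, deg E e v := by
      rw [← smul_eq_mul, ← Finset.sum_const]
      apply Finset.sum_le_sum
      intro v hv
      have := (Finset.mem_filter.1 hv).2
      omega
    have h2 : ∑ v ∈ P2, deg E e v ≤ ∑ v ∈ U, deg E e v :=
      Finset.sum_le_sum_of_subset (Finset.filter_subset _ _)
    omega
  have hPcard : Q.card ≤ P.card + E.card + B.card := by omega
  -- maximal pendant map
  obtain ⟨σ, hσm, hσmax⟩ := Finset.exists_max_image
    (univ.filter (fun σ : Fin n → Fin n => Pendant Q E e σ)) (fun σ => (supp σ).card)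
    ⟨id, by
      rw [Finset.mem_filter]
      refine ⟨Finset.mem_univ _, ⟨⟨?_, ?_⟩, ?_⟩⟩
      · intro v hv; rfl
      · intro u hu v hv h; exact h
      · intro v hv
        exact absurd rfl (mem_supp.1 hv)⟩
  have hσ : Pendant Q E e σ := (Finset.mem_filter.1 hσm).2
  refine ⟨σ, hσ, ?_⟩
  have hmax : ∀ σ' : Fin n → Fin n, Pendant Q E e σ' → (supp σ').card ≤ (supp σ).card := by
    intro σ' h'
    exact hσmax σ' (Finset.mem_filter.2 ⟨Finset.mem_univ _, h'⟩)
  set M := supp σ ∪ (supp σ).image σ with hM
  have hMcard : M.card ≤ 2 * (supp σ).card := by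
    calc M.card ≤ (supp σ).card + ((supp σ).image σ).card := Finset.card_union_le _ _
      _ ≤ (supp σ).card + (supp σ).card := Nat.add_le_add_left Finset.card_image_le _
      _ = 2 * (supp σ).card := by ring
  -- extension principle
  have hext : ∀ v ∈ Q, ∀ j ∈ Q, j ≠ v → v ∉ M → j ∉ M →
      (∀ t ∈ E, v ∈ e t → e t = {v, j}) → False := by
    intro v hvQ j hjQ hjv hvM hjM hed
    have hv1 : v ∉ supp σ := fun h => hvM (Finset.mem_union_left _ h)
    have hj1 : j ∉ supp σ := fun h => hjM (Finset.mem_union_left _ h)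
    have hv2 : ∀ u ∈ supp σ, σ u ≠ v := by
      intro u hu h
      exact hvM (Finset.mem_union_right _ (Finset.mem_image.2 ⟨u, hu, h⟩))
    have hj2 : ∀ u ∈ supp σ, σ u ≠ j := by
      intro u hu h
      exact hjM (Finset.mem_union_right _ (Finset.mem_image.2 ⟨u, hu, h⟩))
    obtain ⟨hg, hs⟩ := goodMap_update hσ.1 hjv hv1 hv2 hj1 hj2
    have hp : Pendant Q E e (Function.update σ v j) := by
      refine ⟨hg, ?_⟩
      intro u hu
      rw [hs, mem_insert] at hu
      rcases hu with rfl | hu
      · rw [Function.update_self]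
        exact ⟨hvQ, hjQ, hed⟩
      · have huv : u ≠ v := fun h => hv1 (h ▸ hu)
        rw [Function.update_of_ne huv]
        exact hσ.2 u hu
    have := hmax _ hp
    rw [hs, Finset.card_insert_of_notMem hv1] at this
    omega
  -- isolated vertices outside M
  set P0 := (P \ M).filter (fun v => deg E e v = 0) with hP0
  set P1 := (P \ M).filter (fun v => ¬ deg E e v = 0) with hP1
  have hP01 : P0.card + P1.card = (P \ M).card := Finset.card_filter_add_card_filter_not _
  have hPM : P.card ≤ (P \ M).card + M.card := by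
    have := Finset.le_card_sdiff M P
    omega
  have hPQ : ∀ v ∈ P, v ∈ Q := by
    intro v hv
    exact (Finset.mem_sdiff.1 (Finset.mem_filter.1 hv).1).1
  have hP0card : P0.card ≤ 1 := by
    by_contra hc
    push Not at hc
    obtain ⟨v, hv, j, hj, hvj⟩ := Finset.one_lt_card.1 hc
    have hv' := Finset.mem_filter.1 hv
    have hj' := Finset.mem_filter.1 hj
    have hv'' := Finset.mem_sdiff.1 hv'.1
    have hj'' := Finset.mem_sdiff.1 hj'.1
    apply hext v (hPQ v hv''.1) j (hPQ j hj''.1) (Ne.symm hvj) hv''.2 hj''.2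
    intro t ht hvt
    have h0 : t ∈ E.filter (fun t => v ∈ e t) := Finset.mem_filter.2 ⟨ht, hvt⟩
    have := hv'.2
    unfold deg at this
    rw [Finset.card_eq_zero] at this
    rw [this] at h0
    exact absurd h0 (Finset.notMem_empty _)
  have hP1card : P1.card ≤ M.card * (D - 1) := by
    -- each v in P1 lies in an edge containing a nonhub element of M
    have hsub : P1 ⊆ (M \ B).biUnion (fun j => (E.filter (fun t => j ∈ e t)).biUnion
        (fun t => (e t).erase j)) := by
      intro v hv
      have hv' := Finset.mem_filter.1 hv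
      have hv'' := Finset.mem_sdiff.1 hv'.1
      have hvP := Finset.mem_filter.1 hv''.1
      have hvU := Finset.mem_sdiff.1 hvP.1
      have hd1 : deg E e v = 1 := by
        have := hvP.2
        have := hv'.2
        omega
      unfold deg at hd1
      obtain ⟨t, ht⟩ := Finset.card_eq_one.1 hd1
      have htm : t ∈ E.filter (fun t => v ∈ e t) := by rw [ht]; exact Finset.mem_singleton_self _
      have htE := Finset.mem_filter.1 htm
      obtain ⟨a, b, hab, hetab⟩ := Finset.card_eq_two.1 (he t htE.1).1
      -- the other endpoint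
      obtain ⟨j, hjv, hetj⟩ : ∃ j, j ≠ v ∧ e t = {v, j} := by
        have hvin := htE.2
        rw [hetab, Finset.mem_insert, Finset.mem_singleton] at hvin
        rcases hvin with rfl | rfl
        · exact ⟨b, Ne.symm hab, hetab⟩
        · exact ⟨a, hab, by rw [hetab, Finset.pair_comm]⟩
      have hjQ : j ∈ Q := (he t htE.1).2 (by rw [hetj]; simp)
      have hjM : j ∈ M := by
        by_contra hjM
        apply hext v (hPQ v hv''.1) j hjQ hjv hv''.2 hjM
        intro t' ht' hvt'
        have : t' ∈ E.filter (fun t => v ∈ e t) := Finset.mem_filter.2 ⟨ht', hvt'⟩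
        rw [ht, Finset.mem_singleton] at this
        rw [this]; exact hetj
      have hjB : j ∉ B := by
        intro hjB
        apply hvU.2
        rw [hSP, Finset.mem_union]
        by_cases hvB : v ∈ B
        · exact Or.inl hvB
        · right
          refine Finset.mem_biUnion.2 ⟨t, ?_, Finset.mem_sdiff.2 ⟨htE.2, hvB⟩⟩
          rw [hEB, Finset.mem_filter]
          refine ⟨htE.1, ?_⟩
          rw [Finset.not_disjoint_iff]
          exact ⟨j, by rw [hetj]; simp, hjB⟩
      refine Finset.mem_biUnion.2 ⟨j, Finset.mem_sdiff.2 ⟨hjM, hjB⟩, ?_⟩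
      refine Finset.mem_biUnion.2 ⟨t, Finset.mem_filter.2 ⟨htE.1, by rw [hetj]; simp⟩, ?_⟩
      rw [Finset.mem_erase]
      exact ⟨Ne.symm hjv, htE.2⟩
    refine le_trans (Finset.card_le_card hsub) ?_
    refine le_trans Finset.card_biUnion_le ?_
    calc ∑ j ∈ M \ B, ((E.filter (fun t => j ∈ e t)).biUnion (fun t => (e t).erase j)).card
        ≤ ∑ j ∈ M \ B, (D - 1) := by
          apply Finset.sum_le_sum
          intro j hj
          refine le_trans Finset.card_biUnion_le ?_
          have h1 : ∀ t ∈ E.filter (fun t => j ∈ e t), ((e t).erase j).card = 1 := by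
            intro t ht
            have ht' := Finset.mem_filter.1 ht
            rw [Finset.card_erase_of_mem ht'.2, (he t ht'.1).1]
          rw [Finset.sum_congr rfl h1, Finset.sum_const, smul_eq_mul, mul_one]
          have hj' := Finset.mem_sdiff.1 hj
          by_cases hjQ : j ∈ Q
          · by_contra hc
            apply hj'.2
            rw [hB, Finset.mem_filter]
            refine ⟨hjQ, ?_⟩
            unfold deg
            omega
          · have : E.filter (fun t => j ∈ e t) = ∅ := by
              rw [Finset.filter_eq_empty_iff]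
              intro t ht hjt
              exact hjQ ((he t ht).2 hjt)
            rw [this]
            simp
      _ = (M \ B).card * (D - 1) := by rw [Finset.sum_const, smul_eq_mul]
      _ ≤ M.card * (D - 1) := by
          gcongr
          exact Finset.sdiff_subset
  have hfin : P.card ≤ 2 * (supp σ).card * D + 1 := by
    have h1 : P.card ≤ M.card + 1 + M.card * (D - 1) := by omega
    have h2 : M.card + M.card * (D - 1) = M.card * D := by
      obtain ⟨D', rfl⟩ := Nat.exists_eq_add_of_le' hD
      simp only [Nat.add_sub_cancel]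
      ring
    have h3 : M.card * D ≤ 2 * (supp σ).card * D := by gcongr
    omega
  have hBr : (B.card : ℝ) ≤ 2 * E.card / D := by
    rw [le_div_iff₀ (by exact_mod_cast hD)]
    exact_mod_cast hBcard
  have hPr : (Q.card : ℝ) ≤ P.card + E.card + B.card := by exact_mod_cast hPcard
  have hfr : (P.card : ℝ) ≤ 2 * (supp σ).card * D + 1 := by exact_mod_cast hfin
  nlinarith

end Pool.Agent.H47
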