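import Mathlib
import Pool.Agent.H47.Graph

/-!
Deterministic part: a typical 0/1 matrix has no cheap cover by rectangles.
-/

open Finset

namespace Pool.Agent.H47

variable {n : ℕ} {τ : Type*} [DecidableEq τ]

/-- Columns where row `i` has a one. -/
def rowS (A : Fin n × Fin n → Bool) (i : Fin n) : Finset (Fin n) :=
  univ.filter (fun c => A (i, c) = true)

/-- Transposed matrix. -/
def tr (A : Fin n × Fin n → Bool) : Fin n × Fin n → Bool := fun z => A (z.2, z.1)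

lemma mem_rowS {A : Fin n × Fin n → Bool} {i c : Fin n} : c ∈ rowS A i ↔ A (i, c) = true := by
  simp [rowS]

/-- Quasirandomness of the rows in `R`. -/
structure RowTyp (A : Fin n × Fin n → Bool) (R : Finset (Fin n)) (η : ℝ) : Prop where
  one : ∀ i ∈ R, (1/2 - η) * n ≤ ((rowS A i).card : ℝ)
  two : ∀ i ∈ R, ∀ j ∈ R, i ≠ j → ((rowS A i ∩ rowS A j).card : ℝ) ≤ (1/4 + η) * n
  three : ∀ i ∈ R, ∀ j ∈ R, ∀ l ∈ R, i ≠ j → i ≠ l → j ≠ l →
    (1/8 - η) * n ≤ (((rowS A i ∩ rowS A j) ∩ rowS A l).card : ℝ)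

/-- Area bound for all-ones rectangles with at least three rows and columns. -/
def AreaTyp (A : Fin n × Fin n → Bool) (R R' : Finset (Fin n)) (W : Finset (Fin n × Fin n))
    (ν : ℝ) : Prop :=
  ∀ U V : Finset (Fin n), U ⊆ R → V ⊆ R' → 3 ≤ U.card → 3 ≤ V.card →
    (∀ i ∈ U, ∀ c ∈ V, A (i, c) = true) → (((U ×ˢ V) \ W).card : ℝ) ≤ ν * n

/-- Few ones are impossible in large submatrices. -/
def DiscTyp (A : Fin n × Fin n → Bool) (η : ℝ) : Prop :=
  ∀ S T : Finset (Fin n), (S.card : ℝ) * T.card / 2 - η * n ^ 2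
    ≤ (((S ×ˢ T).filter (fun z => A z = true)).card : ℝ)

/-- Pendant pairs of rows and of columns leave many ones uncovered. -/
def GadgetTyp (A : Fin n × Fin n → Bool) (α κ : ℝ) : Prop :=
  ∀ σ ρ : Fin n → Fin n, GoodMap σ → GoodMap ρ → α * n ≤ (supp σ).card → α * n ≤ (supp ρ).card →
    κ * n ^ 2 ≤ (((supp σ ×ˢ supp ρ).filter
      (fun z => A z = true ∧ A (σ z.1, z.2) = false ∧ A (z.1, ρ z.2) = false)).card : ℝ)

lemma card_row_sdiff {A : Fin n × Fin n → Bool} {R : Finset (Fin n)} {η : ℝ} (hη : 0 ≤ η)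
    (h : RowTyp A R η)
    {i : Fin n} (hi : i ∈ R) {N : Finset (Fin n)} (hN : N ⊆ R) (hiN : i ∉ N) (hN2 : N.card ≤ 2) :
    (1/8 - 4 * η) * n ≤ ((rowS A i \ N.biUnion (rowS A)).card : ℝ) := by
  have hn : (0:ℝ) ≤ n := Nat.cast_nonneg n
  have h1 := h.one i hi
  have hsd : ∀ X : Finset (Fin n), ((rowS A i \ X).card : ℝ) = (rowS A i).card - (rowS A i ∩ X).card := by
    intro X
    have := Finset.card_sdiff_add_card_inter (rowS A i) X
    have h' : (((rowS A i \ X).card + (rowS A i ∩ X).card : ℕ) : ℝ) = (rowS A i).card := by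
      rw [this]
    push_cast at h'
    linarith
  interval_cases hc : N.card
  · rw [Finset.card_eq_zero] at hc
    subst hc
    simp only [Finset.biUnion_empty, Finset.sdiff_empty]
    nlinarith
  · obtain ⟨j, rfl⟩ := Finset.card_eq_one.1 hc
    rw [Finset.singleton_biUnion, hsd]
    have hj : j ∈ R := hN (Finset.mem_singleton_self j)
    have hij : i ≠ j := fun hh => hiN (by rw [hh]; exact Finset.mem_singleton_self j)
    have h2 := h.two i hi j hj hij
    nlinarith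
  · obtain ⟨j, l, hjl, rfl⟩ := Finset.card_eq_two.1 hc
    have hj : j ∈ R := hN (by simp)
    have hl : l ∈ R := hN (by simp)
    have hij : i ≠ j := fun hh => hiN (by rw [hh]; simp)
    have hil : i ≠ l := fun hh => hiN (by rw [hh]; simp)
    have h2 := h.two i hi j hj hij
    have h3 := h.two i hi l hl hil
    have h4 := h.three i hi j hj l hl hij hil hjl
    have hb : ({j, l} : Finset (Fin n)).biUnion (rowS A) = rowS A j ∪ rowS A l := by
      rw [Finset.biUnion_insert, Finset.singleton_biUnion]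
    rw [hb, hsd]
    have h5 : rowS A i ∩ (rowS A j ∪ rowS A l) = (rowS A i ∩ rowS A j) ∪ (rowS A i ∩ rowS A l) := by
      rw [Finset.inter_union_distrib_left]
    have h6 := Finset.card_union_add_card_inter (rowS A i ∩ rowS A j) (rowS A i ∩ rowS A l)
    have h7 : (rowS A i ∩ rowS A j) ∩ (rowS A i ∩ rowS A l) = (rowS A i ∩ rowS A j) ∩ rowS A l := by
      ext c; simp only [Finset.mem_inter]; tauto
    rw [h7, ← h5] at h6
    have h8 : (((rowS A i ∩ (rowS A j ∪ rowS A l)).card + ((rowS A i ∩ rowS A j) ∩ rowS A l).card : ℕ) : ℝ)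
      = ((rowS A i ∩ rowS A j).card + (rowS A i ∩ rowS A l).card : ℕ) := by rw [h6]
    push_cast at h8
    nlinarith

/-- Main covering inequality coming from rows of degree at most two. -/
lemma lowdeg_main {A : Fin n × Fin n → Bool} {R : Finset (Fin n)} {η : ℝ} (hη : 0 ≤ η)
    (h : RowTyp A R η) {Qr Qc : Finset (Fin n)} (hQr : Qr ⊆ R)
    (E F G : Finset τ) (U V : τ → Finset (Fin n)) (W : Finset (Fin n × Fin n)) (ν : ℝ)
    (hE : ∀ t ∈ E, (U t).card = 2 ∧ U t ⊆ Qr) (hE1 : ∀ t ∈ E, ∀ i ∈ U t, ∀ c ∈ V t, A (i, c) = true)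
    (hF : ∀ t ∈ F, (V t).card ≤ 2)
    (hG : ∀ t ∈ G, ((((U t ∩ Qr) ×ˢ (V t ∩ Qc)) \ W).card : ℝ) ≤ ν * n)
    (cov : ∀ i ∈ Qr, ∀ c ∈ Qc, A (i, c) = true →
      (∃ t ∈ E, i ∈ U t ∧ c ∈ V t) ∨ (∃ t ∈ F, i ∈ U t ∧ c ∈ V t) ∨ (∃ t ∈ G, i ∈ U t ∧ c ∈ V t))
    (hpos : 0 ≤ (1/8 - 4 * η) * n - (n - (Qc.card : ℝ)) - 2 * F.card) :
    ((Qr.card : ℝ) - 2 * E.card / 3) * ((1/8 - 4 * η) * n - (n - (Qc.card : ℝ)) - 2 * F.card)
      ≤ W.card + G.card * (ν * n) := by
  classical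
  set L := Qr.filter (fun v => deg E U v ≤ 2) with hL
  set L' := Qr.filter (fun v => ¬ deg E U v ≤ 2) with hL'
  have hLL : L.card + L'.card = Qr.card := Finset.card_filter_add_card_filter_not _
  have hL'card : 3 * L'.card ≤ 2 * E.card := by
    have h1 : L'.card * 3 ≤ ∑ v ∈ L', deg E U v := by
      rw [← smul_eq_mul, ← Finset.sum_const]
      apply Finset.sum_le_sum
      intro v hv
      have := (Finset.mem_filter.1 hv).2
      omega
    have h2 : ∑ v ∈ L', deg E U v ≤ 2 * E.card := by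
      rw [sum_deg_eq]
      calc ∑ t ∈ E, (U t ∩ L').card ≤ ∑ t ∈ E, 2 :=
            Finset.sum_le_sum (fun t ht => by
              rw [← (hE t ht).1]
              exact Finset.card_le_card Finset.inter_subset_left)
        _ = 2 * E.card := by rw [Finset.sum_const, smul_eq_mul, mul_comm]
    omega
  have hLr : (Qr.card : ℝ) - 2 * E.card / 3 ≤ L.card := by
    have h1 : (L.card : ℝ) + L'.card = Qr.card := by exact_mod_cast hLL
    have h2 : 3 * (L'.card : ℝ) ≤ 2 * E.card := by exact_mod_cast hL'card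
    linarith
  -- uncovered part of row i
  set N : Fin n → Finset (Fin n) := fun i => (E.filter (fun t => i ∈ U t)).biUnion (fun t => (U t).erase i) with hN
  set VF : Finset (Fin n) := F.biUnion V with hVF
  have hVFcard : VF.card ≤ 2 * F.card := by
    calc VF.card ≤ ∑ t ∈ F, (V t).card := Finset.card_biUnion_le
      _ ≤ ∑ t ∈ F, 2 := Finset.sum_le_sum hF
      _ = 2 * F.card := by rw [Finset.sum_const, smul_eq_mul, mul_comm]
  set un : Fin n → Finset (Fin n) := fun i =>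
    ((rowS A i \ (N i).biUnion (rowS A)) ∩ Qc) \ VF with hun
  have hun_card : ∀ i ∈ L, (1/8 - 4 * η) * n - (n - (Qc.card : ℝ)) - 2 * F.card ≤ ((un i).card : ℝ) := by
    intro i hi
    have hi' := Finset.mem_filter.1 hi
    have hNsub : N i ⊆ R := by
      intro j hj
      obtain ⟨t, ht, hjt⟩ := Finset.mem_biUnion.1 hj
      exact hQr ((hE t (Finset.mem_filter.1 ht).1).2 (Finset.mem_of_mem_erase hjt))
    have hiN : i ∉ N i := by
      intro hh
      obtain ⟨t, ht, hjt⟩ := Finset.mem_biUnion.1 hh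
      exact absurd rfl (Finset.ne_of_mem_erase hjt)
    have hN2 : (N i).card ≤ 2 := by
      calc (N i).card ≤ ∑ t ∈ E.filter (fun t => i ∈ U t), ((U t).erase i).card := Finset.card_biUnion_le
        _ = ∑ t ∈ E.filter (fun t => i ∈ U t), 1 := by
            apply Finset.sum_congr rfl
            intro t ht
            have ht' := Finset.mem_filter.1 ht
            rw [Finset.card_erase_of_mem ht'.2, (hE t ht'.1).1]
        _ = deg E U i := by rw [Finset.sum_const, smul_eq_mul, mul_one]; rfl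
        _ ≤ 2 := hi'.2
    have h1 := card_row_sdiff hη h (hQr hi'.1) hNsub hiN hN2
    set X := rowS A i \ (N i).biUnion (rowS A) with hX
    have h2 : X.card ≤ (X ∩ Qc).card + (n - Qc.card) := by
      have e1 := Finset.card_sdiff_add_card_inter X Qc
      have e2 : (X \ Qc).card ≤ (univ \ Qc).card :=
        Finset.card_le_card (Finset.sdiff_subset_sdiff (Finset.subset_univ _) (Finset.Subset.refl _))
      have e3 : (univ \ Qc).card = n - Qc.card := by
        rw [Finset.card_sdiff_of_subset (Finset.subset_univ _), Finset.card_univ, Fintype.card_fin]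
      omega
    have h3 : (X ∩ Qc).card ≤ (un i).card + VF.card := by
      have h0 := Finset.le_card_sdiff VF (X ∩ Qc)
      have h00 : un i = (X ∩ Qc) \ VF := rfl
      rw [h00]
      omega
    have h4 : Qc.card ≤ n := by
      have := Finset.card_le_univ Qc
      rwa [Fintype.card_fin] at this
    have h2r : (X.card : ℝ) ≤ (X ∩ Qc).card + (n - Qc.card) := by
      have : ((X.card : ℕ) : ℝ) ≤ (((X ∩ Qc).card + (n - Qc.card) : ℕ) : ℝ) := by exact_mod_cast h2
      rw [Nat.cast_add, Nat.cast_sub h4] at this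
      exact this
    have h3r : ((X ∩ Qc).card : ℝ) ≤ (un i).card + VF.card := by exact_mod_cast h3
    have h5r : (VF.card : ℝ) ≤ 2 * F.card := by exact_mod_cast hVFcard
    linarith
  -- total
  set Z : Finset (Fin n × Fin n) := L.biUnion (fun i => ({i} : Finset (Fin n)) ×ˢ un i) with hZ
  have hZcard : (Z.card : ℝ) = ∑ i ∈ L, ((un i).card : ℝ) := by
    rw [hZ, Finset.card_biUnion]
    · push_cast
      apply Finset.sum_congr rfl
      intro i _
      rw [Finset.card_product, Finset.card_singleton, one_mul]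
    · intro i _ j _ hij
      simp only [Function.onFun]
      rw [Finset.disjoint_left]
      rintro ⟨a, b⟩ ha hb
      rw [Finset.mem_product, Finset.mem_singleton] at ha hb
      exact hij (ha.1.symm.trans hb.1)
  have hZlow : (L.card : ℝ) * ((1/8 - 4 * η) * n - (n - (Qc.card : ℝ)) - 2 * F.card) ≤ Z.card := by
    rw [hZcard, ← nsmul_eq_mul]
    exact Finset.card_nsmul_le_sum _ _ _ hun_card
  have hZsub : Z ⊆ W ∪ G.biUnion (fun t => ((U t ∩ Qr) ×ˢ (V t ∩ Qc)) \ W) := by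
    intro z hz
    rw [hZ, Finset.mem_biUnion] at hz
    obtain ⟨i', hiL', hp⟩ := hz
    obtain ⟨i, c⟩ := z
    rw [Finset.mem_product, Finset.mem_singleton] at hp
    obtain ⟨hi', hc⟩ := hp
    have hi'' : i = i' := hi'
    subst hi''
    have hiL := hiL'
    have hc : c ∈ un i := hc
    simp only [hun] at hc
    rw [Finset.mem_sdiff, Finset.mem_inter, Finset.mem_sdiff] at hc
    obtain ⟨⟨⟨hcr, hcN⟩, hcQ⟩, hcF⟩ := hc
    have hiQ := (Finset.mem_filter.1 hiL).1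
    rw [Finset.mem_union]
    by_cases hW : ((i, c) : Fin n × Fin n) ∈ W
    · exact Or.inl hW
    right
    rcases cov i hiQ c hcQ (mem_rowS.1 hcr) with ⟨t, ht, hit, hct⟩ | ⟨t, ht, hit, hct⟩ | ⟨t, ht, hit, hct⟩
    · exfalso
      apply hcN
      -- other element of U t
      have hUt := (hE t ht).1
      have : 0 < ((U t).erase i).card := by
        rw [Finset.card_erase_of_mem hit, hUt]; norm_num
      obtain ⟨j, hj⟩ := Finset.card_pos.1 this
      rw [Finset.mem_biUnion]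
      refine ⟨j, ?_, ?_⟩
      · rw [hN]
        exact Finset.mem_biUnion.2 ⟨t, Finset.mem_filter.2 ⟨ht, hit⟩, hj⟩
      · exact mem_rowS.2 (hE1 t ht j (Finset.mem_of_mem_erase hj) c hct)
    · exfalso
      apply hcF
      exact Finset.mem_biUnion.2 ⟨t, ht, hct⟩
    · refine Finset.mem_biUnion.2 ⟨t, ht, ?_⟩
      rw [Finset.mem_sdiff, Finset.mem_product, Finset.mem_inter, Finset.mem_inter]
      exact ⟨⟨⟨hit, hiQ⟩, ⟨hct, hcQ⟩⟩, hW⟩
  have hZup : (Z.card : ℝ) ≤ W.card + G.card * (ν * n) := by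
    have h1 : Z.card ≤ W.card + ∑ t ∈ G, (((U t ∩ Qr) ×ˢ (V t ∩ Qc)) \ W).card := by
      refine le_trans (Finset.card_le_card hZsub) ?_
      refine le_trans (Finset.card_union_le _ _) ?_
      exact Nat.add_le_add_left Finset.card_biUnion_le _
    have h2 : (Z.card : ℝ) ≤ W.card + ∑ t ∈ G, ((((U t ∩ Qr) ×ˢ (V t ∩ Qc)) \ W).card : ℝ) := by
      exact_mod_cast h1
    have h3 : ∑ t ∈ G, ((((U t ∩ Qr) ×ˢ (V t ∩ Qc)) \ W).card : ℝ) ≤ G.card * (ν * n) := by
      rw [← nsmul_eq_mul]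
      exact Finset.sum_le_card_nsmul _ _ _ hG
    linarith
  calc ((Qr.card : ℝ) - 2 * E.card / 3) * ((1/8 - 4 * η) * n - (n - (Qc.card : ℝ)) - 2 * F.card)
      ≤ (L.card : ℝ) * ((1/8 - 4 * η) * n - (n - (Qc.card : ℝ)) - 2 * F.card) :=
        mul_le_mul_of_nonneg_right hLr hpos
    _ ≤ Z.card := hZlow
    _ ≤ _ := hZup

/-- A family of rectangles inside `R × R'`, each with at least two rows and columns, covering
the ones of `A` in `Qr × Qc`. -/
structure Rest (A : Fin n × Fin n → Bool) (R R' Qr Qc : Finset (Fin n)) (K : Finset τ)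
    (U V : τ → Finset (Fin n)) : Prop where
  QrR : Qr ⊆ R
  QcR : Qc ⊆ R'
  UR : ∀ t ∈ K, U t ⊆ R
  VR : ∀ t ∈ K, V t ⊆ R'
  U2 : ∀ t ∈ K, 2 ≤ (U t).card
  V2 : ∀ t ∈ K, 2 ≤ (V t).card
  ones : ∀ t ∈ K, ∀ i ∈ U t, ∀ c ∈ V t, A (i, c) = true
  cov : ∀ i ∈ Qr, ∀ c ∈ Qc, A (i, c) = true → ∃ t ∈ K, i ∈ U t ∧ c ∈ V t

omit [DecidableEq τ] in
lemma Rest.swap {A : Fin n × Fin n → Bool} {R R' Qr Qc : Finset (Fin n)} {K : Finset τ}
    {U V : τ → Finset (Fin n)} (h : Rest A R R' Qr Qc K U V) :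
    Rest (tr A) R' R Qc Qr K V U where
  QrR := h.QcR
  QcR := h.QrR
  UR := h.VR
  VR := h.UR
  U2 := h.V2
  V2 := h.U2
  ones := fun t ht c hc i hi => h.ones t ht i hi c hc
  cov := fun c hc i hi hA => by
    obtain ⟨t, ht, h1, h2⟩ := h.cov i hi c hc hA
    exact ⟨t, ht, h2, h1⟩

omit [DecidableEq τ] in
lemma Rest.V_card_le {A : Fin n × Fin n → Bool} {R R' Qr Qc : Finset (Fin n)} {K : Finset τ}
    {U V : τ → Finset (Fin n)} (h : Rest A R R' Qr Qc K U V) {η : ℝ} (hr : RowTyp A R η)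
    {t : τ} (ht : t ∈ K) : ((V t).card : ℝ) ≤ (1/4 + η) * n := by
  obtain ⟨i, hi, j, hj, hij⟩ := Finset.one_lt_card.1 (h.U2 t ht)
  refine le_trans ?_ (hr.two i (h.UR t ht hi) j (h.UR t ht hj) hij)
  have : V t ⊆ rowS A i ∩ rowS A j := by
    intro c hc
    rw [Finset.mem_inter, mem_rowS, mem_rowS]
    exact ⟨h.ones t ht i hi c hc, h.ones t ht j hj c hc⟩
  exact_mod_cast Finset.card_le_card this

omit [DecidableEq τ] in
lemma Rest.U_card_le {A : Fin n × Fin n → Bool} {R R' Qr Qc : Finset (Fin n)} {K : Finset τ}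
    {U V : τ → Finset (Fin n)} (h : Rest A R R' Qr Qc K U V) {η : ℝ} (hr : RowTyp (tr A) R' η)
    {t : τ} (ht : t ∈ K) : ((U t).card : ℝ) ≤ (1/4 + η) * n :=
  h.swap.V_card_le hr ht

omit [DecidableEq τ] in
/-- number of ones in `Qr × Qc` bounded by the sum of areas -/
lemma Rest.ones_le {A : Fin n × Fin n → Bool} {R R' Qr Qc : Finset (Fin n)} {K : Finset τ}
    {U V : τ → Finset (Fin n)} (h : Rest A R R' Qr Qc K U V) (W : Finset (Fin n × Fin n)) :
    (((Qr ×ˢ Qc).filter (fun z => A z = true)).card : ℝ)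
      ≤ W.card + ∑ t ∈ K, ((((U t ∩ Qr) ×ˢ (V t ∩ Qc)) \ W).card : ℝ) := by
  have hsub : (Qr ×ˢ Qc).filter (fun z => A z = true)
      ⊆ W ∪ K.biUnion (fun t => ((U t ∩ Qr) ×ˢ (V t ∩ Qc)) \ W) := by
    rintro ⟨i, c⟩ hz
    rw [Finset.mem_filter, Finset.mem_product] at hz
    obtain ⟨⟨hi, hc⟩, hA⟩ := hz
    rw [Finset.mem_union]
    by_cases hW : ((i, c) : Fin n × Fin n) ∈ W
    · exact Or.inl hW
    right
    obtain ⟨t, ht, hit, hct⟩ := h.cov i hi c hc hA
    refine Finset.mem_biUnion.2 ⟨t, ht, ?_⟩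
    rw [Finset.mem_sdiff, Finset.mem_product, Finset.mem_inter, Finset.mem_inter]
    exact ⟨⟨⟨hit, hi⟩, ⟨hct, hc⟩⟩, hW⟩
  have h1 := le_trans (Finset.card_le_card hsub) (Finset.card_union_le _ _)
  have h2 := le_trans h1 (Nat.add_le_add_left Finset.card_biUnion_le _)
  exact_mod_cast h2

lemma card_rect_sdiff_le {S T : Finset (Fin n)} {W : Finset (Fin n × Fin n)} :
    (((S ×ˢ T) \ W).card : ℝ) ≤ (S.card : ℝ) * T.card := by
  have : ((S ×ˢ T) \ W).card ≤ S.card * T.card := by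
    rw [← Finset.card_product]
    exact Finset.card_le_card Finset.sdiff_subset
  exact_mod_cast this


lemma arithA {n q d e x η s ω : ℝ} (hn : 0 < n) (hq0 : 0 ≤ q) (hd0 : 0 ≤ d)
    (hx0 : 0 ≤ x) (hη0 : 0 ≤ η) (hη : η ≤ 1/10000) (hs : 0 ≤ s) (hω : 0 ≤ ω)
    (hq : 8 * q ≤ n)
    (hI1 : q * ((1/2 - η) * n - d) ≤ ω * n + e * ((1/2 + 2 * η) * n) + x * ((15/32) * n))
    (hk : e + x ≤ q - d + s) :
    x ≤ 32 * ω + 96 * η * q + 32 * s - 12 * d := by
  have hqd : q * d ≤ n / 8 * d := mul_le_mul_of_nonneg_right (by linarith) hd0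
  have h1 : e * (1/2 + 2 * η) ≤ (q - d + s - x) * (1/2 + 2 * η) :=
    mul_le_mul_of_nonneg_right (by linarith) (by linarith)
  have h2 : n * (q * (1/2 - η) - d / 8) ≤ n * (ω + (q - d + s - x) * (1/2 + 2 * η) + x * (15/32)) := by
    have h3 : n * (e * (1/2 + 2 * η)) ≤ n * ((q - d + s - x) * (1/2 + 2 * η)) :=
      mul_le_mul_of_nonneg_left h1 hn.le
    linarith
  have h3 := le_of_mul_le_mul_left h2 hn
  have h4 : 0 ≤ x * η := mul_nonneg hx0 hη0
  have h5 : 0 ≤ d * η := mul_nonneg hd0 hη0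
  have h6 : s * η ≤ s * (1/10000) := mul_le_mul_of_nonneg_left hη hs
  linarith

lemma arithB {n q d x η s ω : ℝ} (hn : 0 < n) (hq0 : 0 ≤ q) (hd0 : 0 ≤ d)
    (hx0 : 0 ≤ x) (hη0 : 0 ≤ η) (hη : η ≤ 1/10000) (hs : 0 ≤ s) (hω : 0 ≤ ω)
    (hbig : 1000 * (s + ω) ≤ n) (hq : 8 * q ≤ n)
    (hI2 : x ≤ 32 * ω + 96 * η * q + 32 * s - 12 * d) :
    0.12 * n ≤ (1/8 - 4 * η) * n - d := by
  have hηq : η * q ≤ (1/10000) * q := mul_le_mul_of_nonneg_right hη hq0
  have hηn : η * n ≤ (1/10000) * n := mul_le_mul_of_nonneg_right hη hn.le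
  linarith

lemma arithC {n q d e x η s ω : ℝ} (hn : 0 < n) (hq0 : 0 ≤ q) (hd0 : 0 ≤ d)
    (hx0 : 0 ≤ x) (hη0 : 0 ≤ η) (hη : η ≤ 1/10000) (hs : 0 ≤ s) (hω : 0 ≤ ω)
    (hk : e + x ≤ q - d + s)
    (hI2 : x ≤ 32 * ω + 96 * η * q + 32 * s - 12 * d)
    (hpos : 0.12 * n ≤ (1/8 - 4 * η) * n - d)
    (hlow : (q - 2 * e / 3) * ((1/8 - 4 * η) * n - d) ≤ ω * n + x * ((15/32) * n)) :
    q ≤ 500 * (s + ω) := by
  have hηq : η * q ≤ (1/10000) * q := mul_le_mul_of_nonneg_right hη hq0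
  have he2 : e ≤ q + s := by linarith
  by_cases hq2 : q ≤ 2 * s
  · linarith
  · push Not at hq2
    have h1 : (q - 2 * s) / 3 ≤ q - 2 * e / 3 := by linarith
    have h0 : 0 ≤ (q - 2 * s) / 3 := by linarith
    have h2 : (q - 2 * s) / 3 * (0.12 * n) ≤ (q - 2 * e / 3) * ((1/8 - 4 * η) * n - d) :=
      mul_le_mul h1 hpos (by positivity) (by linarith)
    have h3 : n * ((q - 2 * s) * 0.04) ≤ n * (ω + x * (15/32)) := by linarith
    have h4 := le_of_mul_le_mul_left h3 hn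
    linarith

lemma card_inter_le_left {S T : Finset (Fin n)} : ((S ∩ T).card : ℝ) ≤ S.card := by
  exact_mod_cast Finset.card_le_card Finset.inter_subset_left

lemma card_inter_le_one {S T : Finset (Fin n)} (hS : S.card = 2) (hn : ¬ S ⊆ T) :
    ((S ∩ T).card : ℝ) ≤ 1 := by
  have : (S ∩ T).card < S.card := by
    apply Finset.card_lt_card
    rw [Finset.ssubset_iff_subset_ne]
    refine ⟨Finset.inter_subset_left, ?_⟩
    intro hh
    exact hn (Finset.inter_eq_left.1 hh)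
  have : (S ∩ T).card ≤ 1 := by omega
  exact_mod_cast this

lemma area_two {S T Qr Qc : Finset (Fin n)} {W : Finset (Fin n × Fin n)} {η : ℝ}
    (hη0 : 0 ≤ η) (hS : S.card = 2) (hT : (T.card : ℝ) ≤ (1/4 + η) * n) :
    ((((S ∩ Qr) ×ˢ (T ∩ Qc)) \ W).card : ℝ) ≤ (1/2 + 2 * η) * n := by
  refine le_trans card_rect_sdiff_le ?_
  have h1 : ((S ∩ Qr).card : ℝ) ≤ 2 := by
    have := card_inter_le_left (S := S) (T := Qr)
    rw [hS] at this
    exact_mod_cast this
  have h2 : ((T ∩ Qc).card : ℝ) ≤ (1/4 + η) * n := le_trans card_inter_le_left hT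
  have h3 : (0:ℝ) ≤ ((T ∩ Qc).card : ℝ) := Nat.cast_nonneg _
  calc ((S ∩ Qr).card : ℝ) * ((T ∩ Qc).card : ℝ) ≤ 2 * ((1/4 + η) * n) :=
        mul_le_mul h1 h2 h3 (by norm_num)
    _ = _ := by ring

lemma area_two' {S T Qr Qc : Finset (Fin n)} {W : Finset (Fin n × Fin n)} {η : ℝ}
    (hη0 : 0 ≤ η) (hT : T.card = 2) (hS : (S.card : ℝ) ≤ (1/4 + η) * n) :
    ((((S ∩ Qr) ×ˢ (T ∩ Qc)) \ W).card : ℝ) ≤ (1/2 + 2 * η) * n := by
  refine le_trans card_rect_sdiff_le ?_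
  have h1 : ((T ∩ Qc).card : ℝ) ≤ 2 := by
    have := card_inter_le_left (S := T) (T := Qc)
    rw [hT] at this
    exact_mod_cast this
  have h2 : ((S ∩ Qr).card : ℝ) ≤ (1/4 + η) * n := le_trans card_inter_le_left hS
  have h3 : (0:ℝ) ≤ ((T ∩ Qc).card : ℝ) := Nat.cast_nonneg _
  calc ((S ∩ Qr).card : ℝ) * ((T ∩ Qc).card : ℝ) ≤ ((1/4 + η) * n) * 2 :=
        mul_le_mul h2 h1 h3 (by positivity)
    _ = _ := by ring

lemma area_one {S T Qr Qc : Finset (Fin n)} {W : Finset (Fin n × Fin n)} {η : ℝ}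
    (hη0 : 0 ≤ η) (hη : η ≤ 1/10000) (hS : S.card = 2) (hSn : ¬ S ⊆ Qr)
    (hT : (T.card : ℝ) ≤ (1/4 + η) * n) :
    ((((S ∩ Qr) ×ˢ (T ∩ Qc)) \ W).card : ℝ) ≤ 15/32 * n := by
  refine le_trans card_rect_sdiff_le ?_
  have h1 := card_inter_le_one hS hSn
  have h2 : ((T ∩ Qc).card : ℝ) ≤ (1/4 + η) * n := le_trans card_inter_le_left hT
  have h3 : (0:ℝ) ≤ ((T ∩ Qc).card : ℝ) := Nat.cast_nonneg _
  have hn : (0:ℝ) ≤ n := Nat.cast_nonneg n
  calc ((S ∩ Qr).card : ℝ) * ((T ∩ Qc).card : ℝ) ≤ 1 * ((1/4 + η) * n) :=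
        mul_le_mul h1 h2 h3 (by norm_num)
    _ ≤ _ := by nlinarith

lemma area_one' {S T Qr Qc : Finset (Fin n)} {W : Finset (Fin n × Fin n)} {η : ℝ}
    (hη0 : 0 ≤ η) (hη : η ≤ 1/10000) (hT : T.card = 2) (hTn : ¬ T ⊆ Qc)
    (hS : (S.card : ℝ) ≤ (1/4 + η) * n) :
    ((((S ∩ Qr) ×ˢ (T ∩ Qc)) \ W).card : ℝ) ≤ 15/32 * n := by
  refine le_trans card_rect_sdiff_le ?_
  have h1 := card_inter_le_one hT hTn
  have h2 : ((S ∩ Qr).card : ℝ) ≤ (1/4 + η) * n := le_trans card_inter_le_left hS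
  have h3 : (0:ℝ) ≤ ((T ∩ Qc).card : ℝ) := Nat.cast_nonneg _
  have hn : (0:ℝ) ≤ n := Nat.cast_nonneg n
  calc ((S ∩ Qr).card : ℝ) * ((T ∩ Qc).card : ℝ) ≤ ((1/4 + η) * n) * 1 :=
        mul_le_mul h2 h1 h3 (by positivity)
    _ ≤ _ := by nlinarith

lemma area_big {A : Fin n × Fin n → Bool} {R R' S T Qr Qc : Finset (Fin n)}
    {W : Finset (Fin n × Fin n)} (ha : AreaTyp A R R' W (15/32)) (hS : S ⊆ R) (hT : T ⊆ R')
    (hS3 : 3 ≤ S.card) (hT3 : 3 ≤ T.card) (h1 : ∀ i ∈ S, ∀ c ∈ T, A (i, c) = true) :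
    ((((S ∩ Qr) ×ˢ (T ∩ Qc)) \ W).card : ℝ) ≤ 15/32 * n := by
  refine le_trans ?_ (ha S T hS hT hS3 hT3 h1)
  have : ((S ∩ Qr) ×ˢ (T ∩ Qc)) \ W ⊆ (S ×ˢ T) \ W :=
    Finset.sdiff_subset_sdiff
      (Finset.product_subset_product Finset.inter_subset_left Finset.inter_subset_left)
      (Finset.Subset.refl _)
  exact_mod_cast Finset.card_le_card this

omit [DecidableEq τ] in
lemma sum_area_le {K : Finset τ} {f : τ → ℕ} {b : ℝ} (h : ∀ t ∈ K, (f t : ℝ) ≤ b) :
    ∑ t ∈ K, (f t : ℝ) ≤ K.card * b := by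
  rw [← nsmul_eq_mul]
  exact Finset.sum_le_card_nsmul _ _ _ h

/-- Regime I: few unowned rows. -/
lemma regimeI {A : Fin n × Fin n → Bool} {R R' Qr Qc : Finset (Fin n)} {K : Finset τ}
    {U V : τ → Finset (Fin n)} {W : Finset (Fin n × Fin n)} {η s ω : ℝ}
    (hη0 : 0 ≤ η) (hη : η ≤ 1/10000) (hs : 0 ≤ s) (hω : 0 ≤ ω)
    (hr : RowTyp A R η) (ha : AreaTyp A R R' W (15/32)) (hW : (W.card : ℝ) ≤ ω * n)
    (h : Rest A R R' Qr Qc K U V)
    (hK : (K.card : ℝ) ≤ (Qr.card : ℝ) + Qc.card - n + s)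
    (hn : 0 < n) (hbig : 1000 * (s + ω) ≤ n) (hq : 8 * (Qr.card : ℝ) ≤ n) :
    (Qr.card : ℝ) ≤ 500 * (s + ω) := by
  classical
  have hnr : (0:ℝ) < n := by exact_mod_cast hn
  have hQcn : (Qc.card : ℝ) ≤ n := by
    have := Finset.card_le_univ Qc
    rw [Fintype.card_fin] at this
    exact_mod_cast this
  have hd0 : 0 ≤ (n:ℝ) - (Qc.card : ℝ) := by linarith
  let E := K.filter (fun t => (U t).card = 2 ∧ U t ⊆ Qr)
  let G := K.filter (fun t => ¬ ((U t).card = 2 ∧ U t ⊆ Qr))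
  have hEG : E.card + G.card = K.card := Finset.card_filter_add_card_filter_not _
  have hEGr : (E.card : ℝ) + G.card = K.card := by exact_mod_cast hEG
  -- areas
  have hareaE : ∀ t ∈ E, ((((U t ∩ Qr) ×ˢ (V t ∩ Qc)) \ W).card : ℝ) ≤ (1/2 + 2 * η) * n := by
    intro t ht
    have ht' := Finset.mem_filter.1 ht
    exact area_two hη0 ht'.2.1 (h.V_card_le hr ht'.1)
  have hareaG : ∀ t ∈ G, ((((U t ∩ Qr) ×ˢ (V t ∩ Qc)) \ W).card : ℝ) ≤ 15/32 * n := by
    intro t ht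
    have ht' := Finset.mem_filter.1 ht
    have hU2 := h.U2 t ht'.1
    have hV2 := h.V2 t ht'.1
    by_cases hUc : (U t).card = 2
    · exact area_one hη0 hη hUc (fun hh => ht'.2 ⟨hUc, hh⟩) (h.V_card_le hr ht'.1)
    · by_cases hVc : (V t).card = 2
      · refine le_trans card_rect_sdiff_le ?_
        have h1 : ((U t ∩ Qr).card : ℝ) ≤ Qr.card := by
          exact_mod_cast Finset.card_le_card Finset.inter_subset_right
        have h2 : ((V t ∩ Qc).card : ℝ) ≤ 2 := by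
          have := card_inter_le_left (S := V t) (T := Qc)
          rw [hVc] at this
          exact_mod_cast this
        have h3 : (0:ℝ) ≤ ((V t ∩ Qc).card : ℝ) := Nat.cast_nonneg _
        calc ((U t ∩ Qr).card : ℝ) * ((V t ∩ Qc).card : ℝ) ≤ Qr.card * 2 :=
              mul_le_mul h1 h2 h3 (Nat.cast_nonneg _)
          _ ≤ _ := by linarith
      · exact area_big ha (h.UR t ht'.1) (h.VR t ht'.1) (by omega) (by omega) (h.ones t ht'.1)
  -- ones
  have hones_up : (((Qr ×ˢ Qc).filter (fun z => A z = true)).card : ℝ)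
      ≤ ω * n + E.card * ((1/2 + 2 * η) * n) + G.card * ((15/32) * n) := by
    refine le_trans (h.ones_le W) ?_
    have h1 : ∑ t ∈ K, ((((U t ∩ Qr) ×ˢ (V t ∩ Qc)) \ W).card : ℝ)
        = ∑ t ∈ E, ((((U t ∩ Qr) ×ˢ (V t ∩ Qc)) \ W).card : ℝ)
          + ∑ t ∈ G, ((((U t ∩ Qr) ×ˢ (V t ∩ Qc)) \ W).card : ℝ) := by
      rw [Finset.sum_filter_add_sum_filter_not]
    rw [h1]
    have h2 := sum_area_le hareaE
    have h3 := sum_area_le hareaG
    linarith
  have hones_low : (Qr.card : ℝ) * ((1/2 - η) * n - (n - (Qc.card : ℝ)))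
      ≤ (((Qr ×ˢ Qc).filter (fun z => A z = true)).card : ℝ) := by
    have h1 : ((Qr ×ˢ Qc).filter (fun z => A z = true)).card = ∑ i ∈ Qr, (rowS A i ∩ Qc).card := by
      rw [Finset.card_filter, Finset.sum_product]
      apply Finset.sum_congr rfl
      intro i _
      rw [← Finset.card_filter]
      congr 1
      ext c
      simp only [Finset.mem_filter, Finset.mem_inter, mem_rowS]
      tauto
    rw [h1]
    push_cast
    rw [← nsmul_eq_mul]
    apply Finset.card_nsmul_le_sum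
    intro i hi
    have h2 := hr.one i (h.QrR hi)
    have e1 := Finset.card_sdiff_add_card_inter (rowS A i) Qc
    have e2 : (rowS A i \ Qc).card ≤ n - Qc.card := by
      have : (rowS A i \ Qc).card ≤ (univ \ Qc).card :=
        Finset.card_le_card (Finset.sdiff_subset_sdiff (Finset.subset_univ _) (Finset.Subset.refl _))
      rwa [Finset.card_sdiff_of_subset (Finset.subset_univ _), Finset.card_univ, Fintype.card_fin] at this
    have hQn : Qc.card ≤ n := by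
      have := Finset.card_le_univ Qc
      rwa [Fintype.card_fin] at this
    have e3 : ((rowS A i).card : ℝ) ≤ (rowS A i ∩ Qc).card + (n - Qc.card) := by
      have : (rowS A i).card ≤ (rowS A i ∩ Qc).card + (n - Qc.card) := by omega
      have : (((rowS A i).card : ℕ) : ℝ) ≤ (((rowS A i ∩ Qc).card + (n - Qc.card) : ℕ) : ℝ) := by
        exact_mod_cast this
      rwa [Nat.cast_add, Nat.cast_sub hQn] at this
    linarith
  have hI1 := le_trans hones_low hones_up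
  have hk : (E.card : ℝ) + G.card ≤ (Qr.card : ℝ) - (n - (Qc.card : ℝ)) + s := by
    rw [hEGr]; linarith
  have hI2 := arithA hnr (Nat.cast_nonneg _) hd0 (Nat.cast_nonneg _) hη0 hη hs hω hq hI1 hk
  have hpos := arithB hnr (Nat.cast_nonneg _) hd0 (Nat.cast_nonneg _) hη0 hη hs hω hbig hq hI2
  have hlow := lowdeg_main hη0 hr h.QrR E ∅ G U V W (15/32)
    (fun t ht => (Finset.mem_filter.1 ht).2)
    (fun t ht i hi c hc => h.ones t (Finset.mem_filter.1 ht).1 i hi c hc)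
    (fun t ht => absurd ht (Finset.notMem_empty t)) hareaG
    (fun i hi c hc hA => by
      obtain ⟨t, ht, h1, h2⟩ := h.cov i hi c hc hA
      by_cases htE : (U t).card = 2 ∧ U t ⊆ Qr
      · exact Or.inl ⟨t, Finset.mem_filter.2 ⟨ht, htE⟩, h1, h2⟩
      · exact Or.inr (Or.inr ⟨t, Finset.mem_filter.2 ⟨ht, htE⟩, h1, h2⟩))
    (by rw [Finset.card_empty]; push_cast; linarith)
  rw [Finset.card_empty, Nat.cast_zero, mul_zero, sub_zero] at hlow
  refine arithC hnr (Nat.cast_nonneg _) hd0 (Nat.cast_nonneg _) hη0 hη hs hω hk hI2 hpos ?_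
  linarith

end Pool.Agent.H47
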