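import Mathlib
import Pool.Agent.H47.Det

/-!
Deterministic part, second regime: both sets of unowned rows and columns are large.
-/

open Finset

namespace Pool.Agent.H47

variable {n : ℕ} {τ : Type*} [DecidableEq τ]

/-- swapped set of cells -/
def swapS (W : Finset (Fin n × Fin n)) : Finset (Fin n × Fin n) :=
  W.map (Equiv.prodComm _ _).toEmbedding

lemma mem_swapS {W : Finset (Fin n × Fin n)} {z : Fin n × Fin n} :
    z ∈ swapS W ↔ (z.2, z.1) ∈ W := by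
  unfold swapS
  rw [Finset.mem_map]
  constructor
  · rintro ⟨w, hw, rfl⟩
    exact hw
  · intro h
    exact ⟨_, h, rfl⟩

lemma card_swapS (W : Finset (Fin n × Fin n)) : (swapS W).card = W.card := Finset.card_map _

lemma card_swap_sdiff (S T : Finset (Fin n)) (W : Finset (Fin n × Fin n)) :
    ((T ×ˢ S) \ swapS W).card = ((S ×ˢ T) \ W).card := by
  have : (T ×ˢ S) \ swapS W = swapS ((S ×ˢ T) \ W) := by
    ext z
    rw [mem_swapS, Finset.mem_sdiff, Finset.mem_sdiff, mem_swapS, Finset.mem_product,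
      Finset.mem_product]
    tauto
  rw [this, card_swapS]

lemma arithD {n q q' e f x η η6 s ω o : ℝ} (hn : 0 < n) (hq : q ≤ n) (hq' : q' ≤ n)
    (hx0 : 0 ≤ x) (hη0 : 0 ≤ η) (hη : η ≤ 1/10000) (hs : 0 ≤ s)
    (hlow : q * q' / 2 - η6 * n ^ 2 ≤ o)
    (hup : o ≤ ω * n + (e + f) * ((1/2 + 2 * η) * n) + x * ((15/32) * n))
    (hk : e + f + x ≤ q + q' - n + s) :
    x ≤ 32 * (2 * η + η6) * n + 32 * (s + ω) := by
  have h1 : (e + f) * ((1/2 + 2 * η) * n) ≤ (q + q' - n + s - x) * ((1/2 + 2 * η) * n) :=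
    mul_le_mul_of_nonneg_right (by linarith) (by positivity)
  have h2 : 0 ≤ (n - q) * (n - q') := mul_nonneg (by linarith) (by linarith)
  have h3 : (q + q' - n) * (2 * η * n) ≤ n * (2 * η * n) :=
    mul_le_mul_of_nonneg_right (by linarith) (by positivity)
  have h4 : 0 ≤ x * (2 * η * n) := by positivity
  have h5 : s * (2 * η * n) ≤ s * (1/2 * n) := by
    apply mul_le_mul_of_nonneg_left _ hs
    apply mul_le_mul_of_nonneg_right _ hn.le
    linarith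
  have h6 : n * (x / 32) ≤ n * ((2 * η + η6) * n + (s + ω)) := by nlinarith
  have h7 := le_of_mul_le_mul_left h6 hn
  linarith

/-- Final contradiction in the case of few column pairs. -/
lemma caseB {A : Fin n × Fin n → Bool} {R : Finset (Fin n)} {η : ℝ} (hη0 : 0 ≤ η)
    (hη : η ≤ 1/10000)
    (h : RowTyp A R η) {Qr Qc : Finset (Fin n)} (hQr : Qr ⊆ R)
    (E F G : Finset τ) (U V : τ → Finset (Fin n)) (W : Finset (Fin n × Fin n)) (s ω η6 : ℝ)
    (hs : 0 ≤ s)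
    (hE : ∀ t ∈ E, (U t).card = 2 ∧ U t ⊆ Qr) (hE1 : ∀ t ∈ E, ∀ i ∈ U t, ∀ c ∈ V t, A (i, c) = true)
    (hF : ∀ t ∈ F, (V t).card ≤ 2)
    (hG : ∀ t ∈ G, ((((U t ∩ Qr) ×ˢ (V t ∩ Qc)) \ W).card : ℝ) ≤ 15/32 * n)
    (cov : ∀ i ∈ Qr, ∀ c ∈ Qc, A (i, c) = true →
      (∃ t ∈ E, i ∈ U t ∧ c ∈ V t) ∨ (∃ t ∈ F, i ∈ U t ∧ c ∈ V t) ∨ (∃ t ∈ G, i ∈ U t ∧ c ∈ V t))
    (hW : (W.card : ℝ) ≤ ω * n)
    (hn : 0 < n) (hq : (n:ℝ) / 8 ≤ Qr.card)
    (hsn : 1000 * s ≤ n)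
    (hEF : (E.card : ℝ) ≤ Qr.card + s)
    (hFc : (F.card : ℝ) ≤ n / 32 + s) (hQc : (n:ℝ) - Qc.card ≤ n / 32 + s)
    (hx : (G.card : ℝ) ≤ 32 * (2 * η + η6) * n + 32 * (s + ω))
    (hκ2 : 15 * (2 * η + η6) * n ^ 2 + 16 * (s + ω) * n < n ^ 2 / 4096) : False := by
  have hnr : (0:ℝ) < n := by exact_mod_cast hn
  have hηn : η * n ≤ (1/10000) * n := mul_le_mul_of_nonneg_right hη hnr.le
  have hD : (n:ℝ) / 64 ≤ (1/8 - 4 * η) * n - (n - (Qc.card : ℝ)) - 2 * F.card := by linarith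
  have hlow := lowdeg_main hη0 h hQr E F G U V W (15/32) hE hE1 hF hG cov (by linarith)
  have h1 : (n:ℝ) / 32 ≤ (Qr.card : ℝ) - 2 * E.card / 3 := by linarith
  have h2 : (n:ℝ) / 32 * (n / 64) ≤
      ((Qr.card : ℝ) - 2 * E.card / 3) * ((1/8 - 4 * η) * n - (n - (Qc.card : ℝ)) - 2 * F.card) :=
    mul_le_mul h1 hD (by positivity) (by linarith)
  have h3 : (G.card : ℝ) * (15/32 * n) ≤ (32 * (2 * η + η6) * n + 32 * (s + ω)) * (15/32 * n) :=
    mul_le_mul_of_nonneg_right hx (by positivity)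
  have h4 : 0 ≤ s * n := by positivity
  nlinarith

theorem regimeII {A : Fin n × Fin n → Bool} {R R' Qr Qc : Finset (Fin n)} {K : Finset τ}
    {U V : τ → Finset (Fin n)} {W : Finset (Fin n × Fin n)} {η η6 s ω κ : ℝ}
    (hη0 : 0 ≤ η) (hη : η ≤ 1/10000) (hs : 0 ≤ s)
    (hr : RowTyp A R η) (hc : RowTyp (tr A) R' η) (ha : AreaTyp A R R' W (15/32))
    (hdisc : DiscTyp A η6) (hg : GadgetTyp A (1/32768) κ)
    (hW : (W.card : ℝ) ≤ ω * n)
    (h : Rest A R R' Qr Qc K U V)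
    (hK : (K.card : ℝ) ≤ (Qr.card : ℝ) + Qc.card - n + s)
    (hn : 128 ≤ n) (hq : (n:ℝ) / 8 ≤ Qr.card) (hq' : (n:ℝ) / 8 ≤ Qc.card)
    (hsn : 1000 * s ≤ n)
    (hκ1 : 15 * (2 * η + η6) * n ^ 2 + 16 * (s + ω) * n < κ * n ^ 2)
    (hκ2 : 15 * (2 * η + η6) * n ^ 2 + 16 * (s + ω) * n < n ^ 2 / 4096) : False := by
  classical
  have hn0 : 0 < n := by omega
  have hnr : (0:ℝ) < n := by exact_mod_cast hn0
  have hnr128 : (128:ℝ) ≤ n := by exact_mod_cast hn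
  have hQrn : (Qr.card : ℝ) ≤ n := by
    have := Finset.card_le_univ Qr
    rw [Fintype.card_fin] at this
    exact_mod_cast this
  have hQcn : (Qc.card : ℝ) ≤ n := by
    have := Finset.card_le_univ Qc
    rw [Fintype.card_fin] at this
    exact_mod_cast this
  let E := K.filter (fun t => (U t).card = 2 ∧ U t ⊆ Qr)
  let K1 := K.filter (fun t => ¬ ((U t).card = 2 ∧ U t ⊆ Qr))
  let F := K1.filter (fun t => (V t).card = 2 ∧ V t ⊆ Qc)
  let G := K1.filter (fun t => ¬ ((V t).card = 2 ∧ V t ⊆ Qc))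
  have hEK : E.card + K1.card = K.card := Finset.card_filter_add_card_filter_not _
  have hFK : F.card + G.card = K1.card := Finset.card_filter_add_card_filter_not _
  have hEGr : (E.card : ℝ) + F.card + G.card = K.card := by
    have : E.card + F.card + G.card = K.card := by omega
    exact_mod_cast this
  have he0 : (0:ℝ) ≤ E.card := Nat.cast_nonneg _
  have hf0 : (0:ℝ) ≤ F.card := Nat.cast_nonneg _
  have hx0 : (0:ℝ) ≤ G.card := Nat.cast_nonneg _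
  have hω0 : 0 ≤ ω := by
    have h1 : (0:ℝ) ≤ W.card := Nat.cast_nonneg _
    have h2 : 0 ≤ ω * n := le_trans h1 hW
    by_contra hc
    push Not at hc
    nlinarith
  have hareaE : ∀ t ∈ E, ((((U t ∩ Qr) ×ˢ (V t ∩ Qc)) \ W).card : ℝ) ≤ (1/2 + 2 * η) * n := by
    intro t ht
    have ht' := Finset.mem_filter.1 ht
    exact area_two hη0 ht'.2.1 (h.V_card_le hr ht'.1)
  have hareaF : ∀ t ∈ F, ((((U t ∩ Qr) ×ˢ (V t ∩ Qc)) \ W).card : ℝ) ≤ (1/2 + 2 * η) * n := by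
    intro t ht
    have ht' := Finset.mem_filter.1 ht
    have ht'' := Finset.mem_filter.1 ht'.1
    exact area_two' hη0 ht'.2.1 (h.U_card_le hc ht''.1)
  have hareaG : ∀ t ∈ G, ((((U t ∩ Qr) ×ˢ (V t ∩ Qc)) \ W).card : ℝ) ≤ 15/32 * n := by
    intro t ht
    have ht' := Finset.mem_filter.1 ht
    have ht'' := Finset.mem_filter.1 ht'.1
    have hU2 := h.U2 t ht''.1
    have hV2 := h.V2 t ht''.1
    by_cases hUc : (U t).card = 2
    · exact area_one hη0 hη hUc (fun hh => ht''.2 ⟨hUc, hh⟩) (h.V_card_le hr ht''.1)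
    · by_cases hVc : (V t).card = 2
      · exact area_one' hη0 hη hVc (fun hh => ht'.2 ⟨hVc, hh⟩) (h.U_card_le hc ht''.1)
      · exact area_big ha (h.UR t ht''.1) (h.VR t ht''.1) (by omega) (by omega) (h.ones t ht''.1)
  have hones_up : (((Qr ×ˢ Qc).filter (fun z => A z = true)).card : ℝ)
      ≤ ω * n + ((E.card : ℝ) + F.card) * ((1/2 + 2 * η) * n) + G.card * ((15/32) * n) := by
    refine le_trans (h.ones_le W) ?_
    have h1 : ∑ t ∈ K, ((((U t ∩ Qr) ×ˢ (V t ∩ Qc)) \ W).card : ℝ)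
        = ∑ t ∈ E, ((((U t ∩ Qr) ×ˢ (V t ∩ Qc)) \ W).card : ℝ)
          + (∑ t ∈ F, ((((U t ∩ Qr) ×ˢ (V t ∩ Qc)) \ W).card : ℝ)
          + ∑ t ∈ G, ((((U t ∩ Qr) ×ˢ (V t ∩ Qc)) \ W).card : ℝ)) := by
      rw [Finset.sum_filter_add_sum_filter_not, Finset.sum_filter_add_sum_filter_not]
    rw [h1]
    have h2 := sum_area_le hareaE
    have h3 := sum_area_le hareaF
    have h4 := sum_area_le hareaG
    linarith
  have hk : (E.card : ℝ) + F.card + G.card ≤ (Qr.card : ℝ) + Qc.card - n + s := by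
    rw [hEGr]; exact hK
  have hx := arithD (η6 := η6) hnr hQrn hQcn hx0 hη0 hη hs (hdisc Qr Qc) hones_up hk
  have hcov3 : ∀ i ∈ Qr, ∀ c ∈ Qc, A (i, c) = true →
      (∃ t ∈ E, i ∈ U t ∧ c ∈ V t) ∨ (∃ t ∈ F, i ∈ U t ∧ c ∈ V t) ∨ (∃ t ∈ G, i ∈ U t ∧ c ∈ V t) := by
    intro i hi c hc hA
    obtain ⟨t, ht, h1, h2⟩ := h.cov i hi c hc hA
    by_cases htE : (U t).card = 2 ∧ U t ⊆ Qr
    · exact Or.inl ⟨t, Finset.mem_filter.2 ⟨ht, htE⟩, h1, h2⟩
    · have hK1 : t ∈ K1 := Finset.mem_filter.2 ⟨ht, htE⟩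
      by_cases htF : (V t).card = 2 ∧ V t ⊆ Qc
      · exact Or.inr (Or.inl ⟨t, Finset.mem_filter.2 ⟨hK1, htF⟩, h1, h2⟩)
      · exact Or.inr (Or.inr ⟨t, Finset.mem_filter.2 ⟨hK1, htF⟩, h1, h2⟩)
  have hEp : ∀ t ∈ E, (U t).card = 2 ∧ U t ⊆ Qr := fun t ht => (Finset.mem_filter.1 ht).2
  have hFp : ∀ t ∈ F, (V t).card = 2 ∧ V t ⊆ Qc := fun t ht => (Finset.mem_filter.1 ht).2
  have hEK' : ∀ t ∈ E, t ∈ K := fun t ht => (Finset.mem_filter.1 ht).1
  have hFK' : ∀ t ∈ F, t ∈ K := fun t ht => (Finset.mem_filter.1 (Finset.mem_filter.1 ht).1).1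
  by_cases hcase1 : (Qr.card : ℝ) - E.card < n / 32
  · -- few column pairs
    refine caseB hη0 hη hr h.QrR E F G U V W s ω η6 hs hEp
      (fun t ht => h.ones t (hEK' t ht)) (fun t ht => (hFp t ht).1.le) hareaG hcov3 hW hn0 hq hsn
      (by linarith) (by linarith) (by linarith) hx hκ2
  by_cases hcase2 : (Qc.card : ℝ) - F.card < n / 32
  · have hareaG' : ∀ t ∈ G, ((((V t ∩ Qc) ×ˢ (U t ∩ Qr)) \ swapS W).card : ℝ) ≤ 15/32 * n := by
      intro t ht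
      rw [card_swap_sdiff]
      exact hareaG t ht
    refine caseB (A := tr A) hη0 hη hc h.QcR F E G V U (swapS W) s ω η6 hs hFp
      (fun t ht c hc i hi => h.ones t (hFK' t ht) i hi c hc) (fun t ht => (hEp t ht).1.le) hareaG'
      (fun c hc i hi hA => ?_) (by rw [card_swapS]; exact hW) hn0 hq' hsn
      (by linarith) (by linarith) (by linarith) hx hκ2
    rcases hcov3 i hi c hc hA with ⟨t, ht, h1, h2⟩ | ⟨t, ht, h1, h2⟩ | ⟨t, ht, h1, h2⟩
    · exact Or.inr (Or.inl ⟨t, ht, h2, h1⟩)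
    · exact Or.inl ⟨t, ht, h2, h1⟩
    · exact Or.inr (Or.inr ⟨t, ht, h2, h1⟩)
  push Not at hcase1 hcase2
  -- gadget case
  obtain ⟨σ, hσ, hσc⟩ := exists_pendant Qr E U hEp 128 (by norm_num)
  obtain ⟨ρ, hρ, hρc⟩ := exists_pendant Qc F V hFp 128 (by norm_num)
  push_cast at hσc hρc
  have hσ1 : 1/32768 * (n:ℝ) ≤ (supp σ).card := by linarith
  have hρ1 : 1/32768 * (n:ℝ) ≤ (supp ρ).card := by linarith
  have hgad := hg σ ρ hσ.1 hρ.1 hσ1 hρ1
  have hsub : (supp σ ×ˢ supp ρ).filter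
      (fun z => A z = true ∧ A (σ z.1, z.2) = false ∧ A (z.1, ρ z.2) = false)
      ⊆ W ∪ G.biUnion (fun t => ((U t ∩ Qr) ×ˢ (V t ∩ Qc)) \ W) := by
    rintro ⟨i, c⟩ hz
    rw [Finset.mem_filter, Finset.mem_product] at hz
    obtain ⟨⟨hi, hc⟩, hA1, hA2, hA3⟩ := hz
    simp only at hi hc hA1 hA2 hA3
    have hiQ := (hσ.2 i hi).1
    have hcQ := (hρ.2 c hc).1
    rw [Finset.mem_union]
    by_cases hW : ((i, c) : Fin n × Fin n) ∈ W
    · exact Or.inl hW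
    right
    rcases hcov3 i hiQ c hcQ hA1 with ⟨t, ht, hit, hct⟩ | ⟨t, ht, hit, hct⟩ | ⟨t, ht, hit, hct⟩
    · exfalso
      have h1 := (hσ.2 i hi).2.2 t ht hit
      have h2 : σ i ∈ U t := by rw [h1]; simp
      have h3 := h.ones t (hEK' t ht) (σ i) h2 c hct
      rw [h3] at hA2
      exact absurd hA2 (by decide)
    · exfalso
      have h1 := (hρ.2 c hc).2.2 t ht hct
      have h2 : ρ c ∈ V t := by rw [h1]; simp
      have h3 := h.ones t (hFK' t ht) i hit (ρ c) h2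
      rw [h3] at hA3
      exact absurd hA3 (by decide)
    · refine Finset.mem_biUnion.2 ⟨t, ht, ?_⟩
      rw [Finset.mem_sdiff, Finset.mem_product, Finset.mem_inter, Finset.mem_inter]
      exact ⟨⟨⟨hit, hiQ⟩, ⟨hct, hcQ⟩⟩, hW⟩
  have hup : (((supp σ ×ˢ supp ρ).filter
      (fun z => A z = true ∧ A (σ z.1, z.2) = false ∧ A (z.1, ρ z.2) = false)).card : ℝ)
      ≤ ω * n + G.card * (15/32 * n) := by
    have h1 := le_trans (Finset.card_le_card hsub) (Finset.card_union_le _ _)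
    have h2 := le_trans h1 (Nat.add_le_add_left Finset.card_biUnion_le _)
    have h3 : (((supp σ ×ˢ supp ρ).filter
      (fun z => A z = true ∧ A (σ z.1, z.2) = false ∧ A (z.1, ρ z.2) = false)).card : ℝ)
      ≤ W.card + ∑ t ∈ G, ((((U t ∩ Qr) ×ˢ (V t ∩ Qc)) \ W).card : ℝ) := by
      exact_mod_cast h2
    have h4 := sum_area_le hareaG
    linarith
  have h3 : (G.card : ℝ) * (15/32 * n) ≤ (32 * (2 * η + η6) * n + 32 * (s + ω)) * (15/32 * n) :=
    mul_le_mul_of_nonneg_right hx (by positivity)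
  have h4 : 0 ≤ s * n := by positivity
  have h5 : 0 ≤ ω * n := by positivity
  nlinarith

end Pool.Agent.H47
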