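import Mathlib
import Pool.Agent.H47.Det2

/-!
Structure of covers of a typical matrix.
-/

open Finset

namespace Pool.Agent.H47

variable {n : ℕ}

/-- All quasirandomness properties together. -/
structure Typical (A : Fin n × Fin n → Bool) (R R' : Finset (Fin n)) (W : Finset (Fin n × Fin n))
    (η η6 κ : ℝ) : Prop where
  row : RowTyp A R η
  col : RowTyp (tr A) R' η
  area : AreaTyp A R R' W (15/32)
  disc : DiscTyp A η6
  gad : GadgetTyp A (1/32768) κ

lemma AreaTyp.swap {A : Fin n × Fin n → Bool} {R R' : Finset (Fin n)}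
    {W : Finset (Fin n × Fin n)} {ν : ℝ} (h : AreaTyp A R R' W ν) :
    AreaTyp (tr A) R' R (swapS W) ν := by
  intro U V hU hV hU3 hV3 h1
  rw [card_swap_sdiff]
  exact h V U hV hU hV3 hU3 (fun i hi c hc => h1 c hc i hi)

/-- A 0/1 matrix is covered by the rectangles `U t × V t`. -/
def Covers {k : ℕ} (A : Fin n × Fin n → Bool) (U V : Fin k → Finset (Fin n)) : Prop :=
  ∀ i c, A (i, c) = true ↔ ∃ t, i ∈ U t ∧ c ∈ V t

theorem structure_of_cover {k : ℕ} {A : Fin n × Fin n → Bool} {R R' : Finset (Fin n)}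
    {W : Finset (Fin n × Fin n)} {η η6 κ s ω : ℝ}
    (hA : Typical A R R' W η η6 κ)
    (hη0 : 0 ≤ η) (hη : η ≤ 1/10000) (hs : 0 ≤ s) (hω : 0 ≤ ω)
    (hW : (W.card : ℝ) ≤ ω * n) (hn : 128 ≤ n)
    (hbig : 1000 * (s + ω) ≤ n)
    (hκ1 : 15 * (2 * η + η6) * n ^ 2 + 16 * (s + ω) * n < κ * n ^ 2)
    (hκ2 : 15 * (2 * η + η6) * n ^ 2 + 16 * (s + ω) * n < n ^ 2 / 4096)
    {U V : Fin k → Finset (Fin n)} (hcov : Covers A U V)
    (hk : (k : ℝ) ≤ (R.card : ℝ) + R'.card - n + s) :
    ((R.filter (fun i => ∀ t, U t ∩ R ≠ {i})).card : ℝ) ≤ 500 * (s + ω) ∨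
    ((R'.filter (fun c => ∀ t, V t ∩ R' ≠ {c})).card : ℝ) ≤ 500 * (s + ω) := by
  classical
  let Or := R.filter (fun i => ∃ t, U t ∩ R = {i})
  let Qr := R.filter (fun i => ¬ ∃ t, U t ∩ R = {i})
  let Oc := R'.filter (fun c => ∃ t, 2 ≤ (U t ∩ R).card ∧ V t ∩ R' = {c})
  let Qc := R'.filter (fun c => ¬ ∃ t, 2 ≤ (U t ∩ R).card ∧ V t ∩ R' = {c})
  have hRr : Or.card + Qr.card = R.card := Finset.card_filter_add_card_filter_not _
  have hRc : Oc.card + Qc.card = R'.card := Finset.card_filter_add_card_filter_not _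
  let RT : Finset (Fin k) := univ.filter (fun t => (U t ∩ R).card ≤ 1)
  let K1 : Finset (Fin k) := univ.filter (fun t => ¬ (U t ∩ R).card ≤ 1)
  let CT : Finset (Fin k) := K1.filter (fun t => (V t ∩ R').card ≤ 1)
  let K : Finset (Fin k) := K1.filter (fun t => ¬ (V t ∩ R').card ≤ 1)
  have hRTK : RT.card + K1.card = k := by
    have := Finset.card_filter_add_card_filter_not (s := (univ : Finset (Fin k)))
      (fun t => (U t ∩ R).card ≤ 1)
    rwa [Finset.card_univ, Fintype.card_fin] at this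
  have hCTK : CT.card + K.card = K1.card := Finset.card_filter_add_card_filter_not _
  -- owned rows
  have hOr : Or.card ≤ RT.card := by
    have hex : ∀ i ∈ Or, ∃ t, U t ∩ R = {i} := fun i hi => (Finset.mem_filter.1 hi).2
    rcases Finset.eq_empty_or_nonempty Or with h0 | ⟨i0, hi0⟩
    · rw [h0, Finset.card_empty]; exact Nat.zero_le _
    haveI : Nonempty (Fin k) := ⟨(hex i0 hi0).choose⟩
    choose! f hf using hex
    apply Finset.card_le_card_of_injOn f
    · intro i hi
      rw [Finset.mem_coe, Finset.mem_filter]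
      refine ⟨Finset.mem_univ _, ?_⟩
      rw [hf i hi, Finset.card_singleton]
    · intro i hi j hj hij
      have h1 := hf i hi
      have h2 := hf j hj
      rw [hij, h2] at h1
      exact (Finset.singleton_injective h1).symm
  have hOc : Oc.card ≤ CT.card := by
    have hex : ∀ c ∈ Oc, ∃ t, 2 ≤ (U t ∩ R).card ∧ V t ∩ R' = {c} :=
      fun c hc => (Finset.mem_filter.1 hc).2
    rcases Finset.eq_empty_or_nonempty Oc with h0 | ⟨i0, hi0⟩
    · rw [h0, Finset.card_empty]; exact Nat.zero_le _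
    haveI : Nonempty (Fin k) := ⟨(hex i0 hi0).choose⟩
    choose! f hf using hex
    apply Finset.card_le_card_of_injOn f
    · intro i hi
      rw [Finset.mem_coe, Finset.mem_filter]
      refine ⟨?_, ?_⟩
      · rw [Finset.mem_filter]
        refine ⟨Finset.mem_univ _, ?_⟩
        have := (hf i hi).1
        omega
      · rw [(hf i hi).2, Finset.card_singleton]
    · intro i hi j hj hij
      have h1 := (hf i hi).2
      have h2 := (hf j hj).2
      rw [hij, h2] at h1
      exact (Finset.singleton_injective h1).symm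
  have hrest : Rest A R R' Qr Qc K (fun t => U t ∩ R) (fun t => V t ∩ R') := by
    refine ⟨Finset.filter_subset _ _, Finset.filter_subset _ _, fun t _ => Finset.inter_subset_right,
      fun t _ => Finset.inter_subset_right, ?_, ?_, ?_, ?_⟩
    · intro t ht
      have h1 := (Finset.mem_filter.1 (Finset.mem_filter.1 ht).1).2
      omega
    · intro t ht
      have h1 := (Finset.mem_filter.1 ht).2
      omega
    · intro t _ i hi c hc
      exact (hcov i c).2 ⟨t, (Finset.mem_inter.1 hi).1, (Finset.mem_inter.1 hc).1⟩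
    · intro i hi c hc hAic
      obtain ⟨t, hit, hct⟩ := (hcov i c).1 hAic
      have hi' := Finset.mem_filter.1 hi
      have hc' := Finset.mem_filter.1 hc
      have hiU : i ∈ U t ∩ R := Finset.mem_inter.2 ⟨hit, hi'.1⟩
      have hcV : c ∈ V t ∩ R' := Finset.mem_inter.2 ⟨hct, hc'.1⟩
      have h1 : ¬ (U t ∩ R).card ≤ 1 := by
        intro hle
        apply hi'.2
        refine ⟨t, ?_⟩
        rw [Finset.card_le_one] at hle
        exact Finset.eq_singleton_iff_unique_mem.2 ⟨hiU, fun x hx => hle x hx i hiU⟩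
      have h2 : ¬ (V t ∩ R').card ≤ 1 := by
        intro hle
        apply hc'.2
        refine ⟨t, by omega, ?_⟩
        rw [Finset.card_le_one] at hle
        exact Finset.eq_singleton_iff_unique_mem.2 ⟨hcV, fun x hx => hle x hx c hcV⟩
      refine ⟨t, ?_, hiU, hcV⟩
      rw [Finset.mem_filter, Finset.mem_filter]
      exact ⟨⟨Finset.mem_univ _, h1⟩, h2⟩
  have hKc : (K.card : ℝ) ≤ (Qr.card : ℝ) + Qc.card - n + s := by
    have h1 : K.card + Or.card + Oc.card ≤ k := by omega
    have h2 : (K.card : ℝ) + Or.card + Oc.card ≤ k := by exact_mod_cast h1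
    have h3 : (Or.card : ℝ) + Qr.card = R.card := by exact_mod_cast hRr
    have h4 : (Oc.card : ℝ) + Qc.card = R'.card := by exact_mod_cast hRc
    linarith
  have hQr_eq : R.filter (fun i => ∀ t, U t ∩ R ≠ {i}) = Qr := by
    apply Finset.filter_congr
    intro i _
    push Not
    rfl
  have hQc_sub : (R'.filter (fun c => ∀ t, V t ∩ R' ≠ {c})).card ≤ Qc.card := by
    apply Finset.card_le_card
    intro c hc
    rw [Finset.mem_filter] at hc ⊢
    refine ⟨hc.1, ?_⟩
    rintro ⟨t, _, ht⟩
    exact hc.2 t ht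
  have hn0 : 0 < n := by omega
  rw [hQr_eq]
  by_cases hq : 8 * (Qr.card : ℝ) ≤ n
  · left
    exact regimeI hη0 hη hs hω hA.row hA.area hW hrest hKc hn0 hbig hq
  by_cases hq' : 8 * (Qc.card : ℝ) ≤ n
  · right
    have h1 := regimeI hη0 hη hs hω hA.col hA.area.swap (by rw [card_swapS]; exact hW) hrest.swap
      (by linarith) hn0 hbig hq'
    have h2 : ((R'.filter (fun c => ∀ t, V t ∩ R' ≠ {c})).card : ℝ) ≤ Qc.card := by
      exact_mod_cast hQc_sub
    linarith
  · exfalso
    push Not at hq hq'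
    exact regimeII hη0 hη hs hA.row hA.col hA.area hA.disc hA.gad hW hrest hKc hn
      (by linarith) (by linarith) (by linarith) hκ1 hκ2

end Pool.Agent.H47
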