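import Mathlib

/-!
Counting lemmas for 0/1 functions on a finite set: blocks of cells matching a pattern,
exponential moments and Chernoff type bounds.
-/

open Finset

namespace Pool.Agent.H47

variable {ι : Type*} [Fintype ι] [DecidableEq ι]

/-- Number of `f : ι → Bool` agreeing with `p` on `W`. -/
lemma card_agree (W : Finset ι) (p : ι → Bool) :
    ((univ.filter (fun f : ι → Bool => ∀ z ∈ W, f z = p z)).card : ℝ)
      = 2 ^ (Fintype.card ι) * ∏ _z ∈ W, (1 / 2 : ℝ) := by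
  have h : (univ.filter (fun f : ι → Bool => ∀ z ∈ W, f z = p z))
      = Fintype.piFinset (fun z => if z ∈ W then ({p z} : Finset Bool) else univ) := by
    ext f
    simp only [mem_filter, mem_univ, true_and, Fintype.mem_piFinset]
    constructor
    · intro h z
      by_cases hz : z ∈ W
      · simp [hz, h z hz]
      · simp [hz]
    · intro h z hz
      have := h z
      simpa [hz] using this
  rw [h, Fintype.card_piFinset]
  have h2 : ∀ z, ((if z ∈ W then ({p z} : Finset Bool) else univ).card : ℝ)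
      = 2 * (if z ∈ W then (1/2 : ℝ) else 1) := by
    intro z
    by_cases hz : z ∈ W
    · simp [hz]
    · simp [hz]
  push_cast
  rw [Finset.prod_congr rfl (fun z _ => h2 z), Finset.prod_mul_distrib]
  congr 1
  · simp
  · rw [Finset.prod_ite_mem]
    simp

/-- Number of blocks on which `f` agrees with the pattern. -/
def hits {β : Type*} (P : Finset β) (Z : β → Finset ι) (p : ι → Bool) (f : ι → Bool) : ℕ :=
  (P.filter (fun b => ∀ z ∈ Z b, f z = p z)).card

lemma sum_pow_hits {β : Type*} [DecidableEq β] (P : Finset β) (Z : β → Finset ι)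
    (p : ι → Bool) (hd : ∀ b ∈ P, ∀ b' ∈ P, b ≠ b' → Disjoint (Z b) (Z b')) (θ : ℝ) :
    ∑ f : ι → Bool, θ ^ (hits P Z p f)
      = 2 ^ (Fintype.card ι) * ∏ b ∈ P, (1 + (θ - 1) / 2 ^ (Z b).card) := by
  have h1 : ∀ f : ι → Bool, θ ^ (hits P Z p f)
      = ∏ b ∈ P, (1 + (θ - 1) * (if (∀ z ∈ Z b, f z = p z) then (1:ℝ) else 0)) := by
    intro f
    have : ∀ b ∈ P, (1 + (θ - 1) * (if (∀ z ∈ Z b, f z = p z) then (1:ℝ) else 0))
        = if (∀ z ∈ Z b, f z = p z) then θ else 1 := by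
      intro b _
      split_ifs <;> ring
    rw [Finset.prod_congr rfl this, Finset.prod_ite, Finset.prod_const, Finset.prod_const_one,
      mul_one]
    rfl
  have h2 : ∀ f : ι → Bool, θ ^ (hits P Z p f)
      = ∑ t ∈ P.powerset, (∏ b ∈ t, (θ - 1)) *
          (if (∀ z ∈ t.biUnion Z, f z = p z) then (1:ℝ) else 0) := by
    intro f
    rw [h1 f, Finset.prod_one_add]
    apply Finset.sum_congr rfl
    intro t _
    rw [Finset.prod_mul_distrib]
    congr 1
    by_cases hc : ∀ z ∈ t.biUnion Z, f z = p z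
    · rw [if_pos hc]
      apply Finset.prod_eq_one
      intro b hb
      rw [if_pos]
      intro z hz
      exact hc z (Finset.mem_biUnion.2 ⟨b, hb, hz⟩)
    · rw [if_neg hc]
      push Not at hc
      obtain ⟨z, hz, hne⟩ := hc
      obtain ⟨b, hb, hzb⟩ := Finset.mem_biUnion.1 hz
      apply Finset.prod_eq_zero hb
      rw [if_neg]
      intro hall
      exact hne (hall z hzb)
  rw [Finset.sum_congr rfl (fun f _ => h2 f), Finset.sum_comm]
  rw [Finset.prod_one_add, Finset.mul_sum]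
  apply Finset.sum_congr rfl
  intro t ht
  rw [← Finset.mul_sum]
  have h3 : ∑ f : ι → Bool, (if (∀ z ∈ t.biUnion Z, f z = p z) then (1:ℝ) else 0)
      = 2 ^ (Fintype.card ι) * ∏ _z ∈ t.biUnion Z, (1 / 2 : ℝ) := by
    rw [← card_agree (t.biUnion Z) p, Finset.sum_boole]
  rw [h3]
  have h4 : ∏ _z ∈ t.biUnion Z, (1 / 2 : ℝ) = ∏ b ∈ t, (1 / 2 ^ (Z b).card : ℝ) := by
    rw [Finset.prod_biUnion]
    · apply Finset.prod_congr rfl
      intro b _
      rw [Finset.prod_const]
      rw [one_div, one_div, inv_pow]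
    · intro b hb b' hb' hne
      have htP := Finset.mem_powerset.1 ht
      exact hd b (htP hb) b' (htP hb') hne
  rw [h4]
  have h5 : ∏ b ∈ t, ((θ - 1) / 2 ^ (Z b).card) = (∏ b ∈ t, (θ - 1)) * ∏ b ∈ t, (1 / 2 ^ (Z b).card : ℝ) := by
    rw [← Finset.prod_mul_distrib]
    apply Finset.prod_congr rfl
    intro b _
    ring
  rw [h5]
  ring

/-- Product formula for block dependent weights. -/
lemma sum_prod_blocks {β : Type*} [DecidableEq β] (P : Finset β) (Z : β → Finset ι)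
    (p : ι → Bool) (hd : ∀ b ∈ P, ∀ b' ∈ P, b ≠ b' → Disjoint (Z b) (Z b')) (θ : β → ℝ) :
    ∑ f : ι → Bool, ∏ b ∈ P, (if (∀ z ∈ Z b, f z = p z) then θ b else 1)
      = 2 ^ (Fintype.card ι) * ∏ b ∈ P, (1 + (θ b - 1) / 2 ^ (Z b).card) := by
  have h2 : ∀ f : ι → Bool, ∏ b ∈ P, (if (∀ z ∈ Z b, f z = p z) then θ b else 1)
      = ∑ t ∈ P.powerset, (∏ b ∈ t, (θ b - 1)) *
          (if (∀ z ∈ t.biUnion Z, f z = p z) then (1:ℝ) else 0) := by
    intro f
    have h1 : ∏ b ∈ P, (if (∀ z ∈ Z b, f z = p z) then θ b else 1)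
      = ∏ b ∈ P, (1 + (θ b - 1) * (if (∀ z ∈ Z b, f z = p z) then (1:ℝ) else 0)) := by
      apply Finset.prod_congr rfl
      intro b _
      split_ifs <;> ring
    rw [h1, Finset.prod_one_add]
    apply Finset.sum_congr rfl
    intro t _
    rw [Finset.prod_mul_distrib]
    congr 1
    by_cases hc : ∀ z ∈ t.biUnion Z, f z = p z
    · rw [if_pos hc]
      apply Finset.prod_eq_one
      intro b hb
      rw [if_pos]
      intro z hz
      exact hc z (Finset.mem_biUnion.2 ⟨b, hb, hz⟩)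
    · rw [if_neg hc]
      push Not at hc
      obtain ⟨z, hz, hne⟩ := hc
      obtain ⟨b, hb, hzb⟩ := Finset.mem_biUnion.1 hz
      apply Finset.prod_eq_zero hb
      rw [if_neg]
      intro hall
      exact hne (hall z hzb)
  rw [Finset.sum_congr rfl (fun f _ => h2 f), Finset.sum_comm]
  rw [Finset.prod_one_add, Finset.mul_sum]
  apply Finset.sum_congr rfl
  intro t ht
  rw [← Finset.mul_sum]
  have h3 : ∑ f : ι → Bool, (if (∀ z ∈ t.biUnion Z, f z = p z) then (1:ℝ) else 0)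
      = 2 ^ (Fintype.card ι) * ∏ _z ∈ t.biUnion Z, (1 / 2 : ℝ) := by
    rw [← card_agree (t.biUnion Z) p, Finset.sum_boole]
  rw [h3]
  have h4 : ∏ _z ∈ t.biUnion Z, (1 / 2 : ℝ) = ∏ b ∈ t, (1 / 2 ^ (Z b).card : ℝ) := by
    rw [Finset.prod_biUnion]
    · apply Finset.prod_congr rfl
      intro b _
      rw [Finset.prod_const]
      rw [one_div, one_div, inv_pow]
    · intro b hb b' hb' hne
      have htP := Finset.mem_powerset.1 ht
      exact hd b (htP hb) b' (htP hb') hne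
  rw [h4]
  have h5 : ∏ b ∈ t, ((θ b - 1) / 2 ^ (Z b).card)
      = (∏ b ∈ t, (θ b - 1)) * ∏ b ∈ t, (1 / 2 ^ (Z b).card : ℝ) := by
    rw [← Finset.prod_mul_distrib]
    apply Finset.prod_congr rfl
    intro b _
    ring
  rw [h5]
  ring

/-- General upper tail bound. -/
lemma card_hits_ge_le {β : Type*} [DecidableEq β] (P : Finset β) (Z : β → Finset ι)
    (p : ι → Bool) (hd : ∀ b ∈ P, ∀ b' ∈ P, b ≠ b' → Disjoint (Z b) (Z b')) (θ : ℝ) (hθ : 1 ≤ θ)
    (w : ℕ) (hw : ∀ b ∈ P, (Z b).card = w) (m : ℕ) :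
    ((univ.filter (fun f : ι → Bool => m ≤ hits P Z p f)).card : ℝ) * θ ^ m
      ≤ 2 ^ (Fintype.card ι) * (1 + (θ - 1) / 2 ^ w) ^ P.card := by
  have h1 := sum_pow_hits P Z p hd θ
  have h2 : ∏ b ∈ P, (1 + (θ - 1) / 2 ^ (Z b).card) = (1 + (θ - 1) / 2 ^ w) ^ P.card := by
    rw [Finset.prod_congr rfl (fun b hb => by rw [hw b hb]), Finset.prod_const]
  rw [h2] at h1
  rw [← h1]
  have h3 : ∑ f ∈ univ.filter (fun f : ι → Bool => m ≤ hits P Z p f), θ ^ (hits P Z p f)
      ≤ ∑ f : ι → Bool, θ ^ (hits P Z p f) := by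
    apply Finset.sum_le_sum_of_subset_of_nonneg (Finset.filter_subset _ _)
    intro f _ _
    positivity
  refine le_trans ?_ h3
  rw [← nsmul_eq_mul]
  apply Finset.card_nsmul_le_sum
  intro f hf
  exact pow_le_pow_right₀ hθ (Finset.mem_filter.1 hf).2

/-- Exponential upper tail bound. -/
lemma card_hits_ge_exp {β : Type*} [DecidableEq β] (P : Finset β) (Z : β → Finset ι)
    (p : ι → Bool) (hd : ∀ b ∈ P, ∀ b' ∈ P, b ≠ b' → Disjoint (Z b) (Z b'))
    (w : ℕ) (hw : ∀ b ∈ P, (Z b).card = w) (x : ℝ) (hx0 : 0 ≤ x) (hx1 : x ≤ 1) (t : ℝ) :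
    ((univ.filter (fun f : ι → Bool => t ≤ (hits P Z p f : ℝ))).card : ℝ)
      ≤ 2 ^ (Fintype.card ι) * Real.exp (P.card / 2 ^ w * (x + x ^ 2) - x * t) := by
  have h1 := sum_pow_hits P Z p hd (Real.exp x)
  have h2 : ∏ b ∈ P, (1 + (Real.exp x - 1) / 2 ^ (Z b).card)
      = (1 + (Real.exp x - 1) / 2 ^ w) ^ P.card := by
    rw [Finset.prod_congr rfl (fun b hb => by rw [hw b hb]), Finset.prod_const]
  rw [h2] at h1
  have hex : Real.exp x - 1 ≤ x + x ^ 2 := by
    have := Real.abs_exp_sub_one_sub_id_le (x := x) (by rw [abs_of_nonneg hx0]; exact hx1)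
    have := (abs_le.1 this).2
    linarith
  have hex0 : 0 ≤ Real.exp x - 1 := by
    have := Real.add_one_le_exp x
    linarith
  have h4 : (1 + (Real.exp x - 1) / 2 ^ w) ^ P.card
      ≤ Real.exp (P.card / 2 ^ w * (x + x ^ 2)) := by
    have : (1 + (Real.exp x - 1) / 2 ^ w) ≤ Real.exp ((x + x ^ 2) / 2 ^ w) := by
      have h5 := Real.add_one_le_exp ((x + x ^ 2) / 2 ^ w)
      have h6 : (Real.exp x - 1) / 2 ^ w ≤ (x + x ^ 2) / 2 ^ w := by
        apply div_le_div_of_nonneg_right hex (by positivity)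
      linarith
    calc (1 + (Real.exp x - 1) / 2 ^ w) ^ P.card
        ≤ (Real.exp ((x + x ^ 2) / 2 ^ w)) ^ P.card := by
          apply pow_le_pow_left₀ _ this
          have : 0 ≤ (Real.exp x - 1) / 2 ^ w := by positivity
          linarith
      _ = Real.exp (P.card / 2 ^ w * (x + x ^ 2)) := by
          rw [← Real.exp_nat_mul]
          congr 1
          ring
  have h3 : ∑ f ∈ univ.filter (fun f : ι → Bool => t ≤ (hits P Z p f : ℝ)),
      (Real.exp x) ^ (hits P Z p f)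
      ≤ ∑ f : ι → Bool, (Real.exp x) ^ (hits P Z p f) := by
    apply Finset.sum_le_sum_of_subset_of_nonneg (Finset.filter_subset _ _)
    intro f _ _
    positivity
  have h7 : ((univ.filter (fun f : ι → Bool => t ≤ (hits P Z p f : ℝ))).card : ℝ)
      * Real.exp (x * t)
      ≤ ∑ f ∈ univ.filter (fun f : ι → Bool => t ≤ (hits P Z p f : ℝ)),
      (Real.exp x) ^ (hits P Z p f) := by
    rw [← nsmul_eq_mul]
    apply Finset.card_nsmul_le_sum
    intro f hf
    have := (Finset.mem_filter.1 hf).2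
    rw [← Real.exp_nat_mul]
    apply Real.exp_le_exp.2
    nlinarith
  have h8 : ((univ.filter (fun f : ι → Bool => t ≤ (hits P Z p f : ℝ))).card : ℝ)
      * Real.exp (x * t) ≤ 2 ^ (Fintype.card ι) * Real.exp (P.card / 2 ^ w * (x + x ^ 2)) := by
    calc _ ≤ _ := h7
      _ ≤ _ := h3
      _ = _ := h1
      _ ≤ _ := by
        apply mul_le_mul_of_nonneg_left h4 (by positivity)
  rw [Real.exp_sub, mul_div_assoc', le_div_iff₀ (Real.exp_pos _)]
  exact h8

/-- Exponential lower tail bound. -/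
lemma card_hits_le_exp {β : Type*} [DecidableEq β] (P : Finset β) (Z : β → Finset ι)
    (p : ι → Bool) (hd : ∀ b ∈ P, ∀ b' ∈ P, b ≠ b' → Disjoint (Z b) (Z b'))
    (w : ℕ) (hw : ∀ b ∈ P, (Z b).card = w) (x : ℝ) (hx0 : 0 ≤ x) (hx1 : x ≤ 1) (t : ℝ) :
    ((univ.filter (fun f : ι → Bool => (hits P Z p f : ℝ) ≤ t)).card : ℝ)
      ≤ 2 ^ (Fintype.card ι) * Real.exp (P.card / 2 ^ w * (-x + x ^ 2) + x * t) := by
  have h1 := sum_pow_hits P Z p hd (Real.exp (-x))
  have h2 : ∏ b ∈ P, (1 + (Real.exp (-x) - 1) / 2 ^ (Z b).card)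
      = (1 + (Real.exp (-x) - 1) / 2 ^ w) ^ P.card := by
    rw [Finset.prod_congr rfl (fun b hb => by rw [hw b hb]), Finset.prod_const]
  rw [h2] at h1
  have hex : Real.exp (-x) - 1 ≤ -x + x ^ 2 := by
    have := Real.abs_exp_sub_one_sub_id_le (x := -x) (by rw [abs_neg, abs_of_nonneg hx0]; exact hx1)
    have := (abs_le.1 this).2
    nlinarith
  have hexm : -1 ≤ Real.exp (-x) - 1 := by
    have := Real.exp_pos (-x)
    linarith
  have h2w : (1:ℝ) ≤ 2 ^ w := one_le_pow₀ (by norm_num)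
  have h4 : (1 + (Real.exp (-x) - 1) / 2 ^ w) ^ P.card
      ≤ Real.exp (P.card / 2 ^ w * (-x + x ^ 2)) := by
    have : (1 + (Real.exp (-x) - 1) / 2 ^ w) ≤ Real.exp ((-x + x ^ 2) / 2 ^ w) := by
      have h5 := Real.add_one_le_exp ((-x + x ^ 2) / 2 ^ w)
      have h6 : (Real.exp (-x) - 1) / 2 ^ w ≤ (-x + x ^ 2) / 2 ^ w := by
        apply div_le_div_of_nonneg_right hex (by positivity)
      linarith
    calc (1 + (Real.exp (-x) - 1) / 2 ^ w) ^ P.card
        ≤ (Real.exp ((-x + x ^ 2) / 2 ^ w)) ^ P.card := by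
          apply pow_le_pow_left₀ _ this
          have : -1 ≤ (Real.exp (-x) - 1) / 2 ^ w := by
            rw [le_div_iff₀ (by positivity)]
            nlinarith
          linarith
      _ = Real.exp (P.card / 2 ^ w * (-x + x ^ 2)) := by
          rw [← Real.exp_nat_mul]
          congr 1
          ring
  have h3 : ∑ f ∈ univ.filter (fun f : ι → Bool => (hits P Z p f : ℝ) ≤ t),
      (Real.exp (-x)) ^ (hits P Z p f)
      ≤ ∑ f : ι → Bool, (Real.exp (-x)) ^ (hits P Z p f) := by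
    apply Finset.sum_le_sum_of_subset_of_nonneg (Finset.filter_subset _ _)
    intro f _ _
    positivity
  have h7 : ((univ.filter (fun f : ι → Bool => (hits P Z p f : ℝ) ≤ t)).card : ℝ)
      * Real.exp (-(x * t))
      ≤ ∑ f ∈ univ.filter (fun f : ι → Bool => (hits P Z p f : ℝ) ≤ t),
      (Real.exp (-x)) ^ (hits P Z p f) := by
    rw [← nsmul_eq_mul]
    apply Finset.card_nsmul_le_sum
    intro f hf
    have := (Finset.mem_filter.1 hf).2
    rw [← Real.exp_nat_mul]
    apply Real.exp_le_exp.2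
    nlinarith
  have h8 : ((univ.filter (fun f : ι → Bool => (hits P Z p f : ℝ) ≤ t)).card : ℝ)
      * Real.exp (-(x * t)) ≤ 2 ^ (Fintype.card ι) * Real.exp (P.card / 2 ^ w * (-x + x ^ 2)) := by
    calc _ ≤ _ := h7
      _ ≤ _ := h3
      _ = _ := h1
      _ ≤ _ := by
        apply mul_le_mul_of_nonneg_left h4 (by positivity)
  have h9 : Real.exp (P.card / 2 ^ w * (-x + x ^ 2) + x * t)
      = Real.exp (P.card / 2 ^ w * (-x + x ^ 2)) / Real.exp (-(x * t)) := by
    rw [← Real.exp_sub]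
    congr 1
    ring
  rw [h9, mul_div_assoc', le_div_iff₀ (Real.exp_pos _)]
  exact h8

end Pool.Agent.H47
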