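import Mathlib
import Pool.Agent.H47.Count
import Pool.Agent.H47.Det

/-!
Bad tuples of rows: probability that many disjoint tuples are bad, and extraction of a large
set of rows without bad tuples.
-/

open Finset

namespace Pool.Agent.H47

variable {n : ℕ}

/-- common columns of ones of the rows in `U` -/
def comm (A : Fin n × Fin n → Bool) (U : Finset (Fin n)) : Finset (Fin n) :=
  univ.filter (fun c => ∀ i ∈ U, A (i, c) = true)

/-- bad tuple of rows (with a direction) -/
def BadT (η : ℝ) (A : Fin n × Fin n → Bool) (T : Finset (Fin n) × Bool) : Prop :=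
  (T.2 = true ∧ T.1.card = 2 ∧ (1/4 + η) * n < ((comm A T.1).card : ℝ)) ∨
  (T.2 = true ∧ 3 ≤ T.1.card ∧ T.1.card ≤ 512 ∧
    15 / (32 * (T.1.card : ℝ)) * n < ((comm A T.1).card : ℝ)) ∨
  (T.2 = false ∧ T.1.card = 1 ∧ ((comm A T.1).card : ℝ) < (1/2 - η) * n) ∨
  (T.2 = false ∧ T.1.card = 3 ∧ ((comm A T.1).card : ℝ) < (1/8 - η) * n)

lemma exp_sub_one_le {y : ℝ} (hy : |y| ≤ 1) : Real.exp y - 1 ≤ y + y ^ 2 := by
  have := Real.abs_exp_sub_one_sub_id_le hy
  have := (abs_le.1 this).2
  linarith

lemma weight_le {y t b : ℝ} (hy : |y| ≤ 1) (a : ℕ)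
    (hb : (y + y ^ 2) / 2 ^ a - y * t ≤ b) :
    (1 + (Real.exp y - 1) / 2 ^ a) * Real.exp (- (y * t)) ≤ Real.exp b := by
  have h1 := exp_sub_one_le hy
  have h2 : 1 + (Real.exp y - 1) / 2 ^ a ≤ Real.exp ((y + y ^ 2) / 2 ^ a) := by
    have h3 := Real.add_one_le_exp ((y + y ^ 2) / 2 ^ a)
    have h4 : (Real.exp y - 1) / 2 ^ a ≤ (y + y ^ 2) / 2 ^ a :=
      div_le_div_of_nonneg_right h1 (by positivity)
    linarith
  calc (1 + (Real.exp y - 1) / 2 ^ a) * Real.exp (- (y * t))
      ≤ Real.exp ((y + y ^ 2) / 2 ^ a) * Real.exp (- (y * t)) :=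
        mul_le_mul_of_nonneg_right h2 (Real.exp_pos _).le
    _ = Real.exp ((y + y ^ 2) / 2 ^ a - y * t) := by
        rw [← Real.exp_add]; congr 1
    _ ≤ Real.exp b := Real.exp_le_exp.2 hb

lemma nat_bound : ∀ a : ℕ, 3 ≤ a → (a : ℝ) / 2 ^ a ≤ 3 / 8 := by
  intro a ha
  induction a, ha using Nat.le_induction with
  | base => norm_num
  | succ a ha ih =>
    rw [div_le_iff₀ (by positivity)] at ih ⊢
    have : (3:ℝ) ≤ a := by exact_mod_cast ha
    rw [pow_succ]
    push_cast
    nlinarith

lemma pointwise {η : ℝ} (hη0 : 0 < η) (hη : η ≤ 1/10000) (T : Finset (Fin n) × Bool)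
    (h1 : 1 ≤ T.1.card) (h2 : T.1.card ≤ 512) :
    ∃ y t : ℝ, (∀ A : Fin n × Fin n → Bool, BadT η A T → 0 ≤ y * (((comm A T.1).card : ℝ) - t * n)) ∧
      (1 + (Real.exp y - 1) / 2 ^ T.1.card) * Real.exp (- (y * t)) ≤ Real.exp (- (η ^ 2 / 2)) := by
  have hη1 : |η| ≤ 1 := by rw [abs_of_pos hη0]; linarith
  have hη2 : |-η| ≤ 1 := by rw [abs_neg]; exact hη1
  have hpow : (1:ℝ) / 2 ^ T.1.card ≤ 1 / 2 := by
    have : (2:ℝ) ^ 1 ≤ 2 ^ T.1.card := pow_le_pow_right₀ (by norm_num) h1
    rw [pow_one] at this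
    exact one_div_le_one_div_of_le (by norm_num) this
  have hpow0 : (0:ℝ) < 1 / 2 ^ T.1.card := by positivity
  have hηsq : 0 < η ^ 2 := by positivity
  rcases hd : T.2 with _ | _
  · -- lower
    refine ⟨-η, 1 / 2 ^ T.1.card - η, ?_, ?_⟩
    · intro A hA
      rcases hA with h | h | h | h
      · exact absurd (hd.symm.trans h.1) (by decide)
      · exact absurd (hd.symm.trans h.1) (by decide)
      · rw [h.2.1]
        have := h.2.2
        nlinarith
      · rw [h.2.1]
        have := h.2.2
        nlinarith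
    · apply weight_le hη2
      have : (-η + (-η) ^ 2) / 2 ^ T.1.card - -η * (1 / 2 ^ T.1.card - η)
        = η ^ 2 * (1 / 2 ^ T.1.card) - η ^ 2 := by ring
      rw [this]
      nlinarith
  · -- upper
    by_cases hc : T.1.card ≤ 2
    · refine ⟨η, 1 / 2 ^ T.1.card + η, ?_, ?_⟩
      · intro A hA
        rcases hA with h | h | h | h
        · rw [h.2.1]
          have := h.2.2
          nlinarith
        · omega
        · exact absurd (hd.symm.trans h.1) (by decide)
        · exact absurd (hd.symm.trans h.1) (by decide)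
      · apply weight_le hη1
        have : (η + η ^ 2) / 2 ^ T.1.card - η * (1 / 2 ^ T.1.card + η)
          = η ^ 2 * (1 / 2 ^ T.1.card) - η ^ 2 := by ring
        rw [this]
        nlinarith
    · push Not at hc
      refine ⟨1/10, 15 / (32 * (T.1.card : ℝ)), ?_, ?_⟩
      · intro A hA
        rcases hA with h | h | h | h
        · omega
        · have := h.2.2.2
          nlinarith
        · exact absurd (hd.symm.trans h.1) (by decide)
        · exact absurd (hd.symm.trans h.1) (by decide)
      · apply weight_le (by rw [abs_of_pos] <;> norm_num)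
        have hb := nat_bound T.1.card hc
        have hapos : (0:ℝ) < T.1.card := by exact_mod_cast h1
        have ha512 : (T.1.card : ℝ) ≤ 512 := by exact_mod_cast h2
        have h3 : (1:ℝ) / 2 ^ T.1.card ≤ 3 / 8 / T.1.card := by
          rw [le_div_iff₀ hapos]
          calc (1:ℝ) / 2 ^ T.1.card * T.1.card = T.1.card / 2 ^ T.1.card := by ring
            _ ≤ 3 / 8 := hb
        have h4 : (1:ℝ) / 512 ≤ 1 / T.1.card := one_div_le_one_div_of_le hapos ha512
        have h5 : ((1:ℝ)/10 + (1/10) ^ 2) / 2 ^ T.1.card - 1/10 * (15 / (32 * (T.1.card : ℝ)))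
          = 11/100 * (1 / 2 ^ T.1.card) - 3/64 * (1 / T.1.card) := by
          field_simp
          ring
        rw [h5]
        have h6 : (3:ℝ) / 8 / T.1.card = 3/8 * (1 / T.1.card) := by ring
        rw [h6] at h3
        have h7 : η ^ 2 ≤ (1/10000) ^ 2 := pow_le_pow_left₀ hη0.le hη 2
        nlinarith

lemma exp_comm_eq (A : Fin n × Fin n → Bool) (U : Finset (Fin n)) (y : ℝ) :
    Real.exp (y * ((comm A U).card : ℝ))
      = ∏ c : Fin n, (if (∀ z ∈ U ×ˢ ({c} : Finset (Fin n)), A z = true) then Real.exp y else 1) := by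
  rw [Finset.prod_ite, Finset.prod_const, Finset.prod_const_one, mul_one, ← Real.exp_nat_mul,
    mul_comm]
  congr 3
  unfold comm
  congr 1
  ext c
  simp only [Finset.mem_filter, Finset.mem_univ, true_and, Finset.mem_product, Finset.mem_singleton]
  constructor
  · rintro h ⟨i, c'⟩ ⟨hi, hc⟩
    simp only at hi hc
    rw [hc]
    exact h i hi
  · intro h i hi
    exact h (i, c) ⟨hi, rfl⟩

/-- number of matrices for which all tuples of a disjoint family are bad -/
lemma card_all_bad {η : ℝ} (hη0 : 0 < η) (hη : η ≤ 1/10000) {m : ℕ}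
    (u : Fin m → Finset (Fin n) × Bool) (h1 : ∀ j, 1 ≤ (u j).1.card)
    (h2 : ∀ j, (u j).1.card ≤ 512) (hd : ∀ j k, j ≠ k → Disjoint (u j).1 (u k).1) :
    (Nat.card {A : Fin n × Fin n → Bool // ∀ j, BadT η A (u j)} : ℝ)
      ≤ 2 ^ (n * n) * Real.exp (- (η ^ 2 / 2) * (m * n)) := by
  classical
  choose y t hyt1 hyt2 using fun j => pointwise hη0 hη (u j) (h1 j) (h2 j)
  let Z : Fin m × Fin n → Finset (Fin n × Fin n) := fun b => (u b.1).1 ×ˢ ({b.2} : Finset (Fin n))
  have hZd : ∀ b ∈ (univ : Finset (Fin m × Fin n)), ∀ b' ∈ (univ : Finset (Fin m × Fin n)),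
      b ≠ b' → Disjoint (Z b) (Z b') := by
    rintro ⟨j, c⟩ _ ⟨j', c'⟩ _ hne
    rw [Finset.disjoint_left]
    rintro ⟨i, x⟩ hz hz'
    simp only [Z, Finset.mem_product, Finset.mem_singleton] at hz hz'
    by_cases hj : j = j'
    · subst hj
      apply hne
      rw [Prod.mk.injEq]
      exact ⟨rfl, hz.2.symm.trans hz'.2⟩
    · exact Finset.disjoint_left.1 (hd j j' hj) hz.1 hz'.1
  have hmain := sum_prod_blocks (univ : Finset (Fin m × Fin n)) Z (fun _ => true) hZd
    (fun b => Real.exp (y b.1))
  have hcard : Fintype.card (Fin n × Fin n) = n * n := by simp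
  have hN : (Nat.card {A : Fin n × Fin n → Bool // ∀ j, BadT η A (u j)} : ℝ)
      = ∑ A : Fin n × Fin n → Bool, (if ∀ j, BadT η A (u j) then (1:ℝ) else 0) := by
    rw [Nat.card_eq_fintype_card, Fintype.card_subtype, Finset.sum_boole]
  rw [hN]
  have hle : ∀ A : Fin n × Fin n → Bool, (if ∀ j, BadT η A (u j) then (1:ℝ) else 0)
      ≤ (∏ j : Fin m, Real.exp (- (y j * t j)) ^ n) *
        ∏ b ∈ (univ : Finset (Fin m × Fin n)),
          (if (∀ z ∈ Z b, A z = true) then Real.exp (y b.1) else 1) := by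
    intro A
    have hprod : ∏ b ∈ (univ : Finset (Fin m × Fin n)),
          (if (∀ z ∈ Z b, A z = true) then Real.exp (y b.1) else 1)
        = ∏ j : Fin m, Real.exp (y j * ((comm A (u j).1).card : ℝ)) := by
      rw [← Finset.univ_product_univ, Finset.prod_product]
      apply Finset.prod_congr rfl
      intro j _
      rw [exp_comm_eq]
    rw [hprod, ← Finset.prod_mul_distrib]
    split_ifs with hA
    · have : ∀ j ∈ (univ : Finset (Fin m)), (1:ℝ) ≤ Real.exp (- (y j * t j)) ^ n *
          Real.exp (y j * ((comm A (u j).1).card : ℝ)) := by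
        intro j _
        rw [← Real.exp_nat_mul, ← Real.exp_add]
        apply Real.one_le_exp
        have := hyt1 j A (hA j)
        linarith
      calc (1:ℝ) = ∏ j : Fin m, (1:ℝ) := by rw [Finset.prod_const_one]
        _ ≤ _ := Finset.prod_le_prod (fun _ _ => zero_le_one) this
    · apply Finset.prod_nonneg
      intro j _
      positivity
  calc ∑ A : Fin n × Fin n → Bool, (if ∀ j, BadT η A (u j) then (1:ℝ) else 0)
      ≤ ∑ A : Fin n × Fin n → Bool, (∏ j : Fin m, Real.exp (- (y j * t j)) ^ n) *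
        ∏ b ∈ (univ : Finset (Fin m × Fin n)),
          (if (∀ z ∈ Z b, A z = true) then Real.exp (y b.1) else 1) :=
        Finset.sum_le_sum (fun A _ => hle A)
    _ = (∏ j : Fin m, Real.exp (- (y j * t j)) ^ n) * (2 ^ (n * n) *
          ∏ b ∈ (univ : Finset (Fin m × Fin n)), (1 + (Real.exp (y b.1) - 1) / 2 ^ (Z b).card)) := by
        rw [← Finset.mul_sum, hmain, hcard]
    _ = 2 ^ (n * n) * ∏ j : Fin m, ((1 + (Real.exp (y j) - 1) / 2 ^ (u j).1.card) *
          Real.exp (- (y j * t j))) ^ n := by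
        have h3 : ∏ b ∈ (univ : Finset (Fin m × Fin n)), (1 + (Real.exp (y b.1) - 1) / 2 ^ (Z b).card)
            = ∏ j : Fin m, (1 + (Real.exp (y j) - 1) / 2 ^ (u j).1.card) ^ n := by
          rw [← Finset.univ_product_univ, Finset.prod_product]
          apply Finset.prod_congr rfl
          intro j _
          have : ∀ c ∈ (univ : Finset (Fin n)), (1 + (Real.exp (y (j, c).1) - 1) / 2 ^ (Z (j, c)).card)
              = (1 + (Real.exp (y j) - 1) / 2 ^ (u j).1.card) := by
            intro c _
            simp only [Z, Finset.card_product, Finset.card_singleton, mul_one]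
          rw [Finset.prod_congr rfl this, Finset.prod_const, Finset.card_univ, Fintype.card_fin]
        rw [h3]
        have h4 : ∏ j : Fin m, ((1 + (Real.exp (y j) - 1) / 2 ^ (u j).1.card) *
          Real.exp (- (y j * t j))) ^ n
          = (∏ j : Fin m, (1 + (Real.exp (y j) - 1) / 2 ^ (u j).1.card) ^ n) *
            ∏ j : Fin m, Real.exp (- (y j * t j)) ^ n := by
          rw [← Finset.prod_mul_distrib]
          apply Finset.prod_congr rfl
          intro j _
          rw [mul_pow]
        rw [h4]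
        ring
    _ ≤ 2 ^ (n * n) * ∏ j : Fin m, Real.exp (- (η ^ 2 / 2)) ^ n := by
        apply mul_le_mul_of_nonneg_left _ (by positivity)
        apply Finset.prod_le_prod
        · intro j _
          apply pow_nonneg
          apply mul_nonneg _ (Real.exp_pos _).le
          have h5 : (1:ℝ) ≤ 2 ^ (u j).1.card := one_le_pow₀ (by norm_num)
          have h6 : -1 ≤ (Real.exp (y j) - 1) / 2 ^ (u j).1.card := by
            rw [le_div_iff₀ (by positivity)]
            have := Real.exp_pos (y j)
            linarith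
          linarith
        · intro j _
          apply pow_le_pow_left₀ _ (hyt2 j)
          apply mul_nonneg _ (Real.exp_pos _).le
          have h5 : (1:ℝ) ≤ 2 ^ (u j).1.card := one_le_pow₀ (by norm_num)
          have h6 : -1 ≤ (Real.exp (y j) - 1) / 2 ^ (u j).1.card := by
            rw [le_div_iff₀ (by positivity)]
            have := Real.exp_pos (y j)
            linarith
          linarith
    _ = 2 ^ (n * n) * Real.exp (- (η ^ 2 / 2) * (m * n)) := by
        rw [Finset.prod_const, Finset.card_univ, Fintype.card_fin, ← Real.exp_nat_mul,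
          ← Real.exp_nat_mul]
        congr 2
        ring

end Pool.Agent.H47
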