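import Mathlib
import Pool.Agent.H47.Tuples

/-!
Union bounds over small sets and families of tuples.
-/

open Finset

namespace Pool.Agent.H47

variable {n : ℕ}

open Classical in
/-- generic union bound -/
lemma natCard_exists_le {α β : Type*} [Fintype α] (S : Finset β) (P : β → α → Prop) (b : ℝ)
    (h : ∀ u ∈ S, (Nat.card {a : α // P u a} : ℝ) ≤ b) :
    (Nat.card {a : α // ∃ u ∈ S, P u a} : ℝ) ≤ S.card * b := by
  have h1 : (Nat.card {a : α // ∃ u ∈ S, P u a} : ℝ)
      ≤ ∑ u ∈ S, (Nat.card {a : α // P u a} : ℝ) := by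
    rw [Nat.card_eq_fintype_card, Fintype.card_subtype]
    have h2 : (univ.filter (fun a : α => ∃ u ∈ S, P u a)) ⊆
        S.biUnion (fun u => univ.filter (fun a : α => P u a)) := by
      intro a ha
      rw [Finset.mem_filter] at ha
      obtain ⟨u, hu, hP⟩ := ha.2
      exact Finset.mem_biUnion.2 ⟨u, hu, Finset.mem_filter.2 ⟨Finset.mem_univ _, hP⟩⟩
    have h3 := le_trans (Finset.card_le_card h2) Finset.card_biUnion_le
    have h4 : ∀ u ∈ S, (Nat.card {a : α // P u a} : ℝ) = ((univ.filter (fun a : α => P u a)).card : ℝ) := by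
      intro u _
      rw [Nat.card_eq_fintype_card, Fintype.card_subtype]
    rw [Finset.sum_congr rfl h4]
    exact_mod_cast h3
  refine le_trans h1 ?_
  rw [← nsmul_eq_mul]
  exact Finset.sum_le_card_nsmul _ _ _ h

lemma natCard_mono {α : Type*} [Finite α] {P Q : α → Prop} (h : ∀ a, P a → Q a) :
    (Nat.card {a : α // P a} : ℝ) ≤ Nat.card {a : α // Q a} := by
  have : Nat.card {a : α // P a} ≤ Nat.card {a : α // Q a} :=
    Nat.card_le_card_of_injective (fun x => (⟨x.1, h x.1 x.2⟩ : {a : α // Q a}))
      (fun x y hxy => Subtype.ext (by simpa using hxy))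
  exact_mod_cast this

open Classical in
lemma natCard_or_le {α : Type*} [Fintype α] (P Q : α → Prop) :
    (Nat.card {a : α // P a ∨ Q a} : ℝ) ≤ Nat.card {a : α // P a} + Nat.card {a : α // Q a} := by
  rw [Nat.card_eq_fintype_card, Nat.card_eq_fintype_card, Nat.card_eq_fintype_card,
    Fintype.card_subtype, Fintype.card_subtype, Fintype.card_subtype]
  have h : (univ.filter (fun a : α => P a ∨ Q a)) ⊆
      univ.filter (fun a : α => P a) ∪ univ.filter (fun a : α => Q a) := by
    intro a ha
    rw [Finset.mem_filter] at ha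
    rw [Finset.mem_union, Finset.mem_filter, Finset.mem_filter]
    rcases ha.2 with h | h
    · exact Or.inl ⟨Finset.mem_univ _, h⟩
    · exact Or.inr ⟨Finset.mem_univ _, h⟩
  have := le_trans (Finset.card_le_card h) (Finset.card_union_le _ _)
  exact_mod_cast this

lemma card_small_sets (k : ℕ) :
    (univ.filter (fun U : Finset (Fin n) => U.card ≤ k)).card ≤ (n + 1) ^ k := by
  classical
  have hc : (n + 1) ^ k = (univ : Finset (Fin k → Option (Fin n))).card := by
    rw [Finset.card_univ, Fintype.card_fun, Fintype.card_option, Fintype.card_fin, Fintype.card_fin]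
  rw [hc]
  have hsub : univ.filter (fun U : Finset (Fin n) => U.card ≤ k) ⊆
      (univ : Finset (Fin k → Option (Fin n))).image
        (fun f => univ.filter (fun i => ∃ j, f j = some i)) := by
    intro U hU
    rw [Finset.mem_filter] at hU
    rw [Finset.mem_image]
    refine ⟨fun j => U.toList[(j : ℕ)]?, Finset.mem_univ _, ?_⟩
    ext i
    simp only [Finset.mem_filter, Finset.mem_univ, true_and]
    constructor
    · rintro ⟨j, hj⟩
      rw [← Finset.mem_toList]
      exact List.mem_of_getElem? hj
    · intro hi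
      rw [← Finset.mem_toList] at hi
      obtain ⟨m, hm⟩ := List.mem_iff_getElem?.1 hi
      have hmlt : m < U.toList.length := by
        by_contra hcon
        push Not at hcon
        rw [List.getElem?_eq_none hcon] at hm
        exact absurd hm (by simp)
      rw [Finset.length_toList] at hmlt
      exact ⟨⟨m, by omega⟩, hm⟩
  exact le_trans (Finset.card_le_card hsub) Finset.card_image_le

/-- there is a family of `m` disjoint bad tuples -/
def BadFam (η : ℝ) (m : ℕ) (A : Fin n × Fin n → Bool) : Prop :=
  ∃ u : Fin m → Finset (Fin n) × Bool, (∀ j, 1 ≤ (u j).1.card) ∧ (∀ j, (u j).1.card ≤ 512) ∧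
    (∀ j k, j ≠ k → Disjoint (u j).1 (u k).1) ∧ ∀ j, BadT η A (u j)

lemma card_badFam {η : ℝ} (hη0 : 0 < η) (hη : η ≤ 1/10000) (m : ℕ) :
    (Nat.card {A : Fin n × Fin n → Bool // BadFam η m A} : ℝ)
      ≤ (2 * ((n:ℝ) + 1) ^ 512) ^ m * (2 ^ (n * n) * Real.exp (- (η ^ 2 / 2) * (m * n))) := by
  classical
  let S : Finset (Fin m → Finset (Fin n) × Bool) :=
    Fintype.piFinset (fun _ => (univ.filter (fun U : Finset (Fin n) => U.card ≤ 512)) ×ˢ univ)
  have hScard : (S.card : ℝ) ≤ (2 * ((n:ℝ) + 1) ^ 512) ^ m := by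
    have h1 : S.card = (((univ.filter (fun U : Finset (Fin n) => U.card ≤ 512)) ×ˢ
        (univ : Finset Bool)).card) ^ m := by
      rw [Fintype.card_piFinset, Finset.prod_const, Finset.card_univ, Fintype.card_fin]
    rw [h1, Finset.card_product]
    push_cast
    apply pow_le_pow_left₀ (by positivity)
    have h2 : ((univ.filter (fun U : Finset (Fin n) => U.card ≤ 512)).card : ℝ)
        ≤ ((n:ℝ) + 1) ^ 512 := by
      exact_mod_cast card_small_sets (n := n) 512
    have h3 : ((univ : Finset Bool).card : ℝ) = 2 := by simp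
    rw [h3, mul_comm]
    exact mul_le_mul_of_nonneg_left h2 (by norm_num)
  let P : (Fin m → Finset (Fin n) × Bool) → (Fin n × Fin n → Bool) → Prop := fun u A =>
    (∀ j, 1 ≤ (u j).1.card) ∧ (∀ j, (u j).1.card ≤ 512) ∧
    (∀ j k, j ≠ k → Disjoint (u j).1 (u k).1) ∧ ∀ j, BadT η A (u j)
  have h1 : (Nat.card {A : Fin n × Fin n → Bool // BadFam η m A} : ℝ)
      ≤ Nat.card {A : Fin n × Fin n → Bool // ∃ u ∈ S, P u A} := by
    apply natCard_mono
    rintro A ⟨u, hu1, hu2, hu3, hu4⟩
    refine ⟨u, ?_, hu1, hu2, hu3, hu4⟩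
    rw [Fintype.mem_piFinset]
    intro j
    rw [Finset.mem_product, Finset.mem_filter]
    exact ⟨⟨Finset.mem_univ _, hu2 j⟩, Finset.mem_univ _⟩
  refine le_trans h1 ?_
  refine le_trans (natCard_exists_le S P (2 ^ (n * n) * Real.exp (- (η ^ 2 / 2) * (m * n))) ?_) ?_
  · intro u _
    by_cases hc : (∀ j, 1 ≤ (u j).1.card) ∧ (∀ j, (u j).1.card ≤ 512) ∧
        (∀ j k, j ≠ k → Disjoint (u j).1 (u k).1)
    · refine le_trans (natCard_mono (Q := fun A => ∀ j, BadT η A (u j)) ?_)
        (card_all_bad hη0 hη u hc.1 hc.2.1 hc.2.2)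
      intro A hA
      exact hA.2.2.2
    · have : IsEmpty {A : Fin n × Fin n → Bool // P u A} := by
        constructor
        rintro ⟨A, hA⟩
        exact hc ⟨hA.1, hA.2.1, hA.2.2.1⟩
      rw [Nat.card_of_isEmpty]
      push_cast
      positivity
  · exact mul_le_mul_of_nonneg_right hScard (by positivity)

/-- extraction of a large set without bad tuples -/
lemma exists_good_rows (η : ℝ) (A : Fin n × Fin n → Bool) (m : ℕ) :
    BadFam η (m + 1) A ∨ ∃ R : Finset (Fin n), Rᶜ.card ≤ 512 * m ∧
      ∀ T : Finset (Fin n) × Bool, 1 ≤ T.1.card → T.1.card ≤ 512 → T.1 ⊆ R → ¬ BadT η A T := by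
  classical
  induction m with
  | zero =>
    by_cases h : ∃ T : Finset (Fin n) × Bool, 1 ≤ T.1.card ∧ T.1.card ≤ 512 ∧ BadT η A T
    · left
      obtain ⟨T, h1, h2, h3⟩ := h
      refine ⟨fun _ => T, fun _ => h1, fun _ => h2, ?_, fun _ => h3⟩
      intro j k hjk
      exact absurd (Fin.ext (by omega)) hjk
    · right
      push Not at h
      refine ⟨univ, by simp, ?_⟩
      intro T h1 h2 _ h3
      exact h T h1 h2 h3
  | succ m ih =>
    rcases ih with ⟨u, hu1, hu2, hu3, hu4⟩ | ⟨R, hR1, hR2⟩
    · let B : Finset (Fin n) := univ.biUnion (fun j => (u j).1)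
      by_cases h : ∃ T : Finset (Fin n) × Bool, 1 ≤ T.1.card ∧ T.1.card ≤ 512 ∧ T.1 ⊆ Bᶜ ∧ BadT η A T
      · left
        obtain ⟨T, h1, h2, h3, h4⟩ := h
        have hdis : ∀ j, Disjoint T.1 (u j).1 := by
          intro j
          rw [Finset.disjoint_left]
          intro i hi hi'
          have := h3 hi
          rw [Finset.mem_compl] at this
          exact this (Finset.mem_biUnion.2 ⟨j, Finset.mem_univ _, hi'⟩)
        refine ⟨Fin.cons T u, ?_, ?_, ?_, ?_⟩
        · intro j
          refine Fin.cases ?_ (fun j => ?_) j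
          · exact h1
          · exact hu1 j
        · intro j
          refine Fin.cases ?_ (fun j => ?_) j
          · exact h2
          · exact hu2 j
        · intro j k
          refine Fin.cases ?_ (fun j => ?_) j
          · refine Fin.cases ?_ (fun k => ?_) k
            · intro h; exact absurd rfl h
            · intro _
              exact hdis k
          · refine Fin.cases ?_ (fun k => ?_) k
            · intro _
              exact (hdis j).symm
            · intro hjk
              exact hu3 j k (fun h => hjk (by rw [h]))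
        · intro j
          refine Fin.cases ?_ (fun j => ?_) j
          · exact h4
          · exact hu4 j
      · right
        push Not at h
        refine ⟨Bᶜ, ?_, ?_⟩
        · rw [compl_compl]
          refine le_trans Finset.card_biUnion_le ?_
          calc ∑ j : Fin (m + 1), (u j).1.card ≤ ∑ j : Fin (m + 1), 512 :=
                Finset.sum_le_sum (fun j _ => hu2 j)
            _ = 512 * (m + 1) := by
                rw [Finset.sum_const, Finset.card_univ, Fintype.card_fin, smul_eq_mul, mul_comm]
        · intro T h1 h2 h3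
          exact h T h1 h2 h3
    · right
      exact ⟨R, by omega, hR2⟩

end Pool.Agent.H47
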