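import Mathlib
import Pool.Agent.H47.Union

/-!
Large all-ones rectangles.
-/

open Finset

namespace Pool.Agent.H47

variable {n : ℕ}

/-- sets with at most `n / 100` elements -/
def smallSets (n : ℕ) : Finset (Finset (Fin n)) :=
  univ.filter (fun U : Finset (Fin n) => 100 * U.card ≤ n)

lemma exp_four : (50:ℝ) ≤ Real.exp 4 := by
  have h := Real.exp_one_gt_d9
  have h2 : Real.exp 4 = Real.exp 1 ^ 4 := by
    rw [← Real.exp_nat_mul]; norm_num
  rw [h2]
  calc (50:ℝ) ≤ 2.7 ^ 4 := by norm_num
    _ ≤ Real.exp 1 ^ 4 := pow_le_pow_left₀ (by norm_num) (by linarith) 4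

lemma card_smallSets : ((smallSets n).card : ℝ) ≤ Real.exp (6/100 * n) := by
  have h1 : ((smallSets n).card : ℝ)
      ≤ ∑ U : Finset (Fin n), Real.exp (n / 25) * Real.exp (-4) ^ U.card := by
    have h2 : ((smallSets n).card : ℝ) = ∑ U ∈ smallSets n, (1:ℝ) := by simp
    rw [h2]
    have h3 : ∑ U ∈ smallSets n, (1:ℝ) ≤ ∑ U ∈ smallSets n, Real.exp (n / 25) * Real.exp (-4) ^ U.card := by
      apply Finset.sum_le_sum
      intro U hU
      have hU' := (Finset.mem_filter.1 hU).2
      rw [← Real.exp_nat_mul, ← Real.exp_add]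
      apply Real.one_le_exp
      have : (100:ℝ) * U.card ≤ n := by exact_mod_cast hU'
      linarith
    refine le_trans h3 ?_
    apply Finset.sum_le_sum_of_subset_of_nonneg (Finset.filter_subset _ _)
    intro U _ _
    positivity
  refine le_trans h1 ?_
  rw [← Finset.mul_sum]
  have h4 : ∑ U : Finset (Fin n), Real.exp (-4) ^ U.card = (Real.exp (-4) + 1) ^ n := by
    have := Fintype.sum_pow_mul_eq_add_pow (Fin n) (Real.exp (-4)) (1:ℝ)
    simp only [one_pow, mul_one, Fintype.card_fin] at this
    exact this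
  rw [h4]
  have h5 : Real.exp (-4) ≤ 1/50 := by
    rw [Real.exp_neg, inv_eq_one_div]
    exact one_div_le_one_div_of_le (by norm_num) exp_four
  have h6 : Real.exp (-4) + 1 ≤ Real.exp (1/50) := by
    have := Real.add_one_le_exp (1/50 : ℝ)
    linarith
  calc Real.exp (n / 25) * (Real.exp (-4) + 1) ^ n
      ≤ Real.exp (n / 25) * Real.exp (1/50) ^ n := by
        apply mul_le_mul_of_nonneg_left _ (Real.exp_pos _).le
        exact pow_le_pow_left₀ (by positivity) h6 n
    _ = Real.exp (6/100 * n) := by
        rw [← Real.exp_nat_mul, ← Real.exp_add]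
        congr 1
        ring

/-- possible unions of `m` rectangles, each contributing many new cells -/
noncomputable def unions (n : ℕ) : ℕ → Finset (Finset (Fin n × Fin n))
  | 0 => {∅}
  | m + 1 => by
      classical
      exact ((unions n m ×ˢ (smallSets n ×ˢ smallSets n)).filter
        (fun p => (p.2.1.card * p.2.2.card ≤ 4 * n) ∧
          15/32 * (n:ℝ) < (((p.2.1 ×ˢ p.2.2) \ p.1).card : ℝ))).image
        (fun p => p.1 ∪ (p.2.1 ×ˢ p.2.2))

lemma unions_card_le (m : ℕ) : ((unions n m).card : ℝ) ≤ Real.exp (12/100 * n) ^ m := by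
  classical
  induction m with
  | zero => simp [unions]
  | succ m ih =>
    have h1 : (unions n (m + 1)).card ≤ (unions n m ×ˢ (smallSets n ×ˢ smallSets n)).card := by
      conv_lhs => unfold unions
      exact le_trans Finset.card_image_le (Finset.card_filter_le _ _)
    rw [Finset.card_product, Finset.card_product] at h1
    have h2 : ((unions n (m + 1)).card : ℝ)
        ≤ (unions n m).card * ((smallSets n).card * (smallSets n).card) := by exact_mod_cast h1
    have h3 : ((smallSets n).card : ℝ) * (smallSets n).card ≤ Real.exp (12/100 * n) := by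
      calc ((smallSets n).card : ℝ) * (smallSets n).card
          ≤ Real.exp (6/100 * n) * Real.exp (6/100 * n) :=
            mul_le_mul card_smallSets card_smallSets (Nat.cast_nonneg _) (Real.exp_pos _).le
        _ = Real.exp (12/100 * n) := by rw [← Real.exp_add]; congr 1; ring
    refine le_trans h2 ?_
    rw [pow_succ]
    apply mul_le_mul ih h3 (by positivity) (by positivity)

lemma unions_spec (m : ℕ) : ∀ W ∈ unions n m, 15/32 * (n:ℝ) * m ≤ (W.card : ℝ) ∧
    (W.card : ℝ) ≤ 4 * n * m := by
  classical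
  induction m with
  | zero =>
    intro W hW
    simp only [unions, Finset.mem_singleton] at hW
    subst hW
    simp
  | succ m ih =>
    intro W hW
    unfold unions at hW
    rw [Finset.mem_image] at hW
    obtain ⟨⟨W', U, V⟩, hp, rfl⟩ := hW
    rw [Finset.mem_filter, Finset.mem_product] at hp
    obtain ⟨⟨hW', _⟩, h1, h2⟩ := hp
    simp only at h1 h2 hW'
    obtain ⟨h3, h4⟩ := ih W' hW'
    have h5 : (W' ∪ U ×ˢ V).card = W'.card + ((U ×ˢ V) \ W').card := by
      rw [Finset.union_comm, ← Finset.card_sdiff_add_card, add_comm]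
    have h6 : ((U ×ˢ V) \ W').card ≤ 4 * n := by
      refine le_trans (Finset.card_le_card Finset.sdiff_subset) ?_
      rw [Finset.card_product]
      exact h1
    have h6r : ((((U ×ˢ V) \ W').card : ℕ) : ℝ) ≤ 4 * n := by exact_mod_cast h6
    simp only [h5]
    push_cast
    constructor
    · linarith
    · linarith

lemma card_all_ones (W : Finset (Fin n × Fin n)) :
    (Nat.card {A : Fin n × Fin n → Bool // ∀ z ∈ W, A z = true} : ℝ)
      = 2 ^ (n * n) * (1/2) ^ W.card := by
  classical
  have h := card_agree W (fun _ => true)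
  rw [Nat.card_eq_fintype_card, Fintype.card_subtype, h]
  simp

lemma half_pow_le (k : ℕ) (x : ℝ) (h : x ≤ k) : ((1:ℝ)/2) ^ k ≤ Real.exp (- (69/100 * x)) := by
  have h1 : ((1:ℝ)/2) = Real.exp (- Real.log 2) := by
    rw [Real.exp_neg, Real.exp_log (by norm_num)]; norm_num
  rw [h1, ← Real.exp_nat_mul]
  apply Real.exp_le_exp.2
  have h2 := Real.log_two_gt_d9
  have h3 : (0:ℝ) ≤ k := Nat.cast_nonneg k
  by_cases hx : 0 ≤ x
  · nlinarith
  · push Not at hx
    nlinarith

/-- there is a long chain of all-ones rectangles -/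
def RectFam (m : ℕ) (A : Fin n × Fin n → Bool) : Prop :=
  ∃ W ∈ unions n m, ∀ z ∈ W, A z = true

lemma card_rectFam (m : ℕ) :
    (Nat.card {A : Fin n × Fin n → Bool // RectFam m A} : ℝ)
      ≤ 2 ^ (n * n) * Real.exp (- (1/5 * (m * n))) := by
  have h1 := natCard_exists_le (unions n m) (fun W (A : Fin n × Fin n → Bool) => ∀ z ∈ W, A z = true)
    (2 ^ (n * n) * Real.exp (- (69/100 * (15/32 * (n:ℝ) * m)))) (by
      intro W hW
      rw [card_all_ones]
      apply mul_le_mul_of_nonneg_left _ (by positivity)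
      exact half_pow_le _ _ (unions_spec m W hW).1)
  refine le_trans h1 ?_
  have h2 := unions_card_le (n := n) m
  calc ((unions n m).card : ℝ) * (2 ^ (n * n) * Real.exp (- (69/100 * (15/32 * (n:ℝ) * m))))
      ≤ Real.exp (12/100 * n) ^ m * (2 ^ (n * n) * Real.exp (- (69/100 * (15/32 * (n:ℝ) * m)))) :=
        mul_le_mul_of_nonneg_right h2 (by positivity)
    _ = 2 ^ (n * n) * Real.exp (m * (12/100 * n) + - (69/100 * (15/32 * (n:ℝ) * m))) := by
        rw [← Real.exp_nat_mul, Real.exp_add]; ring
    _ ≤ 2 ^ (n * n) * Real.exp (- (1/5 * (m * n))) := by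
        apply mul_le_mul_of_nonneg_left _ (by positivity)
        apply Real.exp_le_exp.2
        have : (0:ℝ) ≤ m * n := by positivity
        nlinarith

/-- there is an all-ones rectangle of small sides and large area -/
def BigRect (A : Fin n × Fin n → Bool) : Prop :=
  ∃ p ∈ (smallSets n ×ˢ smallSets n).filter (fun p => 4 * n ≤ p.1.card * p.2.card),
    ∀ z ∈ p.1 ×ˢ p.2, A z = true

lemma card_bigRect :
    (Nat.card {A : Fin n × Fin n → Bool // BigRect A} : ℝ)
      ≤ 2 ^ (n * n) * Real.exp (- (2 * n)) := by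
  have h1 := natCard_exists_le
    ((smallSets n ×ˢ smallSets n).filter (fun p => 4 * n ≤ p.1.card * p.2.card))
    (fun p (A : Fin n × Fin n → Bool) => ∀ z ∈ p.1 ×ˢ p.2, A z = true)
    (2 ^ (n * n) * Real.exp (- (69/100 * (4 * (n:ℝ))))) (by
      intro p hp
      rw [card_all_ones]
      apply mul_le_mul_of_nonneg_left _ (by positivity)
      apply half_pow_le
      rw [Finset.card_product]
      have := (Finset.mem_filter.1 hp).2
      exact_mod_cast this)
  refine le_trans h1 ?_
  have h2 : (((smallSets n ×ˢ smallSets n).filter (fun p => 4 * n ≤ p.1.card * p.2.card)).card : ℝ)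
      ≤ Real.exp (12/100 * n) := by
    have h3 : ((smallSets n ×ˢ smallSets n).filter (fun p => 4 * n ≤ p.1.card * p.2.card)).card
        ≤ (smallSets n).card * (smallSets n).card := by
      rw [← Finset.card_product]
      exact Finset.card_filter_le _ _
    have h4 : (((smallSets n ×ˢ smallSets n).filter (fun p => 4 * n ≤ p.1.card * p.2.card)).card : ℝ)
        ≤ (smallSets n).card * (smallSets n).card := by exact_mod_cast h3
    refine le_trans h4 ?_
    calc ((smallSets n).card : ℝ) * (smallSets n).card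
          ≤ Real.exp (6/100 * n) * Real.exp (6/100 * n) :=
            mul_le_mul card_smallSets card_smallSets (Nat.cast_nonneg _) (Real.exp_pos _).le
        _ = Real.exp (12/100 * n) := by rw [← Real.exp_add]; congr 1; ring
  calc _ ≤ Real.exp (12/100 * n) * (2 ^ (n * n) * Real.exp (- (69/100 * (4 * (n:ℝ))))) :=
        mul_le_mul_of_nonneg_right h2 (by positivity)
    _ = 2 ^ (n * n) * Real.exp (12/100 * n + - (69/100 * (4 * (n:ℝ)))) := by
        rw [Real.exp_add]; ring
    _ ≤ _ := by
        apply mul_le_mul_of_nonneg_left _ (by positivity)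
        apply Real.exp_le_exp.2
        have : (0:ℝ) ≤ n := by positivity
        linarith

/-- extraction of the exceptional set of cells -/
lemma exists_W (A : Fin n × Fin n → Bool) (m : ℕ) :
    RectFam (m + 1) A ∨ ∃ W : Finset (Fin n × Fin n), (W.card : ℝ) ≤ 4 * m * n ∧
      ∀ U ∈ smallSets n, ∀ V ∈ smallSets n, U.card * V.card ≤ 4 * n →
        (∀ z ∈ U ×ˢ V, A z = true) → (((U ×ˢ V) \ W).card : ℝ) ≤ 15/32 * n := by
  classical
  have key : ∀ m : ℕ, RectFam m A → RectFam (m + 1) A ∨ ∃ W : Finset (Fin n × Fin n),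
      (W.card : ℝ) ≤ 4 * m * n ∧
      ∀ U ∈ smallSets n, ∀ V ∈ smallSets n, U.card * V.card ≤ 4 * n →
        (∀ z ∈ U ×ˢ V, A z = true) → (((U ×ˢ V) \ W).card : ℝ) ≤ 15/32 * n := by
    intro m hm
    obtain ⟨W, hW, hA⟩ := hm
    by_cases h : ∃ U ∈ smallSets n, ∃ V ∈ smallSets n, U.card * V.card ≤ 4 * n ∧
        (∀ z ∈ U ×ˢ V, A z = true) ∧ 15/32 * (n:ℝ) < (((U ×ˢ V) \ W).card : ℝ)
    · left
      obtain ⟨U, hU, V, hV, h1, h2, h3⟩ := h
      refine ⟨W ∪ (U ×ˢ V), ?_, ?_⟩
      · unfold unions
        rw [Finset.mem_image]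
        refine ⟨(W, U, V), ?_, rfl⟩
        rw [Finset.mem_filter, Finset.mem_product, Finset.mem_product]
        exact ⟨⟨hW, hU, hV⟩, h1, h3⟩
      · intro z hz
        rcases Finset.mem_union.1 hz with hz | hz
        · exact hA z hz
        · exact h2 z hz
    · right
      push Not at h
      refine ⟨W, ?_, ?_⟩
      · have := (unions_spec m W hW).2
        linarith
      · intro U hU V hV h1 h2
        exact h U hU V hV h1 h2
  induction m with
  | zero =>
    apply key 0
    refine ⟨∅, by simp [unions], by simp⟩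
  | succ m ih =>
    rcases ih with h | ⟨W, h1, h2⟩
    · exact key (m + 1) h
    · right
      refine ⟨W, ?_, h2⟩
      push_cast
      have : (0:ℝ) ≤ n := Nat.cast_nonneg n
      linarith

end Pool.Agent.H47
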