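import Mathlib
import Pool.Agent.H47.Union
import Pool.Agent.H47.Rects

/-!
Counting matrices whose columns (restricted to a set of rows) follow few patterns.
-/

open Finset

namespace Pool.Agent.H47

lemma card_agree' {ι : Type*} [Fintype ι] [DecidableEq ι] (W : Finset ι) (p : ι → Bool) :
    (Nat.card {f : ι → Bool // ∀ z ∈ W, f z = p z} : ℝ)
      = 2 ^ (Fintype.card ι) * (1/2) ^ W.card := by
  have h := card_agree W p
  rw [Nat.card_eq_fintype_card, Fintype.card_subtype, h]
  simp

lemma card_determined {ι : Type*} [Fintype ι] [DecidableEq ι] (W : Finset ι)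
    (P : (ι → Bool) → Prop)
    (h : ∀ A A', P A → P A' → (∀ z, z ∉ W → A z = A' z) → A = A') :
    (Nat.card {A : ι → Bool // P A} : ℝ) ≤ 2 ^ (Fintype.card ι) * (1/2) ^ W.card := by
  classical
  have h1 : Nat.card {A : ι → Bool // P A} ≤ Nat.card ({z : ι // z ∉ W} → Bool) := by
    apply Nat.card_le_card_of_injective (fun A => fun z : {z : ι // z ∉ W} => A.1 z.1)
    intro A A' hAA
    apply Subtype.ext
    apply h A.1 A'.1 A.2 A'.2
    intro z hz
    exact congrFun hAA ⟨z, hz⟩
  have h2 : Nat.card ({z : ι // z ∉ W} → Bool) = 2 ^ (Fintype.card ι - W.card) := by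
    rw [Nat.card_eq_fintype_card, Fintype.card_fun, Fintype.card_bool]
    congr 1
    rw [Fintype.card_subtype_compl, Fintype.card_coe]
  have h3 : W.card ≤ Fintype.card ι := Finset.card_le_univ W
  have h4 : (2:ℝ) ^ (Fintype.card ι) * (1/2) ^ W.card = 2 ^ (Fintype.card ι - W.card) := by
    obtain ⟨d, hd⟩ := Nat.exists_eq_add_of_le h3
    rw [hd, Nat.add_sub_cancel_left, pow_add, one_div, inv_pow]
    field_simp
  rw [h4]
  rw [h2] at h1
  exact_mod_cast h1

variable {n : ℕ}

/-- the set of rows with a one in column `c` -/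
def colS (A : Fin n × Fin n → Bool) (c : Fin n) : Finset (Fin n) :=
  univ.filter (fun i => A (i, c) = true)

lemma mem_colS {A : Fin n × Fin n → Bool} {i c : Fin n} : i ∈ colS A c ↔ A (i, c) = true := by
  simp [colS]

lemma bool_eq_decide_of_iff {x : Bool} {p : Prop} [Decidable p] (h : x = true ↔ p) :
    x = decide p := by
  cases x
  · symm; rw [decide_eq_false_iff_not]; intro hp; exact Bool.noConfusion (h.2 hp)
  · symm; rw [decide_eq_true_iff]; exact h.1 rfl

lemma card_col (S Z : Finset (Fin n)) (F : Finset (Finset (Fin n))) :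
    (Nat.card {A : Fin n × Fin n → Bool // ∀ c ∈ Z, colS A c ∩ S ∈ F} : ℝ)
      ≤ (F.card : ℝ) ^ Z.card * (2 ^ (n * n) * (1/2) ^ (S.card * Z.card)) := by
  classical
  let G : Finset (Fin n → Finset (Fin n)) :=
    Fintype.piFinset (fun c => if c ∈ Z then F else {∅})
  have hG : (G.card : ℝ) = (F.card : ℝ) ^ Z.card := by
    have : G.card = F.card ^ Z.card := by
      rw [Fintype.card_piFinset]
      have : ∀ c, (if c ∈ Z then F else ({∅} : Finset (Finset (Fin n)))).card
          = if c ∈ Z then F.card else 1 := by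
        intro c; split_ifs <;> simp
      rw [Finset.prod_congr rfl (fun c _ => this c), Finset.prod_ite_mem]
      simp
    exact_mod_cast this
  have h1 := natCard_exists_le G (fun g (A : Fin n × Fin n → Bool) =>
    ∀ z ∈ S ×ˢ Z, A z = decide (z.1 ∈ g z.2)) (2 ^ (n * n) * (1/2) ^ (S.card * Z.card)) (by
      intro g _
      have h := card_agree' (S ×ˢ Z) (fun z => decide (z.1 ∈ g z.2))
      rw [h, Finset.card_product, Fintype.card_prod, Fintype.card_fin])
  rw [hG] at h1
  refine le_trans (natCard_mono ?_) h1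
  intro A hA
  refine ⟨fun c => if c ∈ Z then colS A c ∩ S else ∅, ?_, ?_⟩
  · rw [Fintype.mem_piFinset]
    intro c
    by_cases hc : c ∈ Z
    · simp only [if_pos hc]; exact hA c hc
    · simp [hc]
  · rintro ⟨i, c⟩ hz
    rw [Finset.mem_product] at hz
    simp only at hz ⊢
    apply bool_eq_decide_of_iff
    rw [if_pos hz.2, Finset.mem_inter, mem_colS]
    exact ⟨fun h => ⟨h, hz.1⟩, fun h => h.1⟩

lemma card_rowcol (b : Fin n) (G : Finset (Finset (Fin n))) (S : Finset (Fin n)) (hb : b ∉ S)
    (F : Finset (Finset (Fin n))) :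
    (Nat.card {A : Fin n × Fin n → Bool // rowS A b ∈ G ∧ ∀ c, colS A c ∩ S ∈ F} : ℝ)
      ≤ (G.card : ℝ) * (F.card : ℝ) ^ n * (2 ^ (n * n) * (1/2) ^ (n + S.card * n)) := by
  classical
  let Q : Finset (Finset (Fin n) × (Fin n → Finset (Fin n))) :=
    G ×ˢ Fintype.piFinset (fun _ => F)
  have hQ : (Q.card : ℝ) = (G.card : ℝ) * (F.card : ℝ) ^ n := by
    have : Q.card = G.card * F.card ^ n := by
      rw [Finset.card_product, Fintype.card_piFinset]
      simp
    rw [this]; push_cast; ring
  have h1 := natCard_exists_le Q (fun g (A : Fin n × Fin n → Bool) =>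
    ∀ z ∈ (({b} : Finset (Fin n)) ×ˢ univ) ∪ (S ×ˢ univ),
      A z = if z.1 = b then decide (z.2 ∈ g.1) else decide (z.1 ∈ g.2 z.2))
    (2 ^ (n * n) * (1/2) ^ (n + S.card * n)) (by
      intro g _
      have h := card_agree' ((({b} : Finset (Fin n)) ×ˢ univ) ∪ (S ×ˢ univ))
        (fun z => if z.1 = b then decide (z.2 ∈ g.1) else decide (z.1 ∈ g.2 z.2))
      rw [h, Finset.card_union_of_disjoint, Finset.card_product, Finset.card_product,
        Fintype.card_prod, Fintype.card_fin]
      · simp
      · rw [Finset.disjoint_left]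
        rintro ⟨i, c⟩ h1 h2
        rw [Finset.mem_product] at h1 h2
        simp only [Finset.mem_singleton] at h1
        exact hb (h1.1 ▸ h2.1))
  rw [hQ] at h1
  refine le_trans (natCard_mono ?_) h1
  intro A hA
  refine ⟨(rowS A b, fun c => colS A c ∩ S), ?_, ?_⟩
  · rw [Finset.mem_product, Fintype.mem_piFinset]
    exact ⟨hA.1, hA.2⟩
  · rintro ⟨i, c⟩ hz
    rw [Finset.mem_union, Finset.mem_product, Finset.mem_product] at hz
    simp only [Finset.mem_singleton, Finset.mem_univ, and_true] at hz ⊢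
    rcases hz with hz | hz
    · subst hz
      rw [if_pos rfl]
      apply bool_eq_decide_of_iff
      rw [mem_rowS]
    · have hib : i ≠ b := fun h => hb (h ▸ hz)
      rw [if_neg hib]
      apply bool_eq_decide_of_iff
      rw [Finset.mem_inter, mem_colS]
      exact ⟨fun h => ⟨h, hz⟩, fun h => h.1⟩

lemma card_two_rows (b b' : Fin n) (hb : b ≠ b') (G : Finset (Finset (Fin n))) :
    (Nat.card {A : Fin n × Fin n → Bool // rowS A b ∈ G ∧ rowS A b' ∈ G} : ℝ)
      ≤ (G.card : ℝ) ^ 2 * (2 ^ (n * n) * (1/2) ^ (n + n)) := by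
  classical
  have h1 := natCard_exists_le (G ×ˢ G) (fun g (A : Fin n × Fin n → Bool) =>
    ∀ z ∈ (({b, b'} : Finset (Fin n)) ×ˢ univ),
      A z = if z.1 = b then decide (z.2 ∈ g.1) else decide (z.2 ∈ g.2))
    (2 ^ (n * n) * (1/2) ^ (n + n)) (by
      intro g _
      have h := card_agree' (({b, b'} : Finset (Fin n)) ×ˢ (univ : Finset (Fin n)))
        (fun z => if z.1 = b then decide (z.2 ∈ g.1) else decide (z.2 ∈ g.2))
      rw [h, Finset.card_product, Fintype.card_prod, Fintype.card_fin, Finset.card_pair hb,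
        Finset.card_univ, Fintype.card_fin, two_mul])
  rw [Finset.card_product] at h1
  have h2 : ((G.card * G.card : ℕ) : ℝ) = (G.card : ℝ) ^ 2 := by push_cast; ring
  rw [h2] at h1
  refine le_trans (natCard_mono ?_) h1
  intro A hA
  refine ⟨(rowS A b, rowS A b'), ?_, ?_⟩
  · rw [Finset.mem_product]; exact hA
  · rintro ⟨i, c⟩ hz
    rw [Finset.mem_product, Finset.mem_insert, Finset.mem_singleton] at hz
    simp only [Finset.mem_univ, and_true] at hz ⊢
    rcases hz with hz | hz
    · subst hz
      rw [if_pos rfl]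
      apply bool_eq_decide_of_iff
      rw [mem_rowS]
    · subst hz
      rw [if_neg hb.symm]
      apply bool_eq_decide_of_iff
      rw [mem_rowS]

/-- Pairs consisting of a small set of rows and a family of subsets of it. -/
def patFams (n C : ℕ) : Finset (Finset (Fin n) × Finset (Finset (Fin n))) :=
  (univ.filter (fun S : Finset (Fin n) => S.card ≤ C)).biUnion
    (fun S => ((S.powerset).powerset).image (fun F => (S, F)))

lemma mem_patFams {C : ℕ} {S : Finset (Fin n)} {F : Finset (Finset (Fin n))} :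
    (S, F) ∈ patFams n C ↔ S.card ≤ C ∧ ∀ T ∈ F, T ⊆ S := by
  unfold patFams
  rw [Finset.mem_biUnion]
  constructor
  · rintro ⟨S', hS', h⟩
    obtain ⟨F', hF', h2⟩ := Finset.mem_image.1 h
    have h3 : S' = S := congrArg Prod.fst h2
    have h4 : F' = F := congrArg Prod.snd h2
    subst h3 h4
    refine ⟨(Finset.mem_filter.1 hS').2, ?_⟩
    intro T hT
    exact Finset.mem_powerset.1 ((Finset.mem_powerset.1 hF') hT)
  · rintro ⟨h1, h2⟩
    refine ⟨S, Finset.mem_filter.2 ⟨Finset.mem_univ _, h1⟩, ?_⟩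
    rw [Finset.mem_image]
    refine ⟨F, ?_, rfl⟩
    rw [Finset.mem_powerset]
    intro T hT
    exact Finset.mem_powerset.2 (h2 T hT)

lemma card_patFams (C : ℕ) : (patFams n C).card ≤ (n + 1) ^ C * 2 ^ (2 ^ C) := by
  unfold patFams
  calc _ ≤ ∑ S ∈ univ.filter (fun S : Finset (Fin n) => S.card ≤ C),
        (((S.powerset).powerset).image (fun F => (S, F))).card := Finset.card_biUnion_le
    _ ≤ ∑ S ∈ univ.filter (fun S : Finset (Fin n) => S.card ≤ C), 2 ^ (2 ^ C) := by
        apply Finset.sum_le_sum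
        intro S hS
        refine le_trans Finset.card_image_le ?_
        rw [Finset.card_powerset, Finset.card_powerset]
        exact Nat.pow_le_pow_right (by norm_num)
          (Nat.pow_le_pow_right (by norm_num) (Finset.mem_filter.1 hS).2)
    _ = (univ.filter (fun S : Finset (Fin n) => S.card ≤ C)).card * 2 ^ (2 ^ C) := by
        rw [Finset.sum_const, smul_eq_mul]
    _ ≤ _ := Nat.mul_le_mul_right _ (card_small_sets C)

end Pool.Agent.H47
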