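import Mathlib
import Pool.Agent.H47.Pat
import Pool.Agent.H47.Det3

/-!
Deterministic analysis of covers by `n - 1` rectangles: one row is the union of other rows, or one
of a few unlikely events happens.
-/

open Finset

namespace Pool.Agent.H47

variable {n : ℕ}

/-- Row `b` is the union of some other rows. -/
def RowJoin (A : Fin n × Fin n → Bool) (b : Fin n) : Prop :=
  ∃ S : Finset (Fin n), b ∉ S ∧ ∀ c, A (b, c) = true ↔ ∃ i ∈ S, A (i, c) = true

/-- The family of unions of the sets `U t ∩ S`, `t ∈ T`. -/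
def unionFam {κ : Type*} [DecidableEq κ] (T : Finset κ) (U : κ → Finset (Fin n))
    (S : Finset (Fin n)) : Finset (Finset (Fin n)) :=
  T.powerset.image (fun Y => Y.biUnion (fun t => U t ∩ S))

lemma unionFam_sub {κ : Type*} [DecidableEq κ] {T : Finset κ} {U : κ → Finset (Fin n)}
    {S F : Finset (Fin n)} (h : F ∈ unionFam T U S) : F ⊆ S := by
  obtain ⟨Y, _, rfl⟩ := Finset.mem_image.1 h
  intro x hx
  obtain ⟨t, _, ht⟩ := Finset.mem_biUnion.1 hx
  exact (Finset.mem_inter.1 ht).2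

lemma colpat_mem {κ : Type*} [DecidableEq κ] {T : Finset κ} {U V : κ → Finset (Fin n)}
    {S : Finset (Fin n)} {A : Fin n × Fin n → Bool} {c : Fin n}
    (hcov : ∀ r ∈ S, A (r, c) = true ↔ ∃ t ∈ T, r ∈ U t ∧ c ∈ V t) :
    colS A c ∩ S ∈ unionFam T U S := by
  classical
  unfold unionFam
  rw [Finset.mem_image]
  refine ⟨T.filter (fun t => c ∈ V t), Finset.mem_powerset.2 (Finset.filter_subset _ _), ?_⟩
  ext r
  rw [Finset.mem_biUnion, Finset.mem_inter, mem_colS]
  constructor
  · rintro ⟨t, ht, hr⟩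
    rw [Finset.mem_filter] at ht
    rw [Finset.mem_inter] at hr
    exact ⟨(hcov r hr.2).2 ⟨t, ht.1, hr.1, ht.2⟩, hr.2⟩
  · rintro ⟨h1, h2⟩
    obtain ⟨t, ht, hrt, hct⟩ := (hcov r h2).1 h1
    exact ⟨t, Finset.mem_filter.2 ⟨ht, hct⟩, Finset.mem_inter.2 ⟨hrt, h2⟩⟩

lemma join_of_free {κ : Type*} [DecidableEq κ] {T : Finset κ} {U V : κ → Finset (Fin n)}
    {S : Finset (Fin n)} {A : Fin n × Fin n → Bool}
    (hcov : ∀ r ∈ S, ∀ c, A (r, c) = true ↔ ∃ t ∈ T, r ∈ U t ∧ c ∈ V t)
    (hcard : T.card < S.card)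
    (hinj : Set.InjOn (fun Y : Finset κ => Y.biUnion (fun t => U t ∩ S)) (T.powerset : Set (Finset κ))) :
    ∃ b, RowJoin A b := by
  classical
  have hpriv : ∀ t : κ, t ∈ T → ∃ r ∈ S, r ∈ U t ∧ ∀ t' ∈ T, r ∈ U t' → t' = t := by
    intro t ht
    by_contra hc
    push Not at hc
    have h1 : T.erase t = T := by
      apply hinj (Finset.mem_coe.2 (Finset.mem_powerset.2 (Finset.erase_subset _ _)))
        (Finset.mem_coe.2 (Finset.mem_powerset.2 (Finset.Subset.refl _)))
      simp only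
      apply Finset.Subset.antisymm
      · exact Finset.biUnion_subset_biUnion_of_subset_left _ (Finset.erase_subset _ _)
      · intro r hr
        obtain ⟨s, hs, hrs⟩ := Finset.mem_biUnion.1 hr
        rw [Finset.mem_inter] at hrs
        by_cases hst : s = t
        · subst hst
          obtain ⟨t', ht', hrt', hne⟩ := hc r hrs.2 hrs.1
          exact Finset.mem_biUnion.2 ⟨t', Finset.mem_erase.2 ⟨hne, ht'⟩,
            Finset.mem_inter.2 ⟨hrt', hrs.2⟩⟩
        · exact Finset.mem_biUnion.2 ⟨s, Finset.mem_erase.2 ⟨hst, hs⟩, Finset.mem_inter.2 hrs⟩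
    have h2 : t ∉ T.erase t := Finset.notMem_erase t T
    rw [h1] at h2
    exact h2 ht
  obtain ⟨b0, hb0⟩ : S.Nonempty := Finset.card_pos.1 (lt_of_le_of_lt (Nat.zero_le _) hcard)
  have hpriv' : ∀ t : κ, ∃ r, t ∈ T → (r ∈ S ∧ r ∈ U t ∧ ∀ t' ∈ T, r ∈ U t' → t' = t) := by
    intro t
    by_cases ht : t ∈ T
    · obtain ⟨r, hr⟩ := hpriv t ht
      exact ⟨r, fun _ => hr⟩
    · exact ⟨b0, fun h => absurd h ht⟩
  choose ρ hρ using hpriv'
  have hex : ∃ b ∈ S, b ∉ T.image ρ := by
    by_contra hc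
    push Not at hc
    have : S.card ≤ (T.image ρ).card := Finset.card_le_card (fun b hb => hc b hb)
    have h2 : (T.image ρ).card ≤ T.card := Finset.card_image_le
    omega
  obtain ⟨b, hbS, hb⟩ := hex
  refine ⟨b, (T.filter (fun t => b ∈ U t)).image ρ, ?_, ?_⟩
  · intro h
    exact hb (Finset.image_subset_image (Finset.filter_subset _ _) h)
  · intro c
    have key : ∀ t ∈ T, (A (ρ t, c) = true ↔ c ∈ V t) := by
      intro t ht
      rw [hcov (ρ t) (hρ t ht).1 c]
      constructor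
      · rintro ⟨t', ht', h1, h2⟩
        rw [(hρ t ht).2.2 t' ht' h1] at h2
        exact h2
      · intro h
        exact ⟨t, ht, (hρ t ht).2.1, h⟩
    rw [hcov b hbS c]
    constructor
    · rintro ⟨t, ht, hbt, hct⟩
      refine ⟨ρ t, Finset.mem_image.2 ⟨t, Finset.mem_filter.2 ⟨ht, hbt⟩, rfl⟩, ?_⟩
      exact (key t ht).2 hct
    · rintro ⟨i, hi, hA⟩
      obtain ⟨t, ht, rfl⟩ := Finset.mem_image.1 hi
      rw [Finset.mem_filter] at ht
      exact ⟨t, ht.1, ht.2, (key t ht.1).1 hA⟩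

lemma unionFam_sq {κ : Type*} [DecidableEq κ] {T : Finset κ} {U : κ → Finset (Fin n)}
    {S : Finset (Fin n)} (hcard : T.card = S.card) :
    4 * (unionFam T U S).card ≤ 3 * 2 ^ S.card ∨
    ((∀ t ∈ T, ∃ r ∈ S, U t ∩ S = {r}) ∧
      ∀ r ∈ S, ∀ t ∈ T, ∀ t' ∈ T, r ∈ U t → r ∈ U t' → t = t') := by
  classical
  by_cases h2 : ∃ r ∈ S, ∃ t ∈ T, ∃ t' ∈ T, r ∈ U t ∧ r ∈ U t' ∧ t ≠ t'
  · left
    obtain ⟨r, hr, t, ht, t', ht', hrt, hrt', hne⟩ := h2
    have hsub : unionFam T U S ⊆ (S.erase r).powerset.image (fun F => insert r F) ∪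
        ((T.erase t).erase t').powerset.image (fun Y => Y.biUnion (fun t => U t ∩ S)) := by
      intro F hF
      have hFS := unionFam_sub hF
      obtain ⟨Y, hY, rfl⟩ := Finset.mem_image.1 hF
      rw [Finset.mem_powerset] at hY
      rw [Finset.mem_union]
      by_cases hrF : r ∈ Y.biUnion (fun t => U t ∩ S)
      · left
        rw [Finset.mem_image]
        refine ⟨(Y.biUnion (fun t => U t ∩ S)).erase r, ?_, Finset.insert_erase hrF⟩
        rw [Finset.mem_powerset]
        exact Finset.erase_subset_erase r hFS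
      · right
        rw [Finset.mem_image]
        refine ⟨Y, ?_, rfl⟩
        rw [Finset.mem_powerset]
        intro s hs
        rw [Finset.mem_erase, Finset.mem_erase]
        refine ⟨?_, ?_, hY hs⟩
        · rintro rfl
          exact hrF (Finset.mem_biUnion.2 ⟨s, hs, Finset.mem_inter.2 ⟨hrt', hr⟩⟩)
        · rintro rfl
          exact hrF (Finset.mem_biUnion.2 ⟨s, hs, Finset.mem_inter.2 ⟨hrt, hr⟩⟩)
    have hc := le_trans (Finset.card_le_card hsub) (Finset.card_union_le _ _)
    have hc1 : ((S.erase r).powerset.image (fun F => insert r F)).card ≤ 2 ^ (S.card - 1) := by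
      refine le_trans Finset.card_image_le ?_
      rw [Finset.card_powerset, Finset.card_erase_of_mem hr]
    have hc2 : (((T.erase t).erase t').powerset.image
        (fun Y => Y.biUnion (fun t => U t ∩ S))).card ≤ 2 ^ (S.card - 2) := by
      refine le_trans Finset.card_image_le ?_
      rw [Finset.card_powerset, Finset.card_erase_of_mem
        (Finset.mem_erase.2 ⟨hne.symm, ht'⟩), Finset.card_erase_of_mem ht, hcard]
      exact le_of_eq (by congr 1)
    have hS2 : 2 ≤ S.card := by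
      rw [← hcard]
      have : ({t, t'} : Finset κ).card ≤ T.card := Finset.card_le_card (by
        intro x hx
        rw [Finset.mem_insert, Finset.mem_singleton] at hx
        rcases hx with rfl | rfl <;> assumption)
      rwa [Finset.card_pair hne] at this
    obtain ⟨d, hd⟩ := Nat.exists_eq_add_of_le hS2
    rw [hd] at hc1 hc2 ⊢
    have e1 : 2 + d - 1 = d + 1 := by omega
    have e2 : 2 + d - 2 = d := by omega
    rw [e1] at hc1
    rw [e2] at hc2
    have : 2 ^ (2 + d) = 4 * 2 ^ d := by rw [pow_add]; norm_num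
    rw [this]
    rw [pow_succ] at hc1
    omega
  push Not at h2
  by_cases h0 : ∃ r ∈ S, ∀ t ∈ T, r ∉ U t
  · left
    obtain ⟨r, hr, h⟩ := h0
    have hsub : unionFam T U S ⊆ (S.erase r).powerset := by
      intro F hF
      have hFS := unionFam_sub hF
      obtain ⟨Y, hY, rfl⟩ := Finset.mem_image.1 hF
      rw [Finset.mem_powerset] at hY ⊢
      intro x hx
      rw [Finset.mem_erase]
      refine ⟨?_, hFS hx⟩
      rintro rfl
      obtain ⟨t, ht, hxt⟩ := Finset.mem_biUnion.1 hx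
      exact h t (hY ht) (Finset.mem_inter.1 hxt).1
    have hc := Finset.card_le_card hsub
    rw [Finset.card_powerset, Finset.card_erase_of_mem hr] at hc
    have hS1 : 1 ≤ S.card := Finset.card_pos.2 ⟨r, hr⟩
    obtain ⟨d, hd⟩ := Nat.exists_eq_add_of_le hS1
    rw [hd] at hc ⊢
    have e1 : 1 + d - 1 = d := by omega
    rw [e1] at hc
    have : 2 ^ (1 + d) = 2 * 2 ^ d := by rw [pow_add]; norm_num
    rw [this]
    omega
  by_cases h1 : ∃ t ∈ T, U t ∩ S = ∅
  · left
    obtain ⟨t, ht, h⟩ := h1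
    have hsub : unionFam T U S ⊆ (T.erase t).powerset.image (fun Y => Y.biUnion (fun t => U t ∩ S)) := by
      intro F hF
      obtain ⟨Y, hY, rfl⟩ := Finset.mem_image.1 hF
      rw [Finset.mem_powerset] at hY
      rw [Finset.mem_image]
      refine ⟨Y.erase t, Finset.mem_powerset.2 (Finset.erase_subset_erase t hY), ?_⟩
      apply Finset.Subset.antisymm
      · exact Finset.biUnion_subset_biUnion_of_subset_left _ (Finset.erase_subset _ _)
      · intro x hx
        obtain ⟨s, hs, hxs⟩ := Finset.mem_biUnion.1 hx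
        refine Finset.mem_biUnion.2 ⟨s, Finset.mem_erase.2 ⟨?_, hs⟩, hxs⟩
        rintro rfl
        rw [h] at hxs
        exact absurd hxs (Finset.notMem_empty _)
    have hc := le_trans (Finset.card_le_card hsub) Finset.card_image_le
    rw [Finset.card_powerset, Finset.card_erase_of_mem ht, hcard] at hc
    have hS1 : 1 ≤ S.card := by rw [← hcard]; exact Finset.card_pos.2 ⟨t, ht⟩
    obtain ⟨d, hd⟩ := Nat.exists_eq_add_of_le hS1
    rw [hd] at hc ⊢
    have e1 : 1 + d - 1 = d := by omega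
    rw [e1] at hc
    have : 2 ^ (1 + d) = 2 * 2 ^ d := by rw [pow_add]; norm_num
    rw [this]
    omega
  right
  push Not at h0 h1
  have huniq : ∀ r ∈ S, ∀ t ∈ T, ∀ t' ∈ T, r ∈ U t → r ∈ U t' → t = t' := by
    intro r hr t ht t' ht' hrt hrt'
    exact h2 r hr t ht t' ht' hrt hrt'
  refine ⟨?_, huniq⟩
  -- map S → T
  rcases Finset.eq_empty_or_nonempty T with hT | ⟨t0, ht0⟩
  · intro t ht
    rw [hT] at ht
    exact absurd ht (Finset.notMem_empty _)
  have hf : ∀ r : Fin n, ∃ t, r ∈ S → (t ∈ T ∧ r ∈ U t) := by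
    intro r
    by_cases hr : r ∈ S
    · obtain ⟨t, ht, hrt⟩ := h0 r hr
      exact ⟨t, fun _ => ⟨ht, hrt⟩⟩
    · exact ⟨t0, fun h => absurd h hr⟩
  choose f hf using hf
  have himg : S.image f = T := by
    apply Finset.Subset.antisymm
    · intro t ht
      obtain ⟨r, hr, rfl⟩ := Finset.mem_image.1 ht
      exact (hf r hr).1
    · intro t ht
      obtain ⟨r, hr⟩ := h1 t ht
      rw [Finset.mem_inter] at hr
      refine Finset.mem_image.2 ⟨r, hr.2, ?_⟩
      exact huniq r hr.2 (f r) (hf r hr.2).1 t ht (hf r hr.2).2 hr.1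
  have hinj : Set.InjOn f S := by
    rw [← Finset.card_image_iff, himg, hcard]
  intro t ht
  obtain ⟨r, hr⟩ := h1 t ht
  have hr' := Finset.mem_inter.1 hr
  refine ⟨r, hr'.2, ?_⟩
  ext x
  rw [Finset.mem_singleton]
  constructor
  · intro hx
    rw [Finset.mem_inter] at hx
    apply hinj hx.2 hr'.2
    rw [huniq x hx.2 (f x) (hf x hx.2).1 t ht (hf x hx.2).2 hx.1,
      huniq r hr'.2 (f r) (hf r hr'.2).1 t ht (hf r hr'.2).2 hr'.1]
  · rintro rfl
    exact hr

end Pool.Agent.H47
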