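import Mathlib
import Pool.Agent.H47.Join

/-!
The dichotomy: union row, or an unlikely event.
-/

open Finset

namespace Pool.Agent.H47

variable {n : ℕ}

/-- The columns restricted to a bounded set `S` of rows take fewer than `2^(|S|-1)` values. -/
def PatEvt (C : ℕ) (A : Fin n × Fin n → Bool) : Prop :=
  ∃ (S : Finset (Fin n)) (F : Finset (Finset (Fin n))), S.card ≤ C ∧ (∀ T ∈ F, T ⊆ S) ∧
    1 ≤ S.card ∧ F.card + 1 ≤ 2 ^ (S.card - 1) ∧ ∀ c, colS A c ∩ S ∈ F

/-- There is a strip of `q` rows and many columns with few column values. -/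
def StripEvt (q H : ℕ) (A : Fin n × Fin n → Bool) : Prop :=
  ∃ (S : Finset (Fin n)) (F : Finset (Finset (Fin n))), S.card = q ∧ (∀ T ∈ F, T ⊆ S) ∧
    F.card ≤ 2 ^ H ∧ ∃ Z : Finset (Fin n), n < 100 * Z.card ∧ ∀ c ∈ Z, colS A c ∩ S ∈ F

/-- Two rows have few zeros. -/
def TwoLow (A : Fin n × Fin n → Bool) : Prop :=
  ∃ b b' : Fin n, b ≠ b' ∧ (rowS A b)ᶜ ∈ smallSets n ∧ (rowS A b')ᶜ ∈ smallSets n

/-- One row has few zeros, and the columns restricted to a bounded set of other rows take at most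
three quarters of all values. -/
def LowPat (C : ℕ) (A : Fin n × Fin n → Bool) : Prop :=
  ∃ b : Fin n, (rowS A b)ᶜ ∈ smallSets n ∧ ∃ (S : Finset (Fin n)) (F : Finset (Finset (Fin n))),
    S.card ≤ C ∧ (∀ T ∈ F, T ⊆ S) ∧ b ∉ S ∧ 4 * F.card ≤ 3 * 2 ^ S.card ∧
    ∀ c, colS A c ∩ S ∈ F

lemma card_unionFam_le {κ : Type*} [DecidableEq κ] (T : Finset κ) (U : κ → Finset (Fin n))
    (S : Finset (Fin n)) : (unionFam T U S).card ≤ 2 ^ T.card := by
  unfold unionFam
  refine le_trans Finset.card_image_le ?_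
  rw [Finset.card_powerset]

theorem join_or_events {k H q : ℕ} (hk : k + 1 = n) (hn2 : 2 ≤ n) {A : Fin n × Fin n → Bool}
    {U V : Fin k → Finset (Fin n)} (hcov : Covers A U V) (E : Finset (Fin n)) (hE : E.card ≤ H)
    (hτ : ∀ i, i ∉ E → ∃ t, U t ∩ Eᶜ = {i}) :
    PatEvt (H + H * q) A ∨ StripEvt q H A ∨ TwoLow A ∨ LowPat (H + H * q + 2) A ∨
      ∃ b, RowJoin A b := by
  classical
  haveI : Nonempty (Fin k) := ⟨⟨0, by omega⟩⟩
  have hτ2 : ∀ i, ∃ t, i ∉ E → U t ∩ Eᶜ = {i} := by
    intro i
    by_cases hi : i ∉ E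
    · obtain ⟨t, ht⟩ := hτ i hi
      exact ⟨t, fun _ => ht⟩
    · exact ⟨Classical.arbitrary _, fun h => absurd h hi⟩
  choose τ hτ' using hτ2
  have hτmem : ∀ i, i ∉ E → i ∈ U (τ i) := by
    intro i hi
    have : i ∈ U (τ i) ∩ Eᶜ := by rw [hτ' i hi]; exact Finset.mem_singleton_self i
    exact (Finset.mem_inter.1 this).1
  have hτuniq : ∀ i, i ∉ E → ∀ j, j ∉ E → j ∈ U (τ i) → j = i := by
    intro i hi j hj hji
    have : j ∈ U (τ i) ∩ Eᶜ := Finset.mem_inter.2 ⟨hji, Finset.mem_compl.2 hj⟩
    rw [hτ' i hi, Finset.mem_singleton] at this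
    exact this
  have τinj : Set.InjOn τ (Eᶜ : Finset (Fin n)) := by
    intro i hi j hj hij
    rw [Finset.mem_coe, Finset.mem_compl] at hi hj
    have h1 : i ∈ U (τ j) := by rw [← hij]; exact hτmem i hi
    exact hτuniq j hj i hi h1
  set G : Finset (Fin k) := univ \ Eᶜ.image τ with hG
  have himg : (Eᶜ.image τ).card = n - E.card := by
    rw [Finset.card_image_of_injOn τinj, Finset.card_compl, Fintype.card_fin]
  have hElen : E.card ≤ n := by
    have := Finset.card_le_univ E; rwa [Fintype.card_fin] at this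
  have himgle : (Eᶜ.image τ).card ≤ k := by
    have := Finset.card_le_univ (Eᶜ.image τ); rwa [Fintype.card_fin] at this
  have hGcard : G.card + 1 = E.card := by
    rw [hG, Finset.card_sdiff_of_subset (Finset.subset_univ _), Finset.card_univ, Fintype.card_fin]
    omega
  have hsplit : ∀ t, t ∈ G ∨ ∃ i, i ∉ E ∧ τ i = t := by
    intro t
    by_cases ht : t ∈ Eᶜ.image τ
    · right
      obtain ⟨i, hi, rfl⟩ := Finset.mem_image.1 ht
      exact ⟨i, Finset.mem_compl.1 hi, rfl⟩
    · left
      rw [hG, Finset.mem_sdiff]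
      exact ⟨Finset.mem_univ _, ht⟩
  by_cases hS1 : StripEvt q H A
  · exact Or.inr (Or.inl hS1)
  by_cases hL1 : LowPat (H + H * q + 2) A
  · exact Or.inr (Or.inr (Or.inr (Or.inl hL1)))
  by_cases hT1 : TwoLow A
  · exact Or.inr (Or.inr (Or.inl hT1))
  have hIb : ∀ b ∈ E, n < 100 * ((rowS A b)ᶜ).card →
      (Eᶜ.filter (fun i => b ∈ U (τ i))).card ≤ q := by
    intro b hb hZ
    by_contra hc
    push Not at hc
    obtain ⟨J, hJ1, hJ2⟩ := Finset.exists_subset_card_eq hc.le
    apply hS1
    refine ⟨J, unionFam G U J, hJ2, fun T hT => unionFam_sub hT, ?_, (rowS A b)ᶜ, hZ, ?_⟩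
    · refine le_trans (card_unionFam_le _ _ _) (Nat.pow_le_pow_right (by norm_num) ?_)
      omega
    · intro c hc
      rw [Finset.mem_compl, mem_rowS] at hc
      apply colpat_mem (V := V)
      intro r hr
      have hr1 := Finset.mem_filter.1 (hJ1 hr)
      have hrE := Finset.mem_compl.1 hr1.1
      constructor
      · intro hA
        obtain ⟨t, hrt, hct⟩ := (hcov r c).1 hA
        rcases hsplit t with ht | ⟨i, hi, rfl⟩
        · exact ⟨t, ht, hrt, hct⟩
        · exfalso
          have := hτuniq i hi r hrE hrt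
          subst this
          exact hc ((hcov b c).2 ⟨τ r, hr1.2, hct⟩)
      · rintro ⟨t, _, hrt, hct⟩
        exact (hcov r c).2 ⟨t, hrt, hct⟩
  -- general substructure
  have hgen : ∀ E0 : Finset (Fin n), E0 ⊆ E →
      (∀ b ∈ E0, (Eᶜ.filter (fun i => b ∈ U (τ i))).card ≤ q) →
      (Eᶜ.filter (fun i => ∃ b ∈ E0, b ∈ U (τ i))).card ≤ H * q ∧
      (E0 ∪ Eᶜ.filter (fun i => ∃ b ∈ E0, b ∈ U (τ i))).card
        = E0.card + (Eᶜ.filter (fun i => ∃ b ∈ E0, b ∈ U (τ i))).card ∧
      ((Eᶜ.filter (fun i => ∃ b ∈ E0, b ∈ U (τ i))).image τ ∪ G).card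
        = (Eᶜ.filter (fun i => ∃ b ∈ E0, b ∈ U (τ i))).card + G.card ∧
      ∀ r ∈ E0 ∪ Eᶜ.filter (fun i => ∃ b ∈ E0, b ∈ U (τ i)), ∀ c,
        (A (r, c) = true ↔ ∃ t ∈ (Eᶜ.filter (fun i => ∃ b ∈ E0, b ∈ U (τ i))).image τ ∪ G,
          r ∈ U t ∧ c ∈ V t) := by
    intro E0 hE0 hq
    refine ⟨?_, ?_, ?_, ?_⟩
    · have h1 : Eᶜ.filter (fun i => ∃ b ∈ E0, b ∈ U (τ i))
          ⊆ E0.biUnion (fun b => Eᶜ.filter (fun i => b ∈ U (τ i))) := by
        intro i hi
        obtain ⟨hi1, b, hb, hbi⟩ := Finset.mem_filter.1 hi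
        exact Finset.mem_biUnion.2 ⟨b, hb, Finset.mem_filter.2 ⟨hi1, hbi⟩⟩
      calc _ ≤ _ := Finset.card_le_card h1
        _ ≤ ∑ b ∈ E0, (Eᶜ.filter (fun i => b ∈ U (τ i))).card := Finset.card_biUnion_le
        _ ≤ ∑ b ∈ E0, q := Finset.sum_le_sum hq
        _ = E0.card * q := by rw [Finset.sum_const, smul_eq_mul]
        _ ≤ H * q := Nat.mul_le_mul_right _ (le_trans (Finset.card_le_card hE0) hE)
    · apply Finset.card_union_of_disjoint
      rw [Finset.disjoint_left]
      intro i hi h2
      exact Finset.mem_compl.1 (Finset.mem_filter.1 h2).1 (hE0 hi)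
    · rw [Finset.card_union_of_disjoint, Finset.card_image_of_injOn]
      · intro i hi j hj hij
        exact τinj (Finset.mem_coe.2 (Finset.mem_filter.1 (Finset.mem_coe.1 hi)).1)
          (Finset.mem_coe.2 (Finset.mem_filter.1 (Finset.mem_coe.1 hj)).1) hij
      · rw [Finset.disjoint_left]
        intro t ht h2
        rw [hG, Finset.mem_sdiff] at h2
        exact h2.2 (Finset.image_subset_image (Finset.filter_subset _ _) ht)
    · intro r hr c
      constructor
      · intro hA
        obtain ⟨t, hrt, hct⟩ := (hcov r c).1 hA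
        rcases hsplit t with ht | ⟨i, hi, rfl⟩
        · exact ⟨t, Finset.mem_union_right _ ht, hrt, hct⟩
        · refine ⟨τ i, Finset.mem_union_left _ (Finset.mem_image.2 ⟨i, ?_, rfl⟩), hrt, hct⟩
          rcases Finset.mem_union.1 hr with hr | hr
          · exact Finset.mem_filter.2 ⟨Finset.mem_compl.2 hi, r, hr, hrt⟩
          · have hrE := Finset.mem_compl.1 (Finset.mem_filter.1 hr).1
            have := hτuniq i hi r hrE hrt
            subst this
            exact hr
      · rintro ⟨t, _, hrt, hct⟩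
        exact (hcov r c).2 ⟨t, hrt, hct⟩
  by_cases hlow : ∃ b ∈ E, ¬ (n < 100 * ((rowS A b)ᶜ).card)
  · -- one row with few zeros
    obtain ⟨b0, hb0, hb0Z⟩ := hlow
    push Not at hb0Z
    have hb0s : (rowS A b0)ᶜ ∈ smallSets n := Finset.mem_filter.2 ⟨Finset.mem_univ _, hb0Z⟩
    have hoth : ∀ b ∈ E.erase b0, n < 100 * ((rowS A b)ᶜ).card := by
      intro b hb
      by_contra hc
      push Not at hc
      exact hT1 ⟨b, b0, Finset.ne_of_mem_erase hb, Finset.mem_filter.2 ⟨Finset.mem_univ _, hc⟩, hb0s⟩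
    obtain ⟨g1, g2, g3, g4⟩ := hgen (E.erase b0) (Finset.erase_subset _ _)
      (fun b hb => hIb b (Finset.mem_of_mem_erase hb) (hoth b hb))
    set I := Eᶜ.filter (fun i => ∃ b ∈ E.erase b0, b ∈ U (τ i)) with hI
    have hE0 : (E.erase b0).card = G.card := by
      rw [Finset.card_erase_of_mem hb0]; omega
    have hTS : (I.image τ ∪ G).card = (E.erase b0 ∪ I).card := by omega
    have hSle : (E.erase b0 ∪ I).card ≤ H + H * q + 2 := by omega
    have hb0S : b0 ∉ E.erase b0 ∪ I := by
      rw [Finset.mem_union]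
      rintro (h | h)
      · exact Finset.notMem_erase b0 E h
      · exact Finset.mem_compl.1 (Finset.mem_filter.1 h).1 hb0
    rcases unionFam_sq (U := U) hTS with h | ⟨hsing, huniq⟩
    · exfalso
      apply hL1
      exact ⟨b0, hb0s, E.erase b0 ∪ I, unionFam (I.image τ ∪ G) U (E.erase b0 ∪ I), hSle,
        fun T hT => unionFam_sub hT, hb0S, h, fun c => colpat_mem (fun r hr => g4 r hr c)⟩
    have hIe : I = ∅ := by
      rw [Finset.eq_empty_iff_forall_notMem]
      intro i hi
      obtain ⟨hiE, b, hb, hbi⟩ := Finset.mem_filter.1 hi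
      obtain ⟨r, _, hr⟩ := hsing (τ i) (Finset.mem_union_left _ (Finset.mem_image_of_mem τ hi))
      have h1 : i ∈ U (τ i) ∩ (E.erase b0 ∪ I) :=
        Finset.mem_inter.2 ⟨hτmem i (Finset.mem_compl.1 hiE), Finset.mem_union_right _ hi⟩
      have h2 : b ∈ U (τ i) ∩ (E.erase b0 ∪ I) :=
        Finset.mem_inter.2 ⟨hbi, Finset.mem_union_left _ hb⟩
      rw [hr, Finset.mem_singleton] at h1 h2
      rw [h1, ← h2] at hiE
      exact Finset.mem_compl.1 hiE (Finset.mem_of_mem_erase hb)
    have hrow : ∀ t ∈ G, ∃ r, r ∈ E.erase b0 ∧ r ∈ U t ∧ ∀ c, (A (r, c) = true ↔ c ∈ V t) := by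
      intro t ht
      have htT : t ∈ I.image τ ∪ G := Finset.mem_union_right _ ht
      obtain ⟨r, hrS, hr⟩ := hsing t htT
      have hrU : r ∈ U t := by
        have : r ∈ U t ∩ (E.erase b0 ∪ I) := by rw [hr]; exact Finset.mem_singleton_self r
        exact (Finset.mem_inter.1 this).1
      have hrE : r ∈ E.erase b0 := by
        rcases Finset.mem_union.1 hrS with h | h
        · exact h
        · rw [hIe] at h; exact absurd h (Finset.notMem_empty _)
      refine ⟨r, hrE, hrU, ?_⟩
      intro c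
      rw [g4 r hrS c]
      constructor
      · rintro ⟨t', ht', hrt', hct'⟩
        rw [huniq r hrS t htT t' ht' hrU hrt']
        exact hct'
      · intro h
        exact ⟨t, htT, hrU, h⟩
    have hclaim : ∀ t ∈ G, ∀ i, i ∉ E → i ∉ U t := by
      intro t ht i hi hit
      obtain ⟨r, hrE, hrU, hr⟩ := hrow t ht
      have hir : i ≠ r := fun h => hi (h ▸ Finset.mem_of_mem_erase hrE)
      apply hL1
      refine ⟨b0, hb0s, {i, r}, {∅, {i}, {i, r}}, ?_, ?_, ?_, ?_, ?_⟩
      · rw [Finset.card_pair hir]; omega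
      · intro T hT
        rw [Finset.mem_insert, Finset.mem_insert, Finset.mem_singleton] at hT
        rcases hT with rfl | rfl | rfl
        · exact Finset.empty_subset _
        · intro x hx; rw [Finset.mem_singleton] at hx; rw [hx]; exact Finset.mem_insert_self _ _
        · exact Finset.Subset.refl _
      · rw [Finset.mem_insert, Finset.mem_singleton]
        rintro (h | h)
        · exact hi (h ▸ hb0)
        · exact Finset.ne_of_mem_erase hrE h.symm
      · rw [Finset.card_pair hir]
        have : ({∅, {i}, {i, r}} : Finset (Finset (Fin n))).card ≤ 3 := Finset.card_le_three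
        omega
      · intro c
        rw [Finset.mem_insert, Finset.mem_insert, Finset.mem_singleton]
        by_cases hA : A (r, c) = true
        · have hAi : A (i, c) = true := (hcov i c).2 ⟨t, hit, (hr c).1 hA⟩
          right; right
          rw [Finset.inter_eq_right]
          intro x hx
          rw [Finset.mem_insert, Finset.mem_singleton] at hx
          rw [mem_colS]
          rcases hx with rfl | rfl <;> assumption
        · by_cases hAi : A (i, c) = true
          · right; left
            ext x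
            rw [Finset.mem_inter, Finset.mem_insert, Finset.mem_singleton, Finset.mem_singleton,
              mem_colS]
            constructor
            · rintro ⟨h1, rfl | rfl⟩
              · rfl
              · exact absurd h1 hA
            · rintro rfl
              exact ⟨hAi, Or.inl rfl⟩
          · left
            rw [Finset.eq_empty_iff_forall_notMem]
            intro x hx
            rw [Finset.mem_inter, Finset.mem_insert, Finset.mem_singleton, mem_colS] at hx
            rcases hx with ⟨h1, rfl | rfl⟩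
            · exact hAi h1
            · exact hA h1
    have hρ : ∀ t, ∃ r, r ≠ b0 ∧ ∀ c, (A (r, c) = true ↔ c ∈ V t) := by
      intro t
      rcases hsplit t with ht | ⟨i, hi, rfl⟩
      · obtain ⟨r, hrE, _, hr⟩ := hrow t ht
        exact ⟨r, Finset.ne_of_mem_erase hrE, hr⟩
      · refine ⟨i, fun h => hi (h ▸ hb0), ?_⟩
        intro c
        rw [hcov i c]
        constructor
        · rintro ⟨t', hit', hct'⟩
          rcases hsplit t' with ht' | ⟨j, hj, rfl⟩
          · exact absurd hit' (hclaim t' ht' i hi)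
          · rw [hτuniq j hj i hi hit']
            exact hct'
        · intro h
          exact ⟨τ i, hτmem i hi, h⟩
    choose ρ hρ1 hρ2 using hρ
    refine Or.inr (Or.inr (Or.inr (Or.inr ⟨b0, (univ.filter (fun t => b0 ∈ U t)).image ρ, ?_, ?_⟩)))
    · intro h
      obtain ⟨t, _, ht⟩ := Finset.mem_image.1 h
      exact hρ1 t ht
    · intro c
      rw [hcov b0 c]
      constructor
      · rintro ⟨t, hbt, hct⟩
        exact ⟨ρ t, Finset.mem_image.2 ⟨t, Finset.mem_filter.2 ⟨Finset.mem_univ _, hbt⟩, rfl⟩,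
          (hρ2 t c).2 hct⟩
      · rintro ⟨i, hi, hA⟩
        obtain ⟨t, ht, rfl⟩ := Finset.mem_image.1 hi
        exact ⟨t, (Finset.mem_filter.1 ht).2, (hρ2 t c).1 hA⟩
  · -- all exceptional rows have many zeros
    push Not at hlow
    obtain ⟨g1, g2, g3, g4⟩ := hgen E (Finset.Subset.refl _) (fun b hb => hIb b hb (hlow b hb))
    set I := Eᶜ.filter (fun i => ∃ b ∈ E, b ∈ U (τ i)) with hI
    by_cases hinj : Set.InjOn (fun Y : Finset (Fin k) => Y.biUnion (fun t => U t ∩ (E ∪ I)))
      ((I.image τ ∪ G).powerset : Set (Finset (Fin k)))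
    · exact Or.inr (Or.inr (Or.inr (Or.inr (join_of_free g4 (by omega) hinj))))
    · left
      have hlt : (unionFam (I.image τ ∪ G) U (E ∪ I)).card < 2 ^ (I.image τ ∪ G).card := by
        have h1 : (unionFam (I.image τ ∪ G) U (E ∪ I)).card ≤ (I.image τ ∪ G).powerset.card :=
          Finset.card_image_le
        have h2 : (unionFam (I.image τ ∪ G) U (E ∪ I)).card ≠ (I.image τ ∪ G).powerset.card := by
          intro h
          exact hinj (Finset.card_image_iff.1 h)
        rw [Finset.card_powerset] at h1 h2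
        omega
      refine ⟨E ∪ I, unionFam (I.image τ ∪ G) U (E ∪ I), by omega, fun T hT => unionFam_sub hT,
        by omega, ?_, fun c => colpat_mem (fun r hr => g4 r hr c)⟩
      have : (E ∪ I).card - 1 = (I.image τ ∪ G).card := by omega
      rw [this]
      omega

end Pool.Agent.H47
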