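import Mathlib
import Pool.Agent.H47.Join2

/-!
Exact number of matrices in which a given row is a union of other rows.
-/

open Finset

namespace Pool.Agent.H47

lemma card_blocks {ι β : Type*} [Fintype ι] [DecidableEq ι] [DecidableEq β] (W : Finset ι)
    (P : Finset β) (Z : β → Finset ι) (p : ι → Bool)
    (hd : ∀ b ∈ P, ∀ b' ∈ P, b ≠ b' → Disjoint (Z b) (Z b')) (hW : ∀ b ∈ P, Disjoint W (Z b)) :
    (Nat.card {f : ι → Bool // (∀ z ∈ W, f z = p z) ∧ ∀ b ∈ P, ¬ ∀ z ∈ Z b, f z = p z} : ℝ)
      = 2 ^ (Fintype.card ι) * ((1/2) ^ W.card * ∏ b ∈ P, (1 - (1/2) ^ (Z b).card)) := by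
  classical
  let P' : Finset (Option β) := insertNone P
  let Z' : Option β → Finset ι := fun o => o.elim W Z
  have hd' : ∀ b ∈ P', ∀ b' ∈ P', b ≠ b' → Disjoint (Z' b) (Z' b') := by
    intro b hb b' hb' hne
    rcases b with _ | b <;> rcases b' with _ | b'
    · exact absurd rfl hne
    · exact hW b' (Finset.some_mem_insertNone.1 hb')
    · exact (hW b (Finset.some_mem_insertNone.1 hb)).symm
    · exact hd b (Finset.some_mem_insertNone.1 hb) b' (Finset.some_mem_insertNone.1 hb')
        (fun h => hne (congrArg some h))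
  have h1 := sum_prod_blocks P' Z' p hd' (fun o => if o = none then (1:ℝ) else 0)
  have h0 := sum_prod_blocks P' Z' p hd' (fun _ => (0:ℝ))
  have key : (Nat.card {f : ι → Bool // (∀ z ∈ W, f z = p z) ∧ ∀ b ∈ P, ¬ ∀ z ∈ Z b, f z = p z} : ℝ)
      = ∑ f : ι → Bool, ∏ b ∈ P', (if (∀ z ∈ Z' b, f z = p z) then (if b = none then (1:ℝ) else 0) else 1)
        - ∑ f : ι → Bool, ∏ b ∈ P', (if (∀ z ∈ Z' b, f z = p z) then (0:ℝ) else 1) := by
    rw [← Finset.sum_sub_distrib, Nat.card_eq_fintype_card, Fintype.card_subtype, ← Finset.sum_boole]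
    apply Finset.sum_congr rfl
    intro f _
    have e1 : ∏ b ∈ P', (if (∀ z ∈ Z' b, f z = p z) then (if b = none then (1:ℝ) else 0) else 1)
        = ∏ b ∈ P, (if (∀ z ∈ Z b, f z = p z) then (0:ℝ) else 1) := by
      rw [Finset.prod_insertNone]
      simp [Z']
    have e0 : ∏ b ∈ P', (if (∀ z ∈ Z' b, f z = p z) then (0:ℝ) else 1)
        = (if (∀ z ∈ W, f z = p z) then (0:ℝ) else 1)
          * ∏ b ∈ P, (if (∀ z ∈ Z b, f z = p z) then (0:ℝ) else 1) := by
      rw [Finset.prod_insertNone]
      rfl
    rw [e1, e0]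
    by_cases hA : ∀ z ∈ W, f z = p z
    · by_cases hB : ∀ b ∈ P, ¬ ∀ z ∈ Z b, f z = p z
      · rw [if_pos ⟨hA, hB⟩, if_pos hA]
        have : ∏ b ∈ P, (if (∀ z ∈ Z b, f z = p z) then (0:ℝ) else 1) = 1 :=
          Finset.prod_eq_one (fun b hb => if_neg (hB b hb))
        rw [this]; ring
      · rw [if_neg (fun h => hB h.2), if_pos hA]
        push Not at hB
        obtain ⟨b, hb, hz⟩ := hB
        have : ∏ b ∈ P, (if (∀ z ∈ Z b, f z = p z) then (0:ℝ) else 1) = 0 :=
          Finset.prod_eq_zero hb (if_pos hz)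
        rw [this]; ring
    · rw [if_neg (fun h => hA h.1), if_neg hA]; ring
  rw [key, h1, h0, Finset.prod_insertNone, Finset.prod_insertNone]
  have e2 : ∀ b : β, (1 + (0 - 1) / 2 ^ (Z' (some b)).card : ℝ) = 1 - (1/2) ^ (Z b).card := by
    intro b
    simp only [Z', Option.elim_some]
    rw [one_div, inv_pow]; ring
  have e3 : ∀ b : β, (1 + ((if (some b : Option β) = none then (1:ℝ) else 0) - 1) / 2 ^ (Z' (some b)).card : ℝ)
      = 1 - (1/2) ^ (Z b).card := by
    intro b
    rw [if_neg (by simp)]
    exact e2 b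
  rw [Finset.prod_congr rfl (fun b _ => e2 b), Finset.prod_congr rfl (fun b _ => e3 b)]
  simp only [Z', Option.elim_none, if_true]
  rw [one_div, inv_pow]
  ring

variable {n : ℕ}

/-- The expected number of unions of rows of a random `(n-1) × n` matrix, in closed form. -/
noncomputable def En (n : ℕ) : ℝ :=
  ∑ s ∈ range n, ∑ m ∈ range (n + 1), ((n - 1).choose s : ℝ) * (n.choose m : ℝ) *
    (1/2) ^ (s * m) * (1 - (1/2) ^ m) ^ (n - 1 - s) * (1 - (1/2) ^ s) ^ (n - m)

/-- `(S, Z)` is the canonical description of row `b` as a union of rows. -/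
def CanPair (b : Fin n) (S Z : Finset (Fin n)) (A : Fin n × Fin n → Bool) : Prop :=
  (∀ c, A (b, c) = true ↔ c ∉ Z) ∧ (∀ i ∈ S, ∀ c ∈ Z, A (i, c) = false) ∧
    (∀ i, i ≠ b → i ∉ S → ∃ c ∈ Z, A (i, c) = true) ∧ ∀ c, c ∉ Z → ∃ i ∈ S, A (i, c) = true

lemma card_canPair (b : Fin n) (S Z : Finset (Fin n)) (hb : b ∉ S) :
    (Nat.card {A : Fin n × Fin n → Bool // CanPair b S Z A} : ℝ)
      = 2 ^ (n * n) * ((1/2) ^ n * ((1/2) ^ (S.card * Z.card) * (1 - (1/2) ^ Z.card) ^ (n - 1 - S.card)
        * (1 - (1/2) ^ S.card) ^ (n - Z.card))) := by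
  classical
  let W : Finset (Fin n × Fin n) := (({b} : Finset (Fin n)) ×ˢ univ) ∪ (S ×ˢ Z)
  let PR : Finset (Fin n) := (univ.erase b) \ S
  let P : Finset (Fin n ⊕ Fin n) := PR.disjSum Zᶜ
  let B : Fin n ⊕ Fin n → Finset (Fin n × Fin n) := Sum.elim (fun i => {i} ×ˢ Z) (fun c => S ×ˢ {c})
  let p : Fin n × Fin n → Bool := fun z => decide (z.1 = b ∧ z.2 ∉ Z)
  have hd : ∀ x ∈ P, ∀ y ∈ P, x ≠ y → Disjoint (B x) (B y) := by
    intro x hx y hy hxy
    rw [Finset.disjoint_left]
    rintro ⟨i, c⟩ h1 h2
    rcases x with x | x <;> rcases y with y | y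
    · simp only [B, Sum.elim_inl, Finset.mem_product, Finset.mem_singleton] at h1 h2
      exact hxy (by rw [← h1.1, h2.1])
    · simp only [B, Sum.elim_inl, Sum.elim_inr, Finset.mem_product, Finset.mem_singleton] at h1 h2
      have := Finset.inl_mem_disjSum.1 hx
      rw [Finset.mem_sdiff] at this
      exact this.2 (h1.1 ▸ h2.1)
    · simp only [B, Sum.elim_inl, Sum.elim_inr, Finset.mem_product, Finset.mem_singleton] at h1 h2
      have := Finset.inl_mem_disjSum.1 hy
      rw [Finset.mem_sdiff] at this
      exact this.2 (h2.1 ▸ h1.1)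
    · simp only [B, Sum.elim_inr, Finset.mem_product, Finset.mem_singleton] at h1 h2
      exact hxy (by rw [← h1.2, h2.2])
  have hW : ∀ x ∈ P, Disjoint W (B x) := by
    intro x hx
    rw [Finset.disjoint_left]
    rintro ⟨i, c⟩ h1 h2
    simp only [W, Finset.mem_union, Finset.mem_product, Finset.mem_singleton, Finset.mem_univ,
      and_true] at h1
    rcases x with x | x
    · simp only [B, Sum.elim_inl, Finset.mem_product, Finset.mem_singleton] at h2
      have := Finset.inl_mem_disjSum.1 hx
      rw [Finset.mem_sdiff, Finset.mem_erase] at this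
      rcases h1 with h1 | h1
      · exact this.1.1 (by rw [← h2.1, h1])
      · exact this.2 (h2.1 ▸ h1.1)
    · simp only [B, Sum.elim_inr, Finset.mem_product, Finset.mem_singleton] at h2
      have := Finset.inr_mem_disjSum.1 hx
      rw [Finset.mem_compl] at this
      rcases h1 with h1 | h1
      · exact hb (h1 ▸ h2.1)
      · exact this (h2.2 ▸ h1.2)
  have h := card_blocks W P B p hd hW
  have hWc : W.card = n + S.card * Z.card := by
    rw [Finset.card_union_of_disjoint, Finset.card_product, Finset.card_product]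
    · simp
    · rw [Finset.disjoint_left]
      rintro ⟨i, c⟩ h1 h2
      rw [Finset.mem_product] at h1 h2
      simp only [Finset.mem_singleton] at h1
      exact hb (h1.1 ▸ h2.1)
  have hPR : PR.card = n - 1 - S.card := by
    rw [Finset.card_sdiff_of_subset, Finset.card_erase_of_mem (Finset.mem_univ _),
      Finset.card_univ, Fintype.card_fin]
    intro x hx
    rw [Finset.mem_erase]
    exact ⟨fun h => hb (h ▸ hx), Finset.mem_univ _⟩
  have hprod : ∏ x ∈ P, (1 - (1/2 : ℝ) ^ (B x).card)
      = (1 - (1/2) ^ Z.card) ^ (n - 1 - S.card) * (1 - (1/2) ^ S.card) ^ (n - Z.card) := by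
    rw [Finset.prod_disjSum]
    congr 1
    · rw [Finset.prod_congr rfl (g := fun _ => (1 - (1/2 : ℝ) ^ Z.card)), Finset.prod_const, hPR]
      intro i _
      simp [B]
    · rw [Finset.prod_congr rfl (g := fun _ => (1 - (1/2 : ℝ) ^ S.card)), Finset.prod_const,
        Finset.card_compl, Fintype.card_fin]
      intro i _
      simp [B]
  rw [hprod, hWc, Fintype.card_prod, Fintype.card_fin, pow_add] at h
  have heq : Nat.card {A : Fin n × Fin n → Bool // CanPair b S Z A}
      = Nat.card {f : Fin n × Fin n → Bool // (∀ z ∈ W, f z = p z) ∧ ∀ x ∈ P, ¬ ∀ z ∈ B x, f z = p z} := by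
    apply Nat.card_congr
    apply Equiv.subtypeEquivRight
    intro A
    unfold CanPair
    constructor
    · rintro ⟨h1, h2, h3, h4⟩
      refine ⟨?_, ?_⟩
      · rintro ⟨i, c⟩ hz
        simp only [W, Finset.mem_union, Finset.mem_product, Finset.mem_singleton, Finset.mem_univ,
          and_true] at hz
        simp only [p]
        rcases hz with rfl | ⟨hi, hc⟩
        · apply bool_eq_decide_of_iff
          rw [h1 c]; simp
        · rw [h2 i hi c hc]
          symm; rw [decide_eq_false_iff_not]
          exact fun h => h.2 hc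
      · intro x hx hall
        rcases x with x | x
        · have hx' := Finset.inl_mem_disjSum.1 hx
          rw [Finset.mem_sdiff, Finset.mem_erase] at hx'
          obtain ⟨c, hc, hA⟩ := h3 x hx'.1.1 hx'.2
          have := hall (x, c) (by simp [B, hc])
          rw [hA] at this
          simp only [p] at this
          have := of_decide_eq_true this.symm
          exact hx'.1.1 this.1
        · have hx' := Finset.inr_mem_disjSum.1 hx
          rw [Finset.mem_compl] at hx'
          obtain ⟨i, hi, hA⟩ := h4 x hx'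
          have := hall (i, x) (by simp [B, hi])
          rw [hA] at this
          simp only [p] at this
          have := of_decide_eq_true this.symm
          exact hb (this.1 ▸ hi)
    · rintro ⟨h1, h2⟩
      refine ⟨?_, ?_, ?_, ?_⟩
      · intro c
        have := h1 (b, c) (by simp [W])
        rw [this]
        simp [p]
      · intro i hi c hc
        have := h1 (i, c) (by simp [W, hi, hc])
        rw [this]
        simp only [p]
        rw [decide_eq_false_iff_not]
        exact fun h => h.2 hc
      · intro i hib hiS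
        have := h2 (Sum.inl i) (Finset.inl_mem_disjSum.2 (Finset.mem_sdiff.2
          ⟨Finset.mem_erase.2 ⟨hib, Finset.mem_univ _⟩, hiS⟩))
        push Not at this
        obtain ⟨⟨i', c⟩, hz, hne⟩ := this
        simp only [B, Sum.elim_inl, Finset.mem_product, Finset.mem_singleton] at hz
        obtain ⟨rfl, hc⟩ := hz
        refine ⟨c, hc, ?_⟩
        have hp : p (i', c) = false := by
          simp only [p]; rw [decide_eq_false_iff_not]; exact fun h => hib h.1
        rw [hp] at hne
        simpa using hne
      · intro c hc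
        have := h2 (Sum.inr c) (Finset.inr_mem_disjSum.2 (Finset.mem_compl.2 hc))
        push Not at this
        obtain ⟨⟨i, c'⟩, hz, hne⟩ := this
        simp only [B, Sum.elim_inr, Finset.mem_product, Finset.mem_singleton] at hz
        obtain ⟨hi, rfl⟩ := hz
        refine ⟨i, hi, ?_⟩
        have hp : p (i, c') = false := by
          simp only [p]; rw [decide_eq_false_iff_not]; exact fun h => hb (h.1 ▸ hi)
        rw [hp] at hne
        simpa using hne
  rw [heq, h]
  ring

theorem card_rowJoin (b : Fin n) :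
    (Nat.card {A : Fin n × Fin n → Bool // RowJoin A b} : ℝ) = 2 ^ (n * n) * ((1/2) ^ n * En n) := by
  classical
  have hn : 1 ≤ n := by have := b.2; omega
  -- indicator identity
  have hind : ∀ A : Fin n × Fin n → Bool, (if RowJoin A b then (1:ℝ) else 0)
      = ∑ S ∈ (univ.erase b).powerset, ∑ Z ∈ (univ : Finset (Fin n)).powerset,
        (if CanPair b S Z A then (1:ℝ) else 0) := by
    intro A
    -- canonical pair
    set Z0 : Finset (Fin n) := univ.filter (fun c => A (b, c) = false) with hZ0
    set S0 : Finset (Fin n) := (univ.erase b).filter (fun i => ∀ c ∈ Z0, A (i, c) = false) with hS0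
    have huniq : ∀ S Z : Finset (Fin n), b ∉ S → CanPair b S Z A → Z = Z0 ∧ S = S0 := by
      rintro S Z hb ⟨h1, h2, h3, h4⟩
      have hZ : Z = Z0 := by
        ext c
        rw [hZ0, Finset.mem_filter]
        constructor
        · intro hc
          refine ⟨Finset.mem_univ _, ?_⟩
          by_contra hne
          exact (h1 c).1 (by simpa using hne) hc
        · rintro ⟨_, hc⟩
          by_contra hne
          have := (h1 c).2 hne
          rw [hc] at this
          exact Bool.noConfusion this
      subst hZ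
      refine ⟨rfl, ?_⟩
      ext i
      rw [hS0, Finset.mem_filter, Finset.mem_erase]
      constructor
      · intro hi
        exact ⟨⟨fun h => hb (h ▸ hi), Finset.mem_univ _⟩, fun c hc => h2 i hi c hc⟩
      · rintro ⟨⟨hib, _⟩, hi⟩
        by_contra hne
        obtain ⟨c, hc, hA⟩ := h3 i hib hne
        rw [hi c hc] at hA
        exact Bool.noConfusion hA
    have hb0 : b ∉ S0 := by
      intro h
      rw [hS0, Finset.mem_filter, Finset.mem_erase] at h
      exact h.1.1 rfl
    by_cases hJ : RowJoin A b
    · rw [if_pos hJ]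
      have hcan : CanPair b S0 Z0 A := by
        obtain ⟨S, hbS, hS⟩ := hJ
        refine ⟨?_, ?_, ?_, ?_⟩
        · intro c
          rw [hZ0, Finset.mem_filter]
          simp
        · intro i hi c hc
          exact (Finset.mem_filter.1 hi).2 c hc
        · intro i hib hiS
          by_contra hne
          push Not at hne
          apply hiS
          rw [hS0, Finset.mem_filter, Finset.mem_erase]
          exact ⟨⟨hib, Finset.mem_univ _⟩, fun c hc => by simpa using hne c hc⟩
        · intro c hc
          have hbc : A (b, c) = true := by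
            by_contra hne
            apply hc
            rw [hZ0, Finset.mem_filter]
            exact ⟨Finset.mem_univ _, by simpa using hne⟩
          obtain ⟨i, hi, hA⟩ := (hS c).1 hbc
          refine ⟨i, ?_, hA⟩
          rw [hS0, Finset.mem_filter, Finset.mem_erase]
          refine ⟨⟨fun h => hbS (h ▸ hi), Finset.mem_univ _⟩, ?_⟩
          intro c' hc'
          rw [hZ0, Finset.mem_filter] at hc'
          by_contra hne
          have h1 : A (i, c') = true := by simpa using hne
          have := (hS c').2 ⟨i, hi, h1⟩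
          rw [hc'.2] at this
          exact Bool.noConfusion this
      rw [Finset.sum_eq_single S0, Finset.sum_eq_single Z0, if_pos hcan]
      · intro Z _ hZ
        rw [if_neg]
        intro h
        exact hZ (huniq S0 Z hb0 h).1
      · intro h
        exact absurd (Finset.mem_powerset.2 (Finset.subset_univ _)) h
      · intro S hS hne
        apply Finset.sum_eq_zero
        intro Z _
        rw [if_neg]
        intro h
        have hbS : b ∉ S := fun h => Finset.notMem_erase b univ (Finset.mem_powerset.1 hS h)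
        exact hne (huniq S Z hbS h).2
      · intro h
        exact absurd (Finset.mem_powerset.2 (Finset.filter_subset _ _)) h
    · rw [if_neg hJ]
      symm
      apply Finset.sum_eq_zero
      intro S hS
      apply Finset.sum_eq_zero
      intro Z _
      rw [if_neg]
      rintro ⟨h1, h2, _, h4⟩
      apply hJ
      refine ⟨S, fun h => Finset.notMem_erase b univ (Finset.mem_powerset.1 hS h), ?_⟩
      intro c
      rw [h1 c]
      constructor
      · intro hc; exact h4 c hc
      · rintro ⟨i, hi, hA⟩ hc
        rw [h2 i hi c hc] at hA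
        exact Bool.noConfusion hA
  have hcardJ : (Nat.card {A : Fin n × Fin n → Bool // RowJoin A b} : ℝ)
      = ∑ A : Fin n × Fin n → Bool, (if RowJoin A b then (1:ℝ) else 0) := by
    rw [Nat.card_eq_fintype_card, Fintype.card_subtype, ← Finset.sum_boole]
  have hcardC : ∀ S Z : Finset (Fin n), (Nat.card {A : Fin n × Fin n → Bool // CanPair b S Z A} : ℝ)
      = ∑ A : Fin n × Fin n → Bool, (if CanPair b S Z A then (1:ℝ) else 0) := by
    intro S Z
    rw [Nat.card_eq_fintype_card, Fintype.card_subtype, ← Finset.sum_boole]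
  rw [hcardJ, Finset.sum_congr rfl (fun A _ => hind A), Finset.sum_comm]
  have hstep : ∀ S ∈ (univ.erase b).powerset,
      ∑ A : Fin n × Fin n → Bool, ∑ Z ∈ (univ : Finset (Fin n)).powerset,
        (if CanPair b S Z A then (1:ℝ) else 0)
      = ∑ m ∈ range (n + 1), (n.choose m : ℝ) * (2 ^ (n * n) * ((1/2) ^ n *
        ((1/2) ^ (S.card * m) * (1 - (1/2) ^ m) ^ (n - 1 - S.card) * (1 - (1/2) ^ S.card) ^ (n - m)))) := by
    intro S hS
    have hbS : b ∉ S := fun h => Finset.notMem_erase b univ (Finset.mem_powerset.1 hS h)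
    rw [Finset.sum_comm]
    have e1 : ∀ Z ∈ (univ : Finset (Fin n)).powerset,
        ∑ A : Fin n × Fin n → Bool, (if CanPair b S Z A then (1:ℝ) else 0)
        = (fun m => 2 ^ (n * n) * ((1/2) ^ n * ((1/2) ^ (S.card * m) * (1 - (1/2) ^ m) ^ (n - 1 - S.card)
        * (1 - (1/2) ^ S.card) ^ (n - m)))) Z.card := by
      intro Z _
      rw [← hcardC, card_canPair b S Z hbS]
    have e2 := Finset.sum_powerset_apply_card (fun m => 2 ^ (n * n) * ((1/2 : ℝ) ^ n *
      ((1/2) ^ (S.card * m) * (1 - (1/2) ^ m) ^ (n - 1 - S.card)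
        * (1 - (1/2) ^ S.card) ^ (n - m)))) (x := (univ : Finset (Fin n)))
    rw [Finset.sum_congr rfl e1, e2]
    simp only [Finset.card_univ, Fintype.card_fin, nsmul_eq_mul]
  rw [Finset.sum_congr rfl hstep]
  have e2 := Finset.sum_powerset_apply_card (fun s => ∑ m ∈ range (n + 1), (n.choose m : ℝ) *
    (2 ^ (n * n) * ((1/2 : ℝ) ^ n * ((1/2) ^ (s * m) * (1 - (1/2) ^ m) ^ (n - 1 - s)
    * (1 - (1/2) ^ s) ^ (n - m))))) (x := univ.erase b)
  rw [e2]
  have hc : (univ.erase b).card = n - 1 := by
    rw [Finset.card_erase_of_mem (Finset.mem_univ _), Finset.card_univ, Fintype.card_fin]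
  rw [hc, Nat.sub_add_cancel hn]
  unfold En
  rw [Finset.mul_sum, Finset.mul_sum]
  apply Finset.sum_congr rfl
  intro s _
  rw [nsmul_eq_mul, Finset.mul_sum, Finset.mul_sum, Finset.mul_sum]
  apply Finset.sum_congr rfl
  intro m _
  ring

end Pool.Agent.H47
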