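import Mathlib
import Pool.Agent.H47.Exact

/-!
Growth of `En n`: upper and lower bounds in terms of `ℓ = ⌈log₂ n⌉`.
-/

open Finset

namespace Pool.Agent.H47

/-- The general term of `En`. -/
noncomputable def Tm (n s m : ℕ) : ℝ :=
  ((n - 1).choose s : ℝ) * (n.choose m : ℝ) *
    (1/2) ^ (s * m) * (1 - (1/2) ^ m) ^ (n - 1 - s) * (1 - (1/2) ^ s) ^ (n - m)

lemma En_eq (n : ℕ) : En n = ∑ s ∈ range n, ∑ m ∈ range (n + 1), Tm n s m := rfl

lemma half_pow_nonneg (m : ℕ) : (0:ℝ) ≤ 1 - (1/2) ^ m := by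
  have : ((1:ℝ)/2) ^ m ≤ 1 := pow_le_one₀ (by norm_num) (by norm_num)
  linarith

lemma half_pow_le_one (m : ℕ) : (1:ℝ) - (1/2) ^ m ≤ 1 := by
  have : (0:ℝ) ≤ ((1:ℝ)/2) ^ m := by positivity
  linarith

lemma Tm_nonneg (n s m : ℕ) : 0 ≤ Tm n s m := by
  unfold Tm
  have h1 := half_pow_nonneg m
  have h2 := half_pow_nonneg s
  positivity

lemma sum_Tm_s (n s : ℕ) : ∑ m ∈ range (n + 1), Tm n s m ≤ (n:ℝ) ^ s := by
  have h1 : ∑ m ∈ range (n + 1), Tm n s m
      ≤ ∑ m ∈ range (n + 1), ((n - 1).choose s : ℝ) * (((1/2) ^ s) ^ m * (1 - (1/2) ^ s) ^ (n - m)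
        * (n.choose m : ℝ)) := by
    apply Finset.sum_le_sum
    intro m _
    unfold Tm
    have h2 : (1 - (1/2 : ℝ) ^ m) ^ (n - 1 - s) ≤ 1 :=
      pow_le_one₀ (half_pow_nonneg m) (half_pow_le_one m)
    have h3 := half_pow_nonneg s
    calc ((n - 1).choose s : ℝ) * (n.choose m : ℝ) *
        (1/2) ^ (s * m) * (1 - (1/2) ^ m) ^ (n - 1 - s) * (1 - (1/2) ^ s) ^ (n - m)
        ≤ ((n - 1).choose s : ℝ) * (n.choose m : ℝ) *
        (1/2) ^ (s * m) * 1 * (1 - (1/2) ^ s) ^ (n - m) := by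
          apply mul_le_mul_of_nonneg_right _ (by positivity)
          apply mul_le_mul_of_nonneg_left h2 (by positivity)
      _ = _ := by rw [pow_mul]; ring
  rw [← Finset.mul_sum, ← add_pow] at h1
  have h4 : ((1/2 : ℝ) ^ s + (1 - (1/2) ^ s)) ^ n = 1 := by
    rw [show ((1/2 : ℝ) ^ s + (1 - (1/2) ^ s)) = 1 by ring, one_pow]
  rw [h4, mul_one] at h1
  refine le_trans h1 ?_
  have : (n - 1).choose s ≤ n ^ s :=
    le_trans (Nat.choose_le_choose s (Nat.sub_le n 1)) (Nat.choose_le_pow n s)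
  exact_mod_cast this

lemma sum_Tm_m (n m : ℕ) (hn : 1 ≤ n) : ∑ s ∈ range n, Tm n s m ≤ (n:ℝ) ^ m := by
  have h1 : ∑ s ∈ range n, Tm n s m
      ≤ ∑ s ∈ range (n - 1 + 1), (n.choose m : ℝ) * (((1/2) ^ m) ^ s * (1 - (1/2) ^ m) ^ (n - 1 - s)
        * ((n - 1).choose s : ℝ)) := by
    rw [Nat.sub_add_cancel hn]
    apply Finset.sum_le_sum
    intro s _
    unfold Tm
    have h2 : (1 - (1/2 : ℝ) ^ s) ^ (n - m) ≤ 1 :=
      pow_le_one₀ (half_pow_nonneg s) (half_pow_le_one s)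
    have h3 := half_pow_nonneg m
    calc ((n - 1).choose s : ℝ) * (n.choose m : ℝ) *
        (1/2) ^ (s * m) * (1 - (1/2) ^ m) ^ (n - 1 - s) * (1 - (1/2) ^ s) ^ (n - m)
        ≤ ((n - 1).choose s : ℝ) * (n.choose m : ℝ) *
        (1/2) ^ (s * m) * (1 - (1/2) ^ m) ^ (n - 1 - s) * 1 := by
          apply mul_le_mul_of_nonneg_left h2 (by positivity)
      _ = _ := by rw [mul_comm s m, pow_mul]; ring
  rw [← Finset.mul_sum, ← add_pow] at h1
  have h4 : ((1/2 : ℝ) ^ m + (1 - (1/2) ^ m)) ^ (n - 1) = 1 := by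
    rw [show ((1/2 : ℝ) ^ m + (1 - (1/2) ^ m)) = 1 by ring, one_pow]
  rw [h4, mul_one] at h1
  refine le_trans h1 ?_
  have : n.choose m ≤ n ^ m := Nat.choose_le_pow n m
  exact_mod_cast this

lemma Tm_le_big (n s m l : ℕ) (hl : n ≤ 2 ^ l) (hs : l ≤ s) (hm : l ≤ m) :
    Tm n s m ≤ 2 ^ (l * l) := by
  have h1 : ((n - 1).choose s : ℝ) ≤ (2:ℝ) ^ (l * s) := by
    have : (n - 1).choose s ≤ 2 ^ (l * s) :=
      calc (n - 1).choose s ≤ n ^ s :=
            le_trans (Nat.choose_le_choose s (Nat.sub_le n 1)) (Nat.choose_le_pow n s)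
        _ ≤ (2 ^ l) ^ s := Nat.pow_le_pow_left hl s
        _ = _ := by rw [pow_mul]
    exact_mod_cast this
  have h2 : (n.choose m : ℝ) ≤ (2:ℝ) ^ (l * m) := by
    have : n.choose m ≤ 2 ^ (l * m) :=
      calc n.choose m ≤ n ^ m := Nat.choose_le_pow n m
        _ ≤ (2 ^ l) ^ m := Nat.pow_le_pow_left hl m
        _ = _ := by rw [pow_mul]
    exact_mod_cast this
  have h3 : (1 - (1/2 : ℝ) ^ m) ^ (n - 1 - s) ≤ 1 :=
    pow_le_one₀ (half_pow_nonneg m) (half_pow_le_one m)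
  have h4 : (1 - (1/2 : ℝ) ^ s) ^ (n - m) ≤ 1 :=
    pow_le_one₀ (half_pow_nonneg s) (half_pow_le_one s)
  have h5 := half_pow_nonneg m
  have h6 := half_pow_nonneg s
  unfold Tm
  calc ((n - 1).choose s : ℝ) * (n.choose m : ℝ) *
        (1/2) ^ (s * m) * (1 - (1/2) ^ m) ^ (n - 1 - s) * (1 - (1/2) ^ s) ^ (n - m)
      ≤ (2:ℝ) ^ (l * s) * (2:ℝ) ^ (l * m) * (1/2) ^ (s * m) * 1 * 1 := by
        apply mul_le_mul _ h4 (by positivity) (by positivity)
        apply mul_le_mul _ h3 (by positivity) (by positivity)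
        apply mul_le_mul_of_nonneg_right _ (by positivity)
        exact mul_le_mul h1 h2 (by positivity) (by positivity)
    _ ≤ 2 ^ (l * l) := by
        obtain ⟨a, rfl⟩ := Nat.exists_eq_add_of_le hs
        obtain ⟨b, rfl⟩ := Nat.exists_eq_add_of_le hm
        have e1 : (2:ℝ) ^ (l * (l + a)) * (2:ℝ) ^ (l * (l + b)) * (1/2) ^ ((l + a) * (l + b)) * 1 * 1
            = 2 ^ (l * l) * (1/2) ^ (a * b) := by
          have e2 : (1/2 : ℝ) ^ ((l + a) * (l + b)) = (1/2) ^ (l * (l + b)) * ((1/2) ^ (a * l) * (1/2) ^ (a * b)) := by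
            rw [← pow_add, ← pow_add]; congr 1; ring
          have e3 : (2:ℝ) ^ (l * (l + a)) = 2 ^ (l * l) * 2 ^ (a * l) := by
            rw [← pow_add]; congr 1; ring
          have e4 : (2:ℝ) ^ (l * (l + b)) * (1/2) ^ (l * (l + b)) = 1 := by
            rw [← mul_pow]; norm_num
          have e5 : (2:ℝ) ^ (a * l) * (1/2) ^ (a * l) = 1 := by
            rw [← mul_pow]; norm_num
          rw [e2, e3]
          calc _ = 2 ^ (l * l) * (1/2 : ℝ) ^ (a * b) * ((2:ℝ) ^ (l * (l + b)) * (1/2) ^ (l * (l + b)))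
                * ((2:ℝ) ^ (a * l) * (1/2) ^ (a * l)) := by ring
            _ = _ := by rw [e4, e5]; ring
        rw [e1]
        have : ((1:ℝ)/2) ^ (a * b) ≤ 1 := pow_le_one₀ (by norm_num) (by norm_num)
        calc (2:ℝ) ^ (l * l) * (1/2) ^ (a * b) ≤ 2 ^ (l * l) * 1 :=
              mul_le_mul_of_nonneg_left this (by positivity)
          _ = _ := mul_one _

/-- Upper bound for `En`. -/
lemma En_le (n l : ℕ) (hn : 1 ≤ n) (hl : n ≤ 2 ^ l) (hl1 : 1 ≤ l) :
    En n ≤ 2 ^ (l * l + 2 * l + 2) := by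
  have hnl : (n:ℝ) ≤ 2 ^ l := by exact_mod_cast hl
  have hll : (l:ℝ) ≤ 2 ^ l := by
    have := (Nat.lt_two_pow_self (n := l)).le
    exact_mod_cast this
  have hpow : ∀ s, s ≤ l → (n:ℝ) ^ s ≤ 2 ^ (l * l) := by
    intro s hs
    calc (n:ℝ) ^ s ≤ (2 ^ l) ^ s := pow_le_pow_left₀ (by positivity) hnl s
      _ = 2 ^ (l * s) := by rw [pow_mul]
      _ ≤ 2 ^ (l * l) := pow_le_pow_right₀ (by norm_num) (Nat.mul_le_mul_left l hs)
  have key : ∀ s ∈ range n, ∀ m ∈ range (n + 1), Tm n s m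
      ≤ (if s < l then Tm n s m else 0) + (if m < l then Tm n s m else 0) + 2 ^ (l * l) := by
    intro s _ m _
    have h0 := Tm_nonneg n s m
    have hp : (0:ℝ) < 2 ^ (l * l) := by positivity
    by_cases hs : s < l
    · rw [if_pos hs]
      by_cases hm : m < l
      · rw [if_pos hm]; linarith
      · rw [if_neg hm]; linarith
    · rw [if_neg hs]
      by_cases hm : m < l
      · rw [if_pos hm]; linarith
      · rw [if_neg hm]
        have := Tm_le_big n s m l hl (by omega) (by omega)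
        linarith
  have h1 : En n ≤ ∑ s ∈ range n, ∑ m ∈ range (n + 1),
      ((if s < l then Tm n s m else 0) + (if m < l then Tm n s m else 0) + 2 ^ (l * l)) := by
    rw [En_eq]
    exact Finset.sum_le_sum (fun s hs => Finset.sum_le_sum (fun m hm => key s hs m hm))
  have e1 : ∑ s ∈ range n, ∑ m ∈ range (n + 1),
      ((if s < l then Tm n s m else 0) + (if m < l then Tm n s m else 0) + 2 ^ (l * l))
      = (∑ s ∈ range n, ∑ m ∈ range (n + 1), (if s < l then Tm n s m else 0))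
        + (∑ s ∈ range n, ∑ m ∈ range (n + 1), (if m < l then Tm n s m else 0))
        + n * ((n + 1) * 2 ^ (l * l)) := by
    rw [← Finset.sum_add_distrib]
    have : ∀ s ∈ range n, ∑ m ∈ range (n + 1),
      ((if s < l then Tm n s m else 0) + (if m < l then Tm n s m else 0) + (2:ℝ) ^ (l * l))
      = (∑ m ∈ range (n + 1), (if s < l then Tm n s m else 0) +
        ∑ m ∈ range (n + 1), (if m < l then Tm n s m else 0)) + (n + 1) * 2 ^ (l * l) := by
      intro s _
      rw [Finset.sum_add_distrib, Finset.sum_add_distrib, Finset.sum_const, Finset.card_range,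
        nsmul_eq_mul]
      push_cast; ring
    rw [Finset.sum_congr rfl this, Finset.sum_add_distrib, Finset.sum_const, Finset.card_range,
      nsmul_eq_mul]
  have h2 : ∑ s ∈ range n, ∑ m ∈ range (n + 1), (if s < l then Tm n s m else 0)
      ≤ l * 2 ^ (l * l) := by
    have : ∀ s ∈ range n, ∑ m ∈ range (n + 1), (if s < l then Tm n s m else 0)
        ≤ if s < l then (2:ℝ) ^ (l * l) else 0 := by
      intro s _
      by_cases hs : s < l
      · simp only [if_pos hs]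
        exact le_trans (sum_Tm_s n s) (hpow s hs.le)
      · simp [hs]
    refine le_trans (Finset.sum_le_sum this) ?_
    rw [← Finset.sum_filter, Finset.sum_const, nsmul_eq_mul]
    apply mul_le_mul_of_nonneg_right _ (by positivity)
    have : ((range n).filter (fun s => s < l)).card ≤ (range l).card := Finset.card_le_card (by
      intro x hx
      exact Finset.mem_range.2 (Finset.mem_filter.1 hx).2)
    rw [Finset.card_range] at this
    exact_mod_cast this
  have h3 : ∑ s ∈ range n, ∑ m ∈ range (n + 1), (if m < l then Tm n s m else 0)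
      ≤ l * 2 ^ (l * l) := by
    rw [Finset.sum_comm]
    have : ∀ m ∈ range (n + 1), ∑ s ∈ range n, (if m < l then Tm n s m else 0)
        ≤ if m < l then (2:ℝ) ^ (l * l) else 0 := by
      intro m _
      by_cases hm : m < l
      · simp only [if_pos hm]
        exact le_trans (sum_Tm_m n m hn) (hpow m hm.le)
      · simp [hm]
    refine le_trans (Finset.sum_le_sum this) ?_
    rw [← Finset.sum_filter, Finset.sum_const, nsmul_eq_mul]
    apply mul_le_mul_of_nonneg_right _ (by positivity)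
    have : ((range (n + 1)).filter (fun s => s < l)).card ≤ (range l).card := Finset.card_le_card (by
      intro x hx
      exact Finset.mem_range.2 (Finset.mem_filter.1 hx).2)
    rw [Finset.card_range] at this
    exact_mod_cast this
  have h4 : En n ≤ (2 * l + n * (n + 1)) * 2 ^ (l * l) := by
    rw [e1] at h1
    linarith
  have h5 : (2 * (l:ℝ) + n * (n + 1)) ≤ 2 ^ (2 * l + 2) := by
    have e : (2:ℝ) ^ (2 * l + 2) = 4 * (2 ^ l * 2 ^ l) := by
      rw [pow_add, two_mul, pow_add]; norm_num; ring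
    have hX : (2:ℝ) ≤ 2 ^ l := by
      calc (2:ℝ) = 2 ^ 1 := by norm_num
        _ ≤ 2 ^ l := pow_le_pow_right₀ (by norm_num) hl1
    have hn0 : (0:ℝ) ≤ n := Nat.cast_nonneg _
    rw [e]
    generalize (2:ℝ) ^ l = X at hnl hll hX ⊢
    nlinarith
  calc En n ≤ (2 * l + n * (n + 1)) * 2 ^ (l * l) := h4
    _ ≤ 2 ^ (2 * l + 2) * 2 ^ (l * l) := mul_le_mul_of_nonneg_right h5 (by positivity)
    _ = _ := by rw [← pow_add]; congr 1; ring

/-- Lower bound for `En`. -/
lemma le_En (n l : ℕ) (hl : n ≤ 2 ^ l) (hl2 : 2 ^ l ≤ 2 * n) (hl3 : 2 * l < n) (hl1 : 1 ≤ l) :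
    2 ^ (l * l) / (16 ^ l * (l:ℝ) ^ (2 * l)) * Real.exp (- 4) ≤ En n := by
  have hlt : l < n := by omega
  have h1 : Tm n l l ≤ En n := by
    rw [En_eq]
    calc Tm n l l ≤ ∑ m ∈ range (n + 1), Tm n l m :=
          Finset.single_le_sum (f := fun m => Tm n l m) (fun m _ => Tm_nonneg n l m)
            (Finset.mem_range.2 (by omega))
      _ ≤ _ := Finset.single_le_sum (f := fun s => ∑ m ∈ range (n + 1), Tm n s m)
            (fun s _ => Finset.sum_nonneg (fun m _ => Tm_nonneg n s m)) (Finset.mem_range.2 hlt)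
  refine le_trans ?_ h1
  have hlpos : (0:ℝ) < (l:ℝ) ^ l := by positivity
  have hhalf : (2:ℝ) ^ l / 4 ≤ n / 2 := by
    have : (2:ℝ) ^ l ≤ 2 * n := by exact_mod_cast hl2
    linarith
  have hfac : ((l.factorial : ℕ) : ℝ) ≤ (l:ℝ) ^ l := by exact_mod_cast Nat.factorial_le_pow l
  have hfac0 : (0:ℝ) < ((l.factorial : ℕ) : ℝ) := by exact_mod_cast l.factorial_pos
  have c1 : (2 ^ l / 4) ^ l / (l:ℝ) ^ l ≤ (n.choose l : ℝ) := by
    have := Nat.pow_le_choose (α := ℝ) l n
    refine le_trans ?_ this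
    have e1 : (2:ℝ) ^ l / 4 ≤ ((n + 1 - l : ℕ) : ℝ) := by
      have : (n:ℝ) / 2 ≤ ((n + 1 - l : ℕ) : ℝ) := by
        rw [Nat.cast_sub (by omega)]
        push_cast
        have : 2 * (l:ℝ) < n := by exact_mod_cast hl3
        linarith
      linarith
    apply div_le_div₀ (by positivity) (pow_le_pow_left₀ (by positivity) e1 l) hfac0 hfac
  have c2 : (2 ^ l / 4) ^ l / (l:ℝ) ^ l ≤ ((n - 1).choose l : ℝ) := by
    have := Nat.pow_le_choose (α := ℝ) l (n - 1)
    refine le_trans ?_ this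
    have e1 : (2:ℝ) ^ l / 4 ≤ ((n - 1 + 1 - l : ℕ) : ℝ) := by
      have : (n:ℝ) / 2 ≤ ((n - 1 + 1 - l : ℕ) : ℝ) := by
        rw [Nat.sub_add_cancel (by omega), Nat.cast_sub (by omega)]
        have : 2 * (l:ℝ) < n := by exact_mod_cast hl3
        linarith
      linarith
    apply div_le_div₀ (by positivity) (pow_le_pow_left₀ (by positivity) e1 l) hfac0 hfac
  have hx : ∀ k : ℕ, k ≤ n → Real.exp (-2) ≤ (1 - (1/2 : ℝ) ^ l) ^ k := by
    intro k hk
    set x := (1/2 : ℝ) ^ l with hxdef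
    have hx0 : 0 < x := by positivity
    have hx1 : x ≤ 1/2 := by
      calc x ≤ (1/2) ^ 1 := pow_le_pow_of_le_one (by norm_num) (by norm_num) hl1
        _ = 1/2 := by norm_num
    have hpos : 0 < 1 - x := by linarith
    have hlog : -(2 * x) ≤ Real.log (1 - x) := by
      have h2 := Real.one_sub_inv_le_log_of_pos hpos
      refine le_trans ?_ h2
      have : (1 - x)⁻¹ ≤ 1 + 2 * x := by
        rw [inv_le_comm₀ hpos (by positivity)]
        rw [inv_le_iff_one_le_mul₀ (by positivity)]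
        nlinarith
      linarith
    have hkx : (k:ℝ) * x ≤ 1 := by
      have h3 : (k:ℝ) ≤ 2 ^ l := by exact_mod_cast le_trans hk hl
      calc (k:ℝ) * x ≤ 2 ^ l * x := mul_le_mul_of_nonneg_right h3 hx0.le
        _ = 1 := by rw [hxdef, ← mul_pow]; norm_num
    have h5 : (1 - x) ^ k = Real.exp (k * Real.log (1 - x)) := by
      rw [Real.exp_nat_mul, Real.exp_log hpos]
    rw [h5, Real.exp_le_exp]
    have := mul_le_mul_of_nonneg_left hlog (Nat.cast_nonneg (α := ℝ) k)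
    linarith
  have d1 := hx (n - 1 - l) (by omega)
  have d2 := hx (n - l) (by omega)
  have e4 : Real.exp (-4) = Real.exp (-2) * Real.exp (-2) := by
    rw [← Real.exp_add]; norm_num
  unfold Tm
  calc 2 ^ (l * l) / (16 ^ l * (l:ℝ) ^ (2 * l)) * Real.exp (- 4)
      = ((2 ^ l / 4) ^ l / (l:ℝ) ^ l) * ((2 ^ l / 4) ^ l / (l:ℝ) ^ l) * (1/2) ^ (l * l)
        * Real.exp (-2) * Real.exp (-2) := by
        rw [e4]
        have e5 : ((2:ℝ) ^ l / 4) ^ l = 2 ^ (l * l) / 4 ^ l := by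
          rw [div_pow, ← pow_mul]
        have e6 : (16:ℝ) ^ l = 4 ^ l * 4 ^ l := by rw [← mul_pow]; norm_num
        have e7 : (l:ℝ) ^ (2 * l) = (l:ℝ) ^ l * (l:ℝ) ^ l := by rw [two_mul, pow_add]
        have e8 : (2:ℝ) ^ (l * l) * (1/2) ^ (l * l) = 1 := by rw [← mul_pow]; norm_num
        rw [e5, e6, e7]
        have e9 : 2 ^ (l * l) / (4:ℝ) ^ l / (l:ℝ) ^ l * (2 ^ (l * l) / 4 ^ l / (l:ℝ) ^ l) * (1/2) ^ (l * l)
            = 2 ^ (l * l) / (4:ℝ) ^ l / (l:ℝ) ^ l * (1 / 4 ^ l / (l:ℝ) ^ l) * (2 ^ (l * l) * (1/2) ^ (l * l)) := by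
          ring
        rw [e9, e8]
        field_simp
    _ ≤ ((n - 1).choose l : ℝ) * (n.choose l : ℝ) *
    (1/2) ^ (l * l) * (1 - (1/2) ^ l) ^ (n - 1 - l) * (1 - (1/2) ^ l) ^ (n - l) := by
        have h5 := half_pow_nonneg l
        apply mul_le_mul _ d2 (Real.exp_pos _).le (by positivity)
        apply mul_le_mul _ d1 (Real.exp_pos _).le (by positivity)
        apply mul_le_mul_of_nonneg_right _ (by positivity)
        exact mul_le_mul c2 c1 (by positivity) (by positivity)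

end Pool.Agent.H47
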