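import Mathlib
import Pool.Agent.H47.Union
import Pool.Agent.H47.Graph

/-!
Probability that discrepancy or gadget conditions fail.
-/

open Finset

namespace Pool.Agent.H47

variable {n : ℕ}

lemma card_not_disc {η : ℝ} (hη0 : 0 ≤ η) (hη : η ≤ 1) :
    (Nat.card {A : Fin n × Fin n → Bool // ¬ DiscTyp A η} : ℝ)
      ≤ 4 ^ n * (2 ^ (n * n) * Real.exp (- (η ^ 2 / 2 * n ^ 2))) := by
  classical
  let P : (Finset (Fin n) × Finset (Fin n)) → (Fin n × Fin n → Bool) → Prop := fun p A =>
    (hits (p.1 ×ˢ p.2) (fun z => ({z} : Finset (Fin n × Fin n))) (fun _ => true) A : ℝ)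
      ≤ (p.1.card : ℝ) * p.2.card / 2 - η * n ^ 2
  have h1 : (Nat.card {A : Fin n × Fin n → Bool // ¬ DiscTyp A η} : ℝ)
      ≤ Nat.card {A : Fin n × Fin n → Bool // ∃ p ∈ (univ : Finset (Finset (Fin n) × Finset (Fin n))), P p A} := by
    apply natCard_mono
    intro A hA
    unfold DiscTyp at hA
    push Not at hA
    obtain ⟨S, T, hST⟩ := hA
    refine ⟨(S, T), Finset.mem_univ _, ?_⟩
    have : hits (S ×ˢ T) (fun z => ({z} : Finset (Fin n × Fin n))) (fun _ => true) A
        = ((S ×ˢ T).filter (fun z => A z = true)).card := by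
      unfold hits
      congr 1
      apply Finset.filter_congr
      intro z _
      simp
    simp only [P]
    rw [this]
    exact hST.le
  refine le_trans h1 ?_
  refine le_trans (natCard_exists_le _ P (2 ^ (n * n) * Real.exp (- (η ^ 2 / 2 * n ^ 2))) ?_) ?_
  · rintro ⟨S, T⟩ _
    have h2 := card_hits_le_exp (S ×ˢ T) (fun z => ({z} : Finset (Fin n × Fin n))) (fun _ => true)
      (by
        intro b _ b' _ hne
        rw [Finset.disjoint_singleton]
        exact hne) 1 (by intro b _; exact Finset.card_singleton b) η hη0 hη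
      ((S.card : ℝ) * T.card / 2 - η * n ^ 2)
    have hcard : Fintype.card (Fin n × Fin n) = n * n := by simp
    rw [hcard, Finset.card_product] at h2
    rw [Nat.card_eq_fintype_card, Fintype.card_subtype]
    refine le_trans h2 ?_
    apply mul_le_mul_of_nonneg_left _ (by positivity)
    apply Real.exp_le_exp.2
    have hS : (S.card : ℝ) ≤ n := by
      have := Finset.card_le_univ S
      rw [Fintype.card_fin] at this
      exact_mod_cast this
    have hT : (T.card : ℝ) ≤ n := by
      have := Finset.card_le_univ T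
      rw [Fintype.card_fin] at this
      exact_mod_cast this
    have hST : (S.card : ℝ) * T.card ≤ n ^ 2 := by
      rw [sq]
      exact mul_le_mul hS hT (Nat.cast_nonneg _) (Nat.cast_nonneg _)
    push_cast
    have h3 : (S.card : ℝ) * T.card * η ^ 2 ≤ n ^ 2 * η ^ 2 :=
      mul_le_mul_of_nonneg_right hST (by positivity)
    nlinarith
  · rw [Finset.card_univ, Fintype.card_prod, Fintype.card_finset, Fintype.card_fin]
    push_cast
    have : (2:ℝ) ^ n * 2 ^ n = 4 ^ n := by rw [← mul_pow]; norm_num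
    rw [this]

lemma card_not_gadget :
    (Nat.card {A : Fin n × Fin n → Bool // ¬ GadgetTyp A (1/32768) (1/2^35)} : ℝ)
      ≤ ((n:ℝ) ^ n * (n:ℝ) ^ n) * (2 ^ (n * n) * Real.exp (- ((n:ℝ) ^ 2 / 2 ^ 36))) := by
  classical
  let P : ((Fin n → Fin n) × (Fin n → Fin n)) → (Fin n × Fin n → Bool) → Prop := fun p A =>
    GoodMap p.1 ∧ GoodMap p.2 ∧ 1/32768 * (n:ℝ) ≤ (supp p.1).card ∧ 1/32768 * (n:ℝ) ≤ (supp p.2).card ∧
    (((supp p.1 ×ˢ supp p.2).filter
      (fun z => A z = true ∧ A (p.1 z.1, z.2) = false ∧ A (z.1, p.2 z.2) = false)).card : ℝ)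
      ≤ 1/2^35 * n ^ 2
  have h1 : (Nat.card {A : Fin n × Fin n → Bool // ¬ GadgetTyp A (1/32768) (1/2^35)} : ℝ)
      ≤ Nat.card {A : Fin n × Fin n → Bool // ∃ p ∈ (univ : Finset ((Fin n → Fin n) × (Fin n → Fin n))), P p A} := by
    apply natCard_mono
    intro A hA
    unfold GadgetTyp at hA
    push Not at hA
    obtain ⟨σ, ρ, h2, h3, h4, h5, h6⟩ := hA
    exact ⟨(σ, ρ), Finset.mem_univ _, h2, h3, h4, h5, h6.le⟩
  refine le_trans h1 ?_
  refine le_trans (natCard_exists_le _ P (2 ^ (n * n) * Real.exp (- ((n:ℝ) ^ 2 / 2 ^ 36))) ?_) ?_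
  · rintro ⟨σ, ρ⟩ _
    by_cases hg : GoodMap σ ∧ GoodMap ρ ∧ 1/32768 * (n:ℝ) ≤ (supp σ).card ∧
        1/32768 * (n:ℝ) ≤ (supp ρ).card
    · obtain ⟨hσ, hρ, hσc, hρc⟩ := hg
      let Z : Fin n × Fin n → Finset (Fin n × Fin n) := fun z => {(z.1, z.2), (σ z.1, z.2), (z.1, ρ z.2)}
      let pat : Fin n × Fin n → Bool := fun z => decide (z.1 ∈ supp σ ∧ z.2 ∈ supp ρ)
      have hσn : ∀ i ∈ supp σ, σ i ∉ supp σ := by
        intro i hi hi'
        exact (mem_supp.1 hi') (hσ.1 i hi)
      have hρn : ∀ i ∈ supp ρ, ρ i ∉ supp ρ := by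
        intro i hi hi'
        exact (mem_supp.1 hi') (hρ.1 i hi)
      have hd : ∀ b ∈ supp σ ×ˢ supp ρ, ∀ b' ∈ supp σ ×ˢ supp ρ, b ≠ b' → Disjoint (Z b) (Z b') := by
        rintro ⟨i, c⟩ hb ⟨i', c'⟩ hb' hne
        rw [Finset.mem_product] at hb hb'
        obtain ⟨hi, hc⟩ := hb
        obtain ⟨hi', hc'⟩ := hb'
        simp only at hi hc hi' hc'
        rw [Finset.disjoint_left]
        rintro ⟨x, y⟩ hz hz'
        simp only [Z, Finset.mem_insert, Finset.mem_singleton, Prod.mk.injEq] at hz hz'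
        apply hne
        rw [Prod.mk.injEq]
        rcases hz with ⟨rfl, rfl⟩ | ⟨rfl, rfl⟩ | ⟨rfl, rfl⟩
        · rcases hz' with ⟨h1, h2⟩ | ⟨h1, h2⟩ | ⟨h1, h2⟩
          · exact ⟨h1, h2⟩
          · exact absurd (h1 ▸ hi) (hσn i' hi')
          · exact absurd (h2 ▸ hc) (hρn c' hc')
        · rcases hz' with ⟨h1, h2⟩ | ⟨h1, h2⟩ | ⟨h1, h2⟩
          · exact absurd (h1 ▸ hi') (hσn i hi)
          · exact ⟨hσ.2 i hi i' hi' h1, h2⟩
          · exact absurd (h1 ▸ hi') (hσn i hi)
        · rcases hz' with ⟨h1, h2⟩ | ⟨h1, h2⟩ | ⟨h1, h2⟩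
          · exact absurd (h2 ▸ hc') (hρn c hc)
          · exact absurd (h2 ▸ hc') (hρn c hc)
          · exact ⟨h1, hρ.2 c hc c' hc' h2⟩
      have hw : ∀ b ∈ supp σ ×ˢ supp ρ, (Z b).card = 3 := by
        rintro ⟨i, c⟩ hb
        rw [Finset.mem_product] at hb
        obtain ⟨hi, hc⟩ := hb
        simp only at hi hc
        have h1 : σ i ≠ i := mem_supp.1 hi
        have h2 : ρ c ≠ c := mem_supp.1 hc
        simp only [Z]
        rw [Finset.card_eq_three]
        refine ⟨(i, c), (σ i, c), (i, ρ c), ?_, ?_, ?_, rfl⟩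
        · intro h; rw [Prod.mk.injEq] at h; exact h1 h.1.symm
        · intro h; rw [Prod.mk.injEq] at h; exact h2 h.2.symm
        · intro h; rw [Prod.mk.injEq] at h; exact h1 h.1
      have h2 := card_hits_le_exp (supp σ ×ˢ supp ρ) Z pat hd 3 hw (1/2) (by norm_num) (by norm_num)
        (1/2^35 * n ^ 2)
      have hcard : Fintype.card (Fin n × Fin n) = n * n := by simp
      rw [hcard, Finset.card_product] at h2
      have h3 : (Nat.card {A : Fin n × Fin n → Bool // P (σ, ρ) A} : ℝ)
          ≤ ((univ.filter (fun f : Fin n × Fin n → Bool =>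
            (hits (supp σ ×ˢ supp ρ) Z pat f : ℝ) ≤ 1/2^35 * n ^ 2)).card : ℝ) := by
        rw [← Fintype.card_subtype, ← Nat.card_eq_fintype_card]
        apply natCard_mono
        intro A hA
        have hA' := hA.2.2.2.2
        have : hits (supp σ ×ˢ supp ρ) Z pat A = ((supp σ ×ˢ supp ρ).filter
          (fun z => A z = true ∧ A (σ z.1, z.2) = false ∧ A (z.1, ρ z.2) = false)).card := by
          unfold hits
          congr 1
          apply Finset.filter_congr
          rintro ⟨i, c⟩ hz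
          rw [Finset.mem_product] at hz
          obtain ⟨hi, hc⟩ := hz
          simp only at hi hc
          have p1 : pat (i, c) = true := by simp [pat, hi, hc]
          have p2 : pat (σ i, c) = false := by simp [pat, hσn i hi]
          have p3 : pat (i, ρ c) = false := by simp [pat, hρn c hc]
          simp only [Z, Finset.mem_insert, Finset.mem_singleton]
          constructor
          · intro h
            refine ⟨?_, ?_, ?_⟩
            · rw [h (i, c) (Or.inl rfl), p1]
            · rw [h (σ i, c) (Or.inr (Or.inl rfl)), p2]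
            · rw [h (i, ρ c) (Or.inr (Or.inr rfl)), p3]
          · rintro ⟨h1, h2, h3⟩ z (rfl | rfl | rfl)
            · rw [h1, p1]
            · rw [h2, p2]
            · rw [h3, p3]
        rw [this]
        exact hA'
      refine le_trans h3 (le_trans h2 ?_)
      apply mul_le_mul_of_nonneg_left _ (by positivity)
      apply Real.exp_le_exp.2
      push_cast
      have hn0 : (0:ℝ) ≤ n := Nat.cast_nonneg n
      have h4 : (1/32768 * (n:ℝ)) * (1/32768 * (n:ℝ)) ≤ ((supp σ).card : ℝ) * (supp ρ).card :=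
        mul_le_mul hσc hρc (by positivity) (Nat.cast_nonneg _)
      nlinarith
    · have : IsEmpty {A : Fin n × Fin n → Bool // P (σ, ρ) A} := by
        constructor
        rintro ⟨A, hA⟩
        exact hg ⟨hA.1, hA.2.1, hA.2.2.1, hA.2.2.2.1⟩
      rw [Nat.card_of_isEmpty]
      push_cast
      positivity
  · rw [Finset.card_univ, Fintype.card_prod, Fintype.card_fun, Fintype.card_fin]
    push_cast
    exact le_refl _

end Pool.Agent.H47
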