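import Mathlib
import Pool.Agent.H47.Disc
import Pool.Agent.H47.Rects
import Pool.Agent.H47.Det3

/-!
Every matrix outside small exceptional families is typical.
-/

open Finset

namespace Pool.Agent.H47

variable {n : ℕ}

lemma comm_pair (A : Fin n × Fin n → Bool) (i j : Fin n) :
    comm A {i, j} = rowS A i ∩ rowS A j := by
  ext c
  simp [comm, rowS]

lemma comm_single (A : Fin n × Fin n → Bool) (i : Fin n) :
    comm A {i} = rowS A i := by
  ext c
  simp [comm, rowS]

lemma comm_triple (A : Fin n × Fin n → Bool) (i j l : Fin n) :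
    comm A {i, j, l} = (rowS A i ∩ rowS A j) ∩ rowS A l := by
  ext c
  simp [comm, rowS, and_assoc]

lemma rowTyp_of_noBad {η : ℝ} {A : Fin n × Fin n → Bool} {R : Finset (Fin n)}
    (h : ∀ T : Finset (Fin n) × Bool, 1 ≤ T.1.card → T.1.card ≤ 512 → T.1 ⊆ R → ¬ BadT η A T) :
    RowTyp A R η where
  one := by
    intro i hi
    by_contra hc
    push Not at hc
    apply h ({i}, false) (by simp) (by simp) (by simpa using hi)
    right; right; left
    refine ⟨rfl, by simp, ?_⟩
    rw [comm_single]
    exact hc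
  two := by
    intro i hi j hj hij
    by_contra hc
    push Not at hc
    have hcard : ({i, j} : Finset (Fin n)).card = 2 := Finset.card_pair hij
    apply h ({i, j}, true) (by simp only [hcard]; norm_num) (by simp only [hcard]; norm_num)
      (by intro x hx; simp only [Finset.mem_insert, Finset.mem_singleton] at hx
          rcases hx with rfl | rfl <;> assumption)
    left
    refine ⟨rfl, hcard, ?_⟩
    rw [comm_pair]
    exact hc
  three := by
    intro i hi j hj l hl hij hil hjl
    by_contra hc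
    push Not at hc
    have hcard : ({i, j, l} : Finset (Fin n)).card = 3 :=
      Finset.card_eq_three.2 ⟨i, j, l, hij, hil, hjl, rfl⟩
    apply h ({i, j, l}, false) (by simp only [hcard]; norm_num) (by simp only [hcard]; norm_num)
      (by intro x hx; simp only [Finset.mem_insert, Finset.mem_singleton] at hx
          rcases hx with rfl | rfl | rfl <;> assumption)
    right; right; right
    refine ⟨rfl, hcard, ?_⟩
    rw [comm_triple]
    exact hc

lemma area_of_noBad {η : ℝ} {A : Fin n × Fin n → Bool} {R : Finset (Fin n)}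
    (h : ∀ T : Finset (Fin n) × Bool, 1 ≤ T.1.card → T.1.card ≤ 512 → T.1 ⊆ R → ¬ BadT η A T)
    {U V : Finset (Fin n)} (hU : U ⊆ R) (hU3 : 3 ≤ U.card) (hU5 : U.card ≤ 512)
    (h1 : ∀ i ∈ U, ∀ c ∈ V, A (i, c) = true) :
    (U.card : ℝ) * V.card ≤ 15/32 * n := by
  have h2 := h (U, true) (by simp only; omega) (by simp only; omega) hU
  have h3 : ¬ (15 / (32 * (U.card : ℝ)) * n < ((comm A U).card : ℝ)) := by
    intro hc
    exact h2 (Or.inr (Or.inl ⟨rfl, hU3, hU5, hc⟩))
  push Not at h3
  have h4 : (V.card : ℝ) ≤ (comm A U).card := by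
    have : V ⊆ comm A U := by
      intro c hc
      unfold comm
      rw [Finset.mem_filter]
      exact ⟨Finset.mem_univ _, fun i hi => h1 i hi c hc⟩
    exact_mod_cast Finset.card_le_card this
  have hUpos : (0:ℝ) < U.card := by
    have : 0 < U.card := by omega
    exact_mod_cast this
  calc (U.card : ℝ) * V.card ≤ U.card * (15 / (32 * (U.card : ℝ)) * n) :=
        mul_le_mul_of_nonneg_left (le_trans h4 h3) hUpos.le
    _ = 15/32 * n := by field_simp

/-- Every matrix is in one of the exceptional families, or is typical. -/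
theorem typical_or (A : Fin n × Fin n → Bool) (m m' : ℕ) (hn : 60000 ≤ n) (η η6 κ : ℝ) :
    BigRect A ∨ RectFam (m' + 1) A ∨ BadFam η (m + 1) A ∨ BadFam η (m + 1) (tr A) ∨
    ¬ DiscTyp A η6 ∨ ¬ GadgetTyp A (1/32768) κ ∨
    ∃ (R R' : Finset (Fin n)) (W : Finset (Fin n × Fin n)), Rᶜ.card ≤ 512 * m ∧
      R'ᶜ.card ≤ 512 * m ∧ (W.card : ℝ) ≤ 4 * m' * n ∧ Typical A R R' W η η6 κ := by
  classical
  by_cases hB : BigRect A
  · exact Or.inl hB
  right
  rcases exists_W A m' with h | ⟨W, hW1, hW2⟩
  · exact Or.inl h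
  right
  rcases exists_good_rows η A m with h | ⟨R, hR1, hR2⟩
  · exact Or.inl h
  right
  rcases exists_good_rows η (tr A) m with h | ⟨R', hR'1, hR'2⟩
  · exact Or.inl h
  right
  by_cases hD : DiscTyp A η6
  swap
  · exact Or.inl hD
  right
  by_cases hG : GadgetTyp A (1/32768) κ
  swap
  · exact Or.inl hG
  right
  refine ⟨R, R', W, hR1, hR'1, hW1, rowTyp_of_noBad hR2, rowTyp_of_noBad hR'2, ?_, hD, hG⟩
  intro U V hU hV hU3 hV3 hUV
  by_cases hU5 : U.card ≤ 512
  · exact le_trans card_rect_sdiff_le (area_of_noBad hR2 hU hU3 hU5 hUV)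
  by_cases hV5 : V.card ≤ 512
  · refine le_trans card_rect_sdiff_le ?_
    rw [mul_comm]
    exact area_of_noBad hR'2 hV hV3 hV5 (fun c hc i hi => hUV i hi c hc)
  push Not at hU5 hV5
  have hones : ∀ z ∈ U ×ˢ V, A z = true := by
    rintro ⟨i, c⟩ hz
    rw [Finset.mem_product] at hz
    exact hUV i hz.1 c hz.2
  by_cases hUs : 100 * U.card ≤ n
  · by_cases hVs : 100 * V.card ≤ n
    · have hUm : U ∈ smallSets n := Finset.mem_filter.2 ⟨Finset.mem_univ _, hUs⟩
      have hVm : V ∈ smallSets n := Finset.mem_filter.2 ⟨Finset.mem_univ _, hVs⟩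
      by_cases ha : U.card * V.card ≤ 4 * n
      · exact hW2 U hUm V hVm ha hones
      · exfalso
        apply hB
        refine ⟨(U, V), ?_, hones⟩
        rw [Finset.mem_filter, Finset.mem_product]
        exact ⟨⟨hUm, hVm⟩, by simp only; omega⟩
    · -- V too large
      exfalso
      apply hB
      push Not at hVs
      obtain ⟨V', hV'1, hV'2⟩ := Finset.exists_subset_card_eq (s := V) (n := n / 100) (by omega)
      obtain ⟨U', hU'1, hU'2⟩ := Finset.exists_subset_card_eq (s := U) (n := 513) (by omega)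
      refine ⟨(U', V'), ?_, ?_⟩
      · rw [Finset.mem_filter, Finset.mem_product]
        refine ⟨⟨Finset.mem_filter.2 ⟨Finset.mem_univ _, ?_⟩,
          Finset.mem_filter.2 ⟨Finset.mem_univ _, ?_⟩⟩, ?_⟩
        · simp only; omega
        · simp only; omega
        · simp only [hU'2, hV'2]; omega
      · rintro ⟨i, c⟩ hz
        rw [Finset.mem_product] at hz
        exact hUV i (hU'1 hz.1) c (hV'1 hz.2)
  · exfalso
    apply hB
    push Not at hUs
    obtain ⟨U', hU'1, hU'2⟩ := Finset.exists_subset_card_eq (s := U) (n := n / 100) (by omega)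
    obtain ⟨V', hV'1, hV'2⟩ := Finset.exists_subset_card_eq (s := V) (n := 513) (by omega)
    refine ⟨(U', V'), ?_, ?_⟩
    · rw [Finset.mem_filter, Finset.mem_product]
      refine ⟨⟨Finset.mem_filter.2 ⟨Finset.mem_univ _, ?_⟩,
        Finset.mem_filter.2 ⟨Finset.mem_univ _, ?_⟩⟩, ?_⟩
      · simp only; omega
      · simp only; omega
      · simp only [hU'2, hV'2]; omega
    · rintro ⟨i, c⟩ hz
      rw [Finset.mem_product] at hz
      exact hUV i (hU'1 hz.1) c (hV'1 hz.2)

/-- transposition is a bijection on matrices -/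
def trEquiv (n : ℕ) : (Fin n × Fin n → Bool) ≃ (Fin n × Fin n → Bool) where
  toFun := tr
  invFun := tr
  left_inv := fun A => by funext z; rfl
  right_inv := fun A => by funext z; rfl

lemma card_tr (P : (Fin n × Fin n → Bool) → Prop) :
    Nat.card {A : Fin n × Fin n → Bool // P (tr A)} = Nat.card {A : Fin n × Fin n → Bool // P A} :=
  Nat.card_congr ((trEquiv n).subtypeEquiv (fun A => Iff.rfl))

end Pool.Agent.H47
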