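import Mathlib
import Pool.Agent.H47.Typ

/-!
Numerical estimate of the number of atypical matrices.
-/

open Finset

namespace Pool.Agent.H47

lemma poly_le_exp (p : ℕ) {a : ℝ} (ha : 0 < a) :
    ∃ C : ℝ, 0 < C ∧ ∀ n : ℕ, ((n:ℝ) + 1) ^ p ≤ C * Real.exp (a * n) := by
  refine ⟨(p.factorial : ℝ) / a ^ p * Real.exp a, by positivity, ?_⟩
  intro n
  have h := Real.pow_div_factorial_le_exp (a * ((n:ℝ) + 1)) (by positivity) p
  have hp : (0:ℝ) < p.factorial := by exact_mod_cast p.factorial_pos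
  rw [div_le_iff₀ hp, mul_pow] at h
  have hap : (0:ℝ) < a ^ p := by positivity
  have h2 : Real.exp (a * ((n:ℝ) + 1)) = Real.exp a * Real.exp (a * n) := by
    rw [← Real.exp_add]; congr 1; ring
  rw [h2] at h
  generalize ((n:ℝ) + 1) ^ p = y at h ⊢
  have h3 : y ≤ (Real.exp a * Real.exp (a * n) * p.factorial) / a ^ p := by
    rw [le_div_iff₀ hap]; linarith
  calc y ≤ (Real.exp a * Real.exp (a * n) * p.factorial) / a ^ p := h3
    _ = (p.factorial : ℝ) / a ^ p * Real.exp a * Real.exp (a * n) := by ring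

lemma lin_le_quad {a : ℝ} (ha : 0 < a) (b x : ℝ) : b * x ≤ a * x ^ 2 + b ^ 2 / (4 * a) := by
  have h1 : 0 ≤ (2 * a * x - b) ^ 2 := sq_nonneg _
  have h2 : a * x ^ 2 + b ^ 2 / (4 * a) - b * x = (2 * a * x - b) ^ 2 / (4 * a) := by
    field_simp; ring
  have h3 : 0 ≤ (2 * a * x - b) ^ 2 / (4 * a) := by positivity
  linarith

lemma geom_quad {a : ℝ} (ha : 0 < a) (K : ℝ) {B : ℝ} (hB : 0 < B) :
    ∃ C : ℝ, 0 < C ∧ ∀ n : ℕ, B ^ n * Real.exp (- (a * (n:ℝ) ^ 2)) ≤ C * Real.exp (- (K * n)) := by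
  refine ⟨Real.exp ((Real.log B + K) ^ 2 / (4 * a)), Real.exp_pos _, ?_⟩
  intro n
  have h1 : B ^ n = Real.exp (n * Real.log B) := by
    rw [Real.exp_nat_mul, Real.exp_log hB]
  rw [h1, ← Real.exp_add, ← Real.exp_add, Real.exp_le_exp]
  have := lin_le_quad ha (Real.log B + K) (n:ℝ)
  linarith

lemma self_pow_le {a : ℝ} (ha : 0 < a) (n : ℕ) :
    (n:ℝ) ^ n ≤ (1 / a) ^ n * Real.exp (a * (n:ℝ) ^ 2) := by
  have h1 : (n:ℝ) ≤ 1 / a * Real.exp (a * n) := by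
    have h2 : a * (n:ℝ) ≤ Real.exp (a * n) := by
      have := Real.add_one_le_exp (a * (n:ℝ)); linarith
    rw [div_mul_eq_mul_div, one_mul, le_div_iff₀ ha]
    linarith
  calc (n:ℝ) ^ n ≤ (1 / a * Real.exp (a * n)) ^ n := pow_le_pow_left₀ (Nat.cast_nonneg _) h1 n
    _ = (1 / a) ^ n * Real.exp (a * (n:ℝ) ^ 2) := by
        rw [mul_pow, ← Real.exp_nat_mul]; congr 2; ring

/-- The sum of the failure probabilities. -/
noncomputable def failSum (η : ℝ) (m m' n : ℕ) : ℝ :=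
  Real.exp (- (2 * (n:ℝ))) + Real.exp (- (1/5 * (((m' + 1 : ℕ) : ℝ) * n)))
    + 2 * ((2 * ((n:ℝ) + 1) ^ 512) ^ (m + 1) * Real.exp (- (η ^ 2 / 2) * (((m + 1 : ℕ) : ℝ) * n)))
    + 4 ^ n * Real.exp (- (η ^ 2 / 2 * (n:ℝ) ^ 2))
    + (n:ℝ) ^ n * (n:ℝ) ^ n * Real.exp (- ((n:ℝ) ^ 2 / 2 ^ 36))

lemma failSum_le {η : ℝ} (hη : 0 < η) (m m' : ℕ) {K : ℝ} (hK : K < 2)
    (hK1 : K < 1/5 * ((m' + 1 : ℕ) : ℝ)) (hK2 : K < η ^ 2 / 2 * ((m + 1 : ℕ) : ℝ)) :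
    ∃ C : ℝ, 0 < C ∧ ∀ n : ℕ, failSum η m m' n ≤ C * Real.exp (- (K * n)) := by
  obtain ⟨C3, hC3, h3⟩ := poly_le_exp (512 * (m + 1)) (a := η ^ 2 / 2 * ((m + 1 : ℕ) : ℝ) - K)
    (by linarith)
  obtain ⟨C4, hC4, h4⟩ := geom_quad (a := η ^ 2 / 2) (by positivity) K (B := 4) (by norm_num)
  obtain ⟨C5, hC5, h5⟩ := geom_quad (a := 1 / 2 ^ 37) (by positivity) K (B := (2:ℝ) ^ 76) (by positivity)
  refine ⟨1 + 1 + 2 * (2 ^ (m + 1) * C3) + C4 + C5, by positivity, ?_⟩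
  intro n
  have hn : (0:ℝ) ≤ n := Nat.cast_nonneg _
  have e1 : Real.exp (- (2 * (n:ℝ))) ≤ 1 * Real.exp (- (K * n)) := by
    rw [one_mul, Real.exp_le_exp]
    have := mul_le_mul_of_nonneg_right hK.le hn
    linarith
  have e2 : Real.exp (- (1/5 * (((m' + 1 : ℕ) : ℝ) * n))) ≤ 1 * Real.exp (- (K * n)) := by
    rw [one_mul, Real.exp_le_exp]
    have := mul_le_mul_of_nonneg_right hK1.le hn
    linarith
  have e3 : 2 * ((2 * ((n:ℝ) + 1) ^ 512) ^ (m + 1) * Real.exp (- (η ^ 2 / 2) * (((m + 1 : ℕ) : ℝ) * n)))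
      ≤ 2 * (2 ^ (m + 1) * C3) * Real.exp (- (K * n)) := by
    have q1 := h3 n
    have q2 : (2 * ((n:ℝ) + 1) ^ 512) ^ (m + 1) = 2 ^ (m + 1) * ((n:ℝ) + 1) ^ (512 * (m + 1)) := by
      rw [mul_pow, ← pow_mul]
    rw [q2]
    generalize ((n:ℝ) + 1) ^ (512 * (m + 1)) = y at q1 ⊢
    have q3 : Real.exp ((η ^ 2 / 2 * ((m + 1 : ℕ) : ℝ) - K) * n)
        * Real.exp (- (η ^ 2 / 2) * (((m + 1 : ℕ) : ℝ) * n)) = Real.exp (- (K * n)) := by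
      rw [← Real.exp_add]; congr 1; ring
    calc 2 * (2 ^ (m + 1) * y * Real.exp (- (η ^ 2 / 2) * (((m + 1 : ℕ) : ℝ) * n)))
        ≤ 2 * (2 ^ (m + 1) * (C3 * Real.exp ((η ^ 2 / 2 * ((m + 1 : ℕ) : ℝ) - K) * n))
          * Real.exp (- (η ^ 2 / 2) * (((m + 1 : ℕ) : ℝ) * n))) := by
          apply mul_le_mul_of_nonneg_left _ (by norm_num)
          apply mul_le_mul_of_nonneg_right _ (Real.exp_pos _).le
          exact mul_le_mul_of_nonneg_left q1 (by positivity)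
      _ = 2 * (2 ^ (m + 1) * C3) * (Real.exp ((η ^ 2 / 2 * ((m + 1 : ℕ) : ℝ) - K) * n)
          * Real.exp (- (η ^ 2 / 2) * (((m + 1 : ℕ) : ℝ) * n))) := by ring
      _ = _ := by rw [q3]
  have e4 := h4 n
  have e5 : (n:ℝ) ^ n * (n:ℝ) ^ n * Real.exp (- ((n:ℝ) ^ 2 / 2 ^ 36)) ≤ C5 * Real.exp (- (K * n)) := by
    have q1 := self_pow_le (a := 1 / 2 ^ 38) (by positivity) n
    have q0 : (0:ℝ) ≤ (n:ℝ) ^ n := by positivity
    have q2 : (n:ℝ) ^ n * (n:ℝ) ^ n ≤ ((1 / (1 / 2 ^ 38)) ^ n * Real.exp (1 / 2 ^ 38 * (n:ℝ) ^ 2))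
        * ((1 / (1 / 2 ^ 38)) ^ n * Real.exp (1 / 2 ^ 38 * (n:ℝ) ^ 2)) :=
      mul_le_mul q1 q1 q0 (le_trans q0 q1)
    calc (n:ℝ) ^ n * (n:ℝ) ^ n * Real.exp (- ((n:ℝ) ^ 2 / 2 ^ 36))
        ≤ (((1 / (1 / 2 ^ 38)) ^ n * Real.exp (1 / 2 ^ 38 * (n:ℝ) ^ 2))
        * ((1 / (1 / 2 ^ 38)) ^ n * Real.exp (1 / 2 ^ 38 * (n:ℝ) ^ 2))) * Real.exp (- ((n:ℝ) ^ 2 / 2 ^ 36)) :=
          mul_le_mul_of_nonneg_right q2 (Real.exp_pos _).le
      _ = (((1 / (1 / 2 ^ 38)) ^ n) * ((1 / (1 / 2 ^ 38)) ^ n)) * (Real.exp (1 / 2 ^ 38 * (n:ℝ) ^ 2)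
            * Real.exp (1 / 2 ^ 38 * (n:ℝ) ^ 2) * Real.exp (- ((n:ℝ) ^ 2 / 2 ^ 36))) := by ring
      _ = ((2:ℝ) ^ 76) ^ n * Real.exp (- (1 / 2 ^ 37 * (n:ℝ) ^ 2)) := by
          rw [← mul_pow, ← Real.exp_add, ← Real.exp_add]
          congr 1
          · congr 1; norm_num
          · congr 1; ring
      _ ≤ _ := h5 n
  unfold failSum
  have hE := Real.exp_pos (- (K * (n:ℝ)))
  generalize hg : (2 * ((n:ℝ) + 1) ^ 512) ^ (m + 1) = Y at e3 ⊢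
  clear hg
  nlinarith [e1, e2, e3, e4, e5]

/-- A matrix is good when it is typical outside few rows, columns and entries. -/
def Good (m m' : ℕ) {n : ℕ} (A : Fin n × Fin n → Bool) : Prop :=
  ∃ (R R' : Finset (Fin n)) (W : Finset (Fin n × Fin n)), Rᶜ.card ≤ 512 * m ∧
      R'ᶜ.card ≤ 512 * m ∧ (W.card : ℝ) ≤ 4 * m' * n ∧
      Typical A R R' W (1/2^42) (1/2^42) (1/2^35)

theorem card_not_good (m m' : ℕ) {n : ℕ} (hn : 60000 ≤ n) :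
    (Nat.card {A : Fin n × Fin n → Bool // ¬ Good m m' A} : ℝ)
      ≤ 2 ^ (n * n) * failSum (1/2^42) m m' n := by
  have h0 := natCard_mono (α := Fin n × Fin n → Bool) (P := fun A => ¬ Good m m' A)
    (Q := fun A => BigRect A ∨ RectFam (m' + 1) A ∨ BadFam (1/2^42) (m + 1) A ∨
      BadFam (1/2^42) (m + 1) (tr A) ∨ ¬ DiscTyp A (1/2^42) ∨ ¬ GadgetTyp A (1/32768) (1/2^35))
    (fun A hA => by
      rcases typical_or A m m' hn (1/2^42) (1/2^42) (1/2^35) with h | h | h | h | h | h | h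
      · exact Or.inl h
      · exact Or.inr (Or.inl h)
      · exact Or.inr (Or.inr (Or.inl h))
      · exact Or.inr (Or.inr (Or.inr (Or.inl h)))
      · exact Or.inr (Or.inr (Or.inr (Or.inr (Or.inl h))))
      · exact Or.inr (Or.inr (Or.inr (Or.inr (Or.inr h))))
      · exact absurd h hA)
  have h1 := natCard_or_le (α := Fin n × Fin n → Bool) (fun A => BigRect A)
    (fun A => RectFam (m' + 1) A ∨ BadFam (1/2^42) (m + 1) A ∨
      BadFam (1/2^42) (m + 1) (tr A) ∨ ¬ DiscTyp A (1/2^42) ∨ ¬ GadgetTyp A (1/32768) (1/2^35))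
  have h2 := natCard_or_le (α := Fin n × Fin n → Bool) (fun A => RectFam (m' + 1) A)
    (fun A => BadFam (1/2^42) (m + 1) A ∨
      BadFam (1/2^42) (m + 1) (tr A) ∨ ¬ DiscTyp A (1/2^42) ∨ ¬ GadgetTyp A (1/32768) (1/2^35))
  have h3 := natCard_or_le (α := Fin n × Fin n → Bool) (fun A => BadFam (1/2^42) (m + 1) A)
    (fun A => BadFam (1/2^42) (m + 1) (tr A) ∨ ¬ DiscTyp A (1/2^42) ∨ ¬ GadgetTyp A (1/32768) (1/2^35))
  have h4 := natCard_or_le (α := Fin n × Fin n → Bool) (fun A => BadFam (1/2^42) (m + 1) (tr A))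
    (fun A => ¬ DiscTyp A (1/2^42) ∨ ¬ GadgetTyp A (1/32768) (1/2^35))
  have h5 := natCard_or_le (α := Fin n × Fin n → Bool) (fun A => ¬ DiscTyp A (1/2^42))
    (fun A => ¬ GadgetTyp A (1/32768) (1/2^35))
  have g1 := card_bigRect (n := n)
  have g2 := card_rectFam (n := n) (m' + 1)
  have g3 := card_badFam (n := n) (η := 1/2^42) (by positivity) (by norm_num) (m + 1)
  have g4 := card_tr (n := n) (fun A => BadFam (1/2^42) (m + 1) A)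
  have g5 := card_not_disc (n := n) (η := 1/2^42) (by positivity) (by norm_num)
  have g6 := card_not_gadget (n := n)
  have g4' : (Nat.card {A : Fin n × Fin n → Bool // BadFam (1/2^42) (m + 1) (tr A)} : ℝ)
      = (Nat.card {A : Fin n × Fin n → Bool // BadFam (1/2^42) (m + 1) A} : ℝ) := by
    exact_mod_cast g4
  rw [g4'] at h4
  have hfin : 2 ^ (n * n) * failSum (1/2^42) m m' n =
      2 ^ (n * n) * Real.exp (- (2 * (n:ℝ))) + 2 ^ (n * n) * Real.exp (- (1/5 * (((m' + 1 : ℕ) : ℝ) * n)))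
      + 2 * ((2 * ((n:ℝ) + 1) ^ 512) ^ (m + 1) * (2 ^ (n * n) *
        Real.exp (- ((1/2^42) ^ 2 / 2) * (((m + 1 : ℕ) : ℝ) * n))))
      + 4 ^ n * (2 ^ (n * n) * Real.exp (- ((1/2^42) ^ 2 / 2 * (n:ℝ) ^ 2)))
      + (n:ℝ) ^ n * (n:ℝ) ^ n * (2 ^ (n * n) * Real.exp (- ((n:ℝ) ^ 2 / 2 ^ 36))) := by
    unfold failSum
    generalize (2 * ((n:ℝ) + 1) ^ 512) ^ (m + 1) = Y
    ring
  rw [hfin]
  generalize (2 * ((n:ℝ) + 1) ^ 512) ^ (m + 1) = Y at g3 ⊢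
  linarith

end Pool.Agent.H47
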