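import Mathlib
import Pool.Agent.H47.Join2
import Pool.Agent.H47.Fail

/-!
The events of the dichotomy have probability `O(γ ^ n)` with `γ < 1/2`.
-/

open Finset

namespace Pool.Agent.H47

/-- `f n = O(γ ^ n)` for some `γ < 1/2`. -/
def Sm (f : ℕ → ℝ) : Prop := ∃ C γ : ℝ, 0 < C ∧ 0 < γ ∧ γ < 1/2 ∧ ∀ n, f n ≤ C * γ ^ n

lemma Sm.mono {f g : ℕ → ℝ} (hg : Sm g) (h : ∀ n, f n ≤ g n) : Sm f := by
  obtain ⟨C, γ, hC, h0, h1, h2⟩ := hg
  exact ⟨C, γ, hC, h0, h1, fun n => le_trans (h n) (h2 n)⟩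

lemma Sm.add {f g : ℕ → ℝ} (hf : Sm f) (hg : Sm g) : Sm (fun n => f n + g n) := by
  obtain ⟨C, γ, hC, h0, h1, h2⟩ := hf
  obtain ⟨C', γ', hC', h0', h1', h2'⟩ := hg
  refine ⟨C + C', max γ γ', by positivity, lt_max_of_lt_left h0, max_lt h1 h1', ?_⟩
  intro n
  have e1 : C * γ ^ n ≤ C * (max γ γ') ^ n :=
    mul_le_mul_of_nonneg_left (pow_le_pow_left₀ h0.le (le_max_left _ _) n) hC.le
  have e2 : C' * γ' ^ n ≤ C' * (max γ γ') ^ n :=
    mul_le_mul_of_nonneg_left (pow_le_pow_left₀ h0'.le (le_max_right _ _) n) hC'.le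
  have := h2 n
  have := h2' n
  have e3 : (C + C') * (max γ γ') ^ n = C * (max γ γ') ^ n + C' * (max γ γ') ^ n := by ring
  linarith

lemma Sm.poly (D : ℝ) (hD : 0 ≤ D) (p : ℕ) {θ : ℝ} (h0 : 0 ≤ θ) (h1 : θ < 1/2) :
    Sm (fun n => D * (((n:ℝ) + 1) ^ p * θ ^ n)) := by
  set θ' := max θ (1/4) with hθ'
  have hθ'0 : 0 < θ' := lt_max_of_lt_right (by norm_num)
  have hθ'1 : θ' < 1/2 := max_lt h1 (by norm_num)
  set γ := (θ' + 1/2) / 2 with hγ
  have hγ0 : 0 < γ := by positivity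
  have hγ1 : γ < 1/2 := by rw [hγ]; linarith
  have hlt : θ' < γ := by rw [hγ]; linarith
  have hr : 1 < γ / θ' := by rw [lt_div_iff₀ hθ'0]; linarith
  obtain ⟨C, hC, h⟩ := poly_le_exp p (Real.log_pos hr)
  refine ⟨D * C + 1, γ, by positivity, hγ0, hγ1, ?_⟩
  intro n
  have e1 := h n
  have e2 : Real.exp (Real.log (γ / θ') * n) = (γ / θ') ^ n := by
    rw [mul_comm, Real.exp_nat_mul, Real.exp_log (by linarith)]
  rw [e2] at e1
  have e3 : θ ^ n ≤ θ' ^ n := pow_le_pow_left₀ h0 (le_max_left _ _) n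
  have hX : 0 ≤ ((n:ℝ) + 1) ^ p := by positivity
  calc D * (((n:ℝ) + 1) ^ p * θ ^ n) ≤ D * ((C * (γ / θ') ^ n) * θ' ^ n) := by
        apply mul_le_mul_of_nonneg_left _ hD
        exact mul_le_mul e1 e3 (by positivity) (by positivity)
    _ = D * C * γ ^ n := by
        rw [div_pow]
        have : θ' ^ n ≠ 0 := by positivity
        field_simp
    _ ≤ (D * C + 1) * γ ^ n := by
        apply mul_le_mul_of_nonneg_right _ (by positivity)
        linarith

variable {n : ℕ}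

lemma card_lows : ((((smallSets n).image compl).card : ℕ) : ℝ) ≤ Real.exp (6/100 * n) := by
  refine le_trans ?_ card_smallSets
  exact_mod_cast Finset.card_image_le

lemma mem_lows {T : Finset (Fin n)} (h : Tᶜ ∈ smallSets n) : T ∈ (smallSets n).image compl :=
  Finset.mem_image.2 ⟨Tᶜ, h, compl_compl T⟩

lemma card_patEvt (C : ℕ) (hC : 1 ≤ C) :
    (Nat.card {A : Fin n × Fin n → Bool // PatEvt C A} : ℝ)
      ≤ 2 ^ (n * n) * (2 ^ (2 ^ C) * (((n:ℝ) + 1) ^ C * (1/2 - (1/2) ^ C) ^ n)) := by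
  classical
  let Q := (patFams n C).filter (fun p => 1 ≤ p.1.card ∧ p.2.card + 1 ≤ 2 ^ (p.1.card - 1))
  have h1 := natCard_exists_le Q (fun p (A : Fin n × Fin n → Bool) => ∀ c ∈ (univ : Finset (Fin n)),
      colS A c ∩ p.1 ∈ p.2) (2 ^ (n * n) * (1/2 - (1/2) ^ C) ^ n) (by
    rintro ⟨S, F⟩ hp
    rw [Finset.mem_filter, mem_patFams] at hp
    obtain ⟨⟨hSC, _⟩, hS1, hF⟩ := hp
    refine le_trans (card_col S univ F) ?_
    simp only [Finset.card_univ, Fintype.card_fin]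
    have hF' : (F.card : ℝ) ≤ 2 ^ S.card * (1/2 - (1/2) ^ C) := by
      have h2 : (F.card : ℝ) + 1 ≤ 2 ^ (S.card - 1) := by exact_mod_cast hF
      have h3 : (2:ℝ) ^ S.card = 2 * 2 ^ (S.card - 1) := by
        rw [← pow_succ']; congr 1; simp only at hS1; omega
      have h4 : (2:ℝ) ^ S.card * (1/2) ^ C ≤ 1 := by
        rw [one_div, inv_pow, ← div_eq_mul_inv, div_le_one (by positivity)]
        exact pow_le_pow_right₀ (by norm_num) hSC
      rw [mul_sub, h3]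
      rw [h3] at h4
      linarith
    have hθ : (0:ℝ) ≤ 1/2 - (1/2) ^ C := by
      have : ((1:ℝ)/2) ^ C ≤ (1/2) ^ 1 := pow_le_pow_of_le_one (by norm_num) (by norm_num) hC
      linarith
    calc (F.card : ℝ) ^ n * (2 ^ (n * n) * (1/2) ^ (S.card * n))
        ≤ (2 ^ S.card * (1/2 - (1/2) ^ C)) ^ n * (2 ^ (n * n) * (1/2) ^ (S.card * n)) := by
          apply mul_le_mul_of_nonneg_right _ (by positivity)
          exact pow_le_pow_left₀ (by positivity) hF' n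
      _ = (2 ^ (S.card * n) * (1/2) ^ (S.card * n)) * (2 ^ (n * n) * (1/2 - (1/2) ^ C) ^ n) := by
          rw [mul_pow, ← pow_mul]; ring
      _ = 2 ^ (n * n) * (1/2 - (1/2) ^ C) ^ n := by
          rw [← mul_pow]; norm_num)
  have hθ : (0:ℝ) ≤ 1/2 - (1/2) ^ C := by
    have : ((1:ℝ)/2) ^ C ≤ (1/2) ^ 1 := pow_le_pow_of_le_one (by norm_num) (by norm_num) hC
    linarith
  have hQ : (Q.card : ℝ) ≤ ((n:ℝ) + 1) ^ C * 2 ^ (2 ^ C) := by
    have := le_trans (Finset.card_filter_le _ _ : Q.card ≤ (patFams n C).card) (card_patFams C)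
    exact_mod_cast this
  refine le_trans (natCard_mono ?_) (le_trans h1 ?_)
  · rintro A ⟨S, F, h1, h2, h3, h4, h5⟩
    exact ⟨(S, F), Finset.mem_filter.2 ⟨mem_patFams.2 ⟨h1, h2⟩, h3, h4⟩, fun c _ => h5 c⟩
  · calc (Q.card : ℝ) * (2 ^ (n * n) * (1/2 - (1/2) ^ C) ^ n)
        ≤ (((n:ℝ) + 1) ^ C * 2 ^ (2 ^ C)) * (2 ^ (n * n) * (1/2 - (1/2) ^ C) ^ n) :=
          mul_le_mul_of_nonneg_right hQ (by positivity)
      _ = _ := by ring

lemma card_stripEvt (q H : ℕ) (hq : q = H + 400) :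
    (Nat.card {A : Fin n × Fin n → Bool // StripEvt q H A} : ℝ)
      ≤ 2 ^ (n * n) * (2 ^ (2 ^ q) * (((n:ℝ) + 1) ^ q * (1/8) ^ n)) := by
  classical
  let Q : Finset ((Finset (Fin n) × Finset (Finset (Fin n))) × Finset (Fin n)) :=
    ((patFams n q) ×ˢ univ).filter
      (fun p => p.1.1.card = q ∧ p.1.2.card ≤ 2 ^ H ∧ n < 100 * p.2.card)
  have h1 := natCard_exists_le Q (fun p (A : Fin n × Fin n → Bool) => ∀ c ∈ p.2,
      colS A c ∩ p.1.1 ∈ p.1.2) (2 ^ (n * n) * (1/16) ^ n) (by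
    rintro ⟨⟨S, F⟩, Z⟩ hp
    rw [Finset.mem_filter] at hp
    obtain ⟨_, hS1, hF, hZ⟩ := hp
    simp only at hS1 hF hZ ⊢
    refine le_trans (card_col S Z F) ?_
    have hF' : (F.card : ℝ) ≤ 2 ^ H := by exact_mod_cast hF
    have hqZ : S.card * Z.card = H * Z.card + 400 * Z.card := by rw [hS1, hq, add_mul]
    have h16 : ((1:ℝ)/2) ^ (400 * Z.card) ≤ (1/16) ^ n := by
      have : ((1:ℝ)/16) ^ n = (1/2) ^ (4 * n) := by rw [pow_mul]; norm_num
      rw [this]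
      exact pow_le_pow_of_le_one (by norm_num) (by norm_num) (by omega)
    rw [hqZ, pow_add]
    generalize ((1:ℝ)/2) ^ (400 * Z.card) = y at h16 ⊢
    have hy : (0:ℝ) ≤ (1/16) ^ n := by positivity
    calc (F.card : ℝ) ^ Z.card * (2 ^ (n * n) * ((1/2) ^ (H * Z.card) * y))
        ≤ (F.card : ℝ) ^ Z.card * (2 ^ (n * n) * ((1/2) ^ (H * Z.card) * (1/16) ^ n)) := by
          apply mul_le_mul_of_nonneg_left _ (by positivity)
          apply mul_le_mul_of_nonneg_left _ (by positivity)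
          exact mul_le_mul_of_nonneg_left h16 (by positivity)
      _ ≤ (2 ^ H) ^ Z.card * (2 ^ (n * n) * ((1/2) ^ (H * Z.card) * (1/16) ^ n)) := by
          apply mul_le_mul_of_nonneg_right _ (by positivity)
          exact pow_le_pow_left₀ (by positivity) hF' _
      _ = (2 ^ (H * Z.card) * (1/2) ^ (H * Z.card)) * (2 ^ (n * n) * (1/16) ^ n) := by
          rw [← pow_mul]; ring
      _ = 2 ^ (n * n) * (1/16) ^ n := by
          rw [← mul_pow]; norm_num)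
  have hQ : (Q.card : ℝ) ≤ (((n:ℝ) + 1) ^ q * 2 ^ (2 ^ q)) * 2 ^ n := by
    have h2 : Q.card ≤ (patFams n q).card * 2 ^ n := by
      refine le_trans (Finset.card_filter_le _ _) ?_
      rw [Finset.card_product, Finset.card_univ, Fintype.card_finset, Fintype.card_fin]
    have h3 := le_trans h2 (Nat.mul_le_mul_right _ (card_patFams (n := n) q))
    exact_mod_cast h3
  refine le_trans (natCard_mono ?_) (le_trans h1 ?_)
  · rintro A ⟨S, F, h1, h2, h3, Z, h4, h5⟩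
    refine ⟨((S, F), Z), Finset.mem_filter.2 ⟨Finset.mem_product.2
      ⟨mem_patFams.2 ⟨h1.le, h2⟩, Finset.mem_univ _⟩, h1, h3, h4⟩, h5⟩
  · calc (Q.card : ℝ) * (2 ^ (n * n) * (1/16) ^ n)
        ≤ ((((n:ℝ) + 1) ^ q * 2 ^ (2 ^ q)) * 2 ^ n) * (2 ^ (n * n) * (1/16) ^ n) :=
          mul_le_mul_of_nonneg_right hQ (by positivity)
      _ = 2 ^ (n * n) * (2 ^ (2 ^ q) * (((n:ℝ) + 1) ^ q * (2 ^ n * (1/16) ^ n))) := by
          ring
      _ = _ := by rw [← mul_pow]; norm_num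

lemma exp_pow_mul (a b : ℝ) : Real.exp (a * n) * b ^ n = (Real.exp a * b) ^ n := by
  rw [mul_pow, ← Real.exp_nat_mul, mul_comm a]

lemma card_twoLow :
    (Nat.card {A : Fin n × Fin n → Bool // TwoLow A} : ℝ)
      ≤ 2 ^ (n * n) * (1 * (((n:ℝ) + 1) ^ 2 * (Real.exp (12/100) * (1/4)) ^ n)) := by
  classical
  let Q : Finset (Fin n × Fin n) := univ.filter (fun p => p.1 ≠ p.2)
  have h1 := natCard_exists_le Q (fun p (A : Fin n × Fin n → Bool) =>
      rowS A p.1 ∈ (smallSets n).image compl ∧ rowS A p.2 ∈ (smallSets n).image compl)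
      (2 ^ (n * n) * (Real.exp (12/100) * (1/4)) ^ n) (by
    rintro ⟨b, b'⟩ hp
    rw [Finset.mem_filter] at hp
    refine le_trans (card_two_rows b b' hp.2 _) ?_
    have h2 : ((((smallSets n).image compl).card : ℕ) : ℝ) ^ 2 ≤ Real.exp (6/100 * n) ^ 2 :=
      pow_le_pow_left₀ (by positivity) card_lows 2
    calc _ ≤ Real.exp (6/100 * n) ^ 2 * (2 ^ (n * n) * (1/2) ^ (n + n)) :=
          mul_le_mul_of_nonneg_right h2 (by positivity)
      _ = 2 ^ (n * n) * (Real.exp (12/100 * n) * (1/4) ^ n) := by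
          rw [← Real.exp_nat_mul, pow_add, ← mul_pow]
          have : ((2:ℕ):ℝ) * (6/100 * (n:ℝ)) = 12/100 * n := by push_cast; ring
          rw [this]; norm_num; ring
      _ ≤ _ := by rw [exp_pow_mul])
  have hQ : (Q.card : ℝ) ≤ ((n:ℝ) + 1) ^ 2 := by
    have h2 : Q.card ≤ (n + 1) ^ 2 := by
      refine le_trans (Finset.card_filter_le _ _) ?_
      rw [Finset.card_univ, Fintype.card_prod, Fintype.card_fin]
      nlinarith
    exact_mod_cast h2
  refine le_trans (natCard_mono ?_) (le_trans h1 ?_)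
  · rintro A ⟨b, b', h1, h2, h3⟩
    exact ⟨(b, b'), Finset.mem_filter.2 ⟨Finset.mem_univ _, h1⟩, mem_lows h2, mem_lows h3⟩
  · calc _ ≤ ((n:ℝ) + 1) ^ 2 * (2 ^ (n * n) * (Real.exp (12/100) * (1/4)) ^ n) :=
          mul_le_mul_of_nonneg_right hQ (by positivity)
      _ = _ := by ring

lemma card_lowPat (C : ℕ) :
    (Nat.card {A : Fin n × Fin n → Bool // LowPat C A} : ℝ)
      ≤ 2 ^ (n * n) * (2 ^ (2 ^ C) * (((n:ℝ) + 1) ^ (C + 1) * (Real.exp (6/100) * (3/8)) ^ n)) := by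
  classical
  let Q : Finset (Fin n × (Finset (Fin n) × Finset (Finset (Fin n)))) :=
    (univ ×ˢ (patFams n C)).filter (fun p => p.1 ∉ p.2.1 ∧ 4 * p.2.2.card ≤ 3 * 2 ^ p.2.1.card)
  have h1 := natCard_exists_le Q (fun p (A : Fin n × Fin n → Bool) =>
      rowS A p.1 ∈ (smallSets n).image compl ∧ ∀ c, colS A c ∩ p.2.1 ∈ p.2.2)
      (2 ^ (n * n) * (Real.exp (6/100) * (3/8)) ^ n) (by
    rintro ⟨b, S, F⟩ hp
    rw [Finset.mem_filter] at hp
    obtain ⟨_, hb, hF⟩ := hp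
    simp only at hb hF ⊢
    refine le_trans (card_rowcol b _ S hb F) ?_
    have hF' : (F.card : ℝ) ≤ 3/4 * 2 ^ S.card := by
      have : 4 * (F.card : ℝ) ≤ 3 * 2 ^ S.card := by exact_mod_cast hF
      linarith
    calc _ ≤ Real.exp (6/100 * n) * (3/4 * 2 ^ S.card) ^ n * (2 ^ (n * n) * (1/2) ^ (n + S.card * n)) := by
          apply mul_le_mul_of_nonneg_right _ (by positivity)
          apply mul_le_mul card_lows (pow_le_pow_left₀ (by positivity) hF' n) (by positivity)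
            (Real.exp_pos _).le
      _ = 2 ^ (n * n) * (Real.exp (6/100 * n) * (3/8) ^ n * (2 ^ (S.card * n) * (1/2) ^ (S.card * n))) := by
          rw [mul_pow, ← pow_mul, pow_add]
          have : ((3:ℝ)/8) ^ n = (3/4) ^ n * (1/2) ^ n := by rw [← mul_pow]; norm_num
          rw [this]; ring
      _ = 2 ^ (n * n) * (Real.exp (6/100 * n) * (3/8) ^ n) := by
          rw [← mul_pow]; norm_num
      _ ≤ _ := by rw [exp_pow_mul])
  have hQ : (Q.card : ℝ) ≤ ((n:ℝ) + 1) ^ (C + 1) * 2 ^ (2 ^ C) := by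
    have h2 : Q.card ≤ (n + 1) ^ (C + 1) * 2 ^ (2 ^ C) := by
      refine le_trans (Finset.card_filter_le _ _) ?_
      rw [Finset.card_product, Finset.card_univ, Fintype.card_fin]
      calc n * (patFams n C).card ≤ (n + 1) * ((n + 1) ^ C * 2 ^ (2 ^ C)) :=
            Nat.mul_le_mul (Nat.le_succ n) (card_patFams C)
        _ = _ := by ring
    exact_mod_cast h2
  refine le_trans (natCard_mono ?_) (le_trans h1 ?_)
  · rintro A ⟨b, h1, S, F, h2, h3, h4, h5, h6⟩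
    exact ⟨(b, (S, F)), Finset.mem_filter.2 ⟨Finset.mem_product.2 ⟨Finset.mem_univ _,
      mem_patFams.2 ⟨h2, h3⟩⟩, h4, h5⟩, mem_lows h1, h6⟩
  · calc _ ≤ (((n:ℝ) + 1) ^ (C + 1) * 2 ^ (2 ^ C)) * (2 ^ (n * n) * (Real.exp (6/100) * (3/8)) ^ n) :=
          mul_le_mul_of_nonneg_right hQ (by positivity)
      _ = _ := by ring

end Pool.Agent.H47
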