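import Mathlib
import Pool.Agent.H47.Cnt

/-!
Almost all matrices of Schein rank less than `n` have a row that is a union of other rows, or a
column that is a union of other columns.
-/

open Finset

namespace Pool.Agent.H47

lemma structure_E (m : ℕ) : ∃ N0 : ℕ, ∀ n k : ℕ, N0 ≤ n → k + 1 = n →
    ∀ (A : Fin n × Fin n → Bool) (U V : Fin k → Finset (Fin n)), Good m 8 A → Covers A U V →
    (∃ E : Finset (Fin n), E.card ≤ 512 * m + 500 * (1024 * m + 32) ∧
      ∀ i, i ∉ E → ∃ t, U t ∩ Eᶜ = {i}) ∨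
    (∃ E : Finset (Fin n), E.card ≤ 512 * m + 500 * (1024 * m + 32) ∧
      ∀ i, i ∉ E → ∃ t, V t ∩ Eᶜ = {i}) := by
  classical
  refine ⟨16 * (1024 * m + 32) * 2 ^ 37 + 1000 * (1024 * m + 32) + 128, ?_⟩
  intro n k hn hk A U V hG hcov
  obtain ⟨R, R', W, hR, hR', hW, hT⟩ := hG
  have hn' : (16 * (1024 * (m:ℝ) + 32) * 2 ^ 37 + 1000 * (1024 * m + 32) + 128 : ℝ) ≤ n := by
    exact_mod_cast hn
  have hm0 : (0:ℝ) ≤ m := Nat.cast_nonneg _
  have hnpos : (0:ℝ) < n := by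
    have : (0:ℝ) ≤ 16 * (1024 * (m:ℝ) + 32) * 2 ^ 37 := by positivity
    have : (0:ℝ) ≤ 1000 * (1024 * (m:ℝ) + 32) := by positivity
    linarith
  have hX : 16 * (1024 * (m:ℝ) + 32) * 2 ^ 37 < n := by
    have : (0:ℝ) ≤ 1000 * (1024 * (m:ℝ) + 32) := by positivity
    linarith
  have hX2 : 16 * (1024 * (m:ℝ) + 32) * n < n ^ 2 / 2 ^ 37 := by
    rw [lt_div_iff₀ (by positivity)]
    calc 16 * (1024 * (m:ℝ) + 32) * (n:ℝ) * 2 ^ 37 = (16 * (1024 * (m:ℝ) + 32) * 2 ^ 37) * (n:ℝ) := by ring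
      _ < (n:ℝ) * n := mul_lt_mul_of_pos_right hX hnpos
      _ = (n:ℝ) ^ 2 := by ring
  have hn2 : (0:ℝ) < (n:ℝ) ^ 2 := by positivity
  have hRc : (n:ℝ) - 512 * m ≤ R.card := by
    have h1 := Finset.card_add_card_compl R
    rw [Fintype.card_fin] at h1
    have h2 : (n:ℝ) = R.card + Rᶜ.card := by exact_mod_cast h1.symm
    have h3 : (Rᶜ.card : ℝ) ≤ 512 * m := by exact_mod_cast hR
    linarith
  have hRc' : (n:ℝ) - 512 * m ≤ R'.card := by
    have h1 := Finset.card_add_card_compl R'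
    rw [Fintype.card_fin] at h1
    have h2 : (n:ℝ) = R'.card + R'ᶜ.card := by exact_mod_cast h1.symm
    have h3 : (R'ᶜ.card : ℝ) ≤ 512 * m := by exact_mod_cast hR'
    linarith
  have hbig : 1000 * ((1024 * (m:ℝ)) + 32) ≤ n := by
    have : (0:ℝ) ≤ 16 * (1024 * (m:ℝ) + 32) * 2 ^ 37 := by positivity
    linarith
  have h := structure_of_cover (s := 1024 * m) (ω := 32) hT (by positivity) (by norm_num)
    (by positivity) (by norm_num) (by
      have : (4:ℝ) * ((8:ℕ):ℝ) * n = 32 * n := by push_cast; ring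
      linarith) (by omega) hbig (by
      have : 15 * (2 * ((1:ℝ)/2^42) + 1/2^42) * n ^ 2 + (n:ℝ) ^ 2 / 2 ^ 37 < 1/2^35 * n ^ 2 := by
        have : 15 * (2 * ((1:ℝ)/2^42) + 1/2^42) * n ^ 2 + (n:ℝ) ^ 2 / 2 ^ 37
          = (15 * (2 * ((1:ℝ)/2^42) + 1/2^42) + 1 / 2 ^ 37) * n ^ 2 := by ring
        rw [this]
        exact mul_lt_mul_of_pos_right (by norm_num) hn2
      linarith) (by
      have : 15 * (2 * ((1:ℝ)/2^42) + 1/2^42) * n ^ 2 + (n:ℝ) ^ 2 / 2 ^ 37 < (n:ℝ) ^ 2 / 4096 := by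
        have e1 : 15 * (2 * ((1:ℝ)/2^42) + 1/2^42) * n ^ 2 + (n:ℝ) ^ 2 / 2 ^ 37
          = (15 * (2 * ((1:ℝ)/2^42) + 1/2^42) + 1 / 2 ^ 37) * n ^ 2 := by ring
        have e2 : (n:ℝ) ^ 2 / 4096 = (1/4096) * n ^ 2 := by ring
        rw [e1, e2]
        exact mul_lt_mul_of_pos_right (by norm_num) hn2
      linarith) hcov (by
      have : (k:ℝ) + 1 = n := by exact_mod_cast hk
      linarith)
  have key : ∀ (Q : Finset (Fin n)) (F : Fin k → Finset (Fin n)), Qᶜ.card ≤ 512 * m →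
      ((Q.filter (fun i => ∀ t, F t ∩ Q ≠ {i})).card : ℝ) ≤ 500 * (1024 * m + 32) →
      ∃ E : Finset (Fin n), E.card ≤ 512 * m + 500 * (1024 * m + 32) ∧
      ∀ i, i ∉ E → ∃ t, F t ∩ Eᶜ = {i} := by
    intro Q F hQ hF
    refine ⟨Qᶜ ∪ Q.filter (fun i => ∀ t, F t ∩ Q ≠ {i}), ?_, ?_⟩
    · have h1 : (Q.filter (fun i => ∀ t, F t ∩ Q ≠ {i})).card ≤ 500 * (1024 * m + 32) := by
        exact_mod_cast hF
      exact le_trans (Finset.card_union_le _ _) (by omega)
    · intro i hi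
      rw [Finset.mem_union, Finset.mem_compl, Finset.mem_filter] at hi
      push Not at hi
      obtain ⟨hiQ, hi2⟩ := hi
      obtain ⟨t, ht⟩ := hi2 hiQ
      refine ⟨t, ?_⟩
      ext x
      rw [Finset.mem_inter, Finset.mem_compl, Finset.mem_union, Finset.mem_compl,
        Finset.mem_filter, Finset.mem_singleton]
      push Not
      constructor
      · rintro ⟨hxt, hxQ, _⟩
        have : x ∈ F t ∩ Q := Finset.mem_inter.2 ⟨hxt, hxQ⟩
        rw [ht, Finset.mem_singleton] at this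
        exact this
      · rintro rfl
        have : x ∈ F t ∩ Q := by rw [ht]; exact Finset.mem_singleton_self x
        exact ⟨(Finset.mem_inter.1 this).1, hiQ, fun _ => ⟨t, ht⟩⟩
  rcases h with h | h
  · exact Or.inl (key R U hR h)
  · exact Or.inr (key R' V hR' h)

/-- Being a union of `n - 1` rectangles. -/
def LowRank {n : ℕ} (A : Fin n × Fin n → Bool) : Prop :=
  ∃ (k : ℕ) (U V : Fin k → Finset (Fin n)), k + 1 = n ∧ Covers A U V

def Evts (H q : ℕ) {n : ℕ} (A : Fin n × Fin n → Bool) : Prop :=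
  PatEvt (H + H * q) A ∨ StripEvt q H A ∨ TwoLow A ∨ LowPat (H + H * q + 2) A

lemma card_evts (H q : ℕ) (hH : 1 ≤ H) (hq : q = H + 400) : ∃ f : ℕ → ℝ, Sm f ∧ ∀ n : ℕ,
    (Nat.card {A : Fin n × Fin n → Bool // Evts H q A} : ℝ) ≤ 2 ^ (n * n) * f n := by
  have e6 : Real.exp (6/100) ≤ 107/100 := by
    have := Real.exp_bound' (x := 6/100) (by norm_num) (by norm_num) (n := 3) (by norm_num)
    refine le_trans this ?_
    norm_num [Finset.sum_range_succ, Nat.factorial]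
  have e12 : Real.exp (12/100) ≤ 115/100 := by
    have := Real.exp_bound' (x := 12/100) (by norm_num) (by norm_num) (n := 3) (by norm_num)
    refine le_trans this ?_
    norm_num [Finset.sum_range_succ, Nat.factorial]
  set C1 := H + H * q with hC1
  set C2 := H + H * q + 2 with hC2
  have hC11 : 1 ≤ C1 := by omega
  have hθ0 : (0:ℝ) ≤ 1/2 - (1/2) ^ C1 := by
    have : ((1:ℝ)/2) ^ C1 ≤ (1/2) ^ 1 := pow_le_pow_of_le_one (by norm_num) (by norm_num) hC11
    linarith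
  have hθ1 : (1/2 - (1/2) ^ C1 : ℝ) < 1/2 := by
    have : (0:ℝ) < (1/2) ^ C1 := by positivity
    linarith
  have s1 := Sm.poly (2 ^ (2 ^ C1)) (by positivity) C1 hθ0 hθ1
  have s2 := Sm.poly (2 ^ (2 ^ q)) (by positivity) q (θ := 1/8) (by norm_num) (by norm_num)
  have s3 := Sm.poly 1 (by positivity) 2 (θ := Real.exp (12/100) * (1/4)) (by positivity)
    (by linarith)
  have s4 := Sm.poly (2 ^ (2 ^ C2)) (by positivity) (C2 + 1) (θ := Real.exp (6/100) * (3/8))
    (by positivity) (by linarith)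
  refine ⟨_, s1.add (s2.add (s3.add s4)), ?_⟩
  intro n
  have h1 := natCard_or_le (α := Fin n × Fin n → Bool) (fun A => PatEvt C1 A)
    (fun A => StripEvt q H A ∨ TwoLow A ∨ LowPat C2 A)
  have h2 := natCard_or_le (α := Fin n × Fin n → Bool) (fun A => StripEvt q H A)
    (fun A => TwoLow A ∨ LowPat C2 A)
  have h3 := natCard_or_le (α := Fin n × Fin n → Bool) (fun A => TwoLow A) (fun A => LowPat C2 A)
  have g1 := card_patEvt (n := n) C1 hC11
  have g2 := card_stripEvt (n := n) q H hq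
  have g3 := card_twoLow (n := n)
  have g4 := card_lowPat (n := n) C2
  have e : (Nat.card {A : Fin n × Fin n → Bool // Evts H q A} : ℝ)
    = (Nat.card {A : Fin n × Fin n → Bool // PatEvt C1 A ∨ StripEvt q H A ∨ TwoLow A ∨ LowPat C2 A} : ℝ) :=
    rfl
  rw [e, mul_add, mul_add, mul_add]
  linarith

theorem card_noJoin : ∃ f : ℕ → ℝ, Sm f ∧ ∃ N0 : ℕ, ∀ n : ℕ, N0 ≤ n →
    (Nat.card {A : Fin n × Fin n → Bool // LowRank A ∧ ¬ (∃ b, RowJoin A b) ∧
      ¬ (∃ b, RowJoin (tr A) b)} : ℝ) ≤ 2 ^ (n * n) * f n := by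
  obtain ⟨m, hm⟩ : ∃ m : ℕ, (3/2 : ℝ) < ((1:ℝ)/2^42) ^ 2 / 2 * ((m + 1 : ℕ) : ℝ) := by
    obtain ⟨m, hm⟩ := exists_nat_gt ((3/2 : ℝ) / (((1:ℝ)/2^42) ^ 2 / 2))
    refine ⟨m, ?_⟩
    rw [div_lt_iff₀ (by positivity)] at hm
    push_cast
    nlinarith [show (0:ℝ) < ((1:ℝ)/2^42) ^ 2 / 2 by positivity]
  obtain ⟨CF, hCF, hF⟩ := failSum_le (η := 1/2^42) (by positivity) m 8 (K := 3/2) (by norm_num)
    (by norm_num) hm
  obtain ⟨N1, hN1⟩ := structure_E m
  set H := 512 * m + 500 * (1024 * m + 32) with hH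
  obtain ⟨q, hq⟩ : ∃ q : ℕ, q = H + 400 := ⟨_, rfl⟩
  obtain ⟨f, hf, hf2⟩ := card_evts H q (by omega) hq
  have hexp : Real.exp (- (3/2)) < 1/2 := by
    have h1 : (2:ℝ) < Real.exp (3/2) := by
      have := Real.add_one_lt_exp (x := 3/2) (by norm_num)
      linarith
    rw [Real.exp_neg, inv_lt_comm₀ (Real.exp_pos _) (by norm_num)]
    linarith
  have sF : Sm (fun n => CF * Real.exp (- (3/2)) ^ n) :=
    ⟨CF, Real.exp (- (3/2)), hCF, Real.exp_pos _, hexp, fun n => le_rfl⟩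
  refine ⟨_, sF.add (hf.add hf), max (max N1 60000) 2, ?_⟩
  intro n hn
  have hn1 : N1 ≤ n := le_trans (le_trans (le_max_left _ _) (le_max_left _ _)) hn
  have hn6 : 60000 ≤ n := le_trans (le_trans (le_max_right _ _) (le_max_left _ _)) hn
  have hn2 : 2 ≤ n := le_trans (le_max_right _ _) hn
  have h0 := natCard_mono (α := Fin n × Fin n → Bool)
    (P := fun A => LowRank A ∧ ¬ (∃ b, RowJoin A b) ∧ ¬ (∃ b, RowJoin (tr A) b))
    (Q := fun A => ¬ Good m 8 A ∨ Evts H q A ∨ Evts H q (tr A)) (by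
      rintro A ⟨⟨k, U, V, hk, hcov⟩, hj1, hj2⟩
      by_cases hG : Good m 8 A
      swap
      · exact Or.inl hG
      right
      rcases hN1 n k hn1 hk A U V hG hcov with ⟨E, hE, hτ⟩ | ⟨E, hE, hτ⟩
      · left
        rcases join_or_events hk hn2 hcov E hE hτ (q := q) with h | h | h | h | h
        · exact Or.inl h
        · exact Or.inr (Or.inl h)
        · exact Or.inr (Or.inr (Or.inl h))
        · exact Or.inr (Or.inr (Or.inr h))
        · exact absurd h hj1
      · right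
        have hcov' : Covers (tr A) V U := by
          intro i c
          have := hcov c i
          unfold tr
          rw [this]
          constructor
          · rintro ⟨t, h1, h2⟩; exact ⟨t, h2, h1⟩
          · rintro ⟨t, h1, h2⟩; exact ⟨t, h2, h1⟩
        rcases join_or_events hk hn2 hcov' E hE hτ (q := q) with h | h | h | h | h
        · exact Or.inl h
        · exact Or.inr (Or.inl h)
        · exact Or.inr (Or.inr (Or.inl h))
        · exact Or.inr (Or.inr (Or.inr h))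
        · exact absurd h hj2)
  have h1 := natCard_or_le (α := Fin n × Fin n → Bool) (fun A => ¬ Good m 8 A)
    (fun A => Evts H q A ∨ Evts H q (tr A))
  have h2 := natCard_or_le (α := Fin n × Fin n → Bool) (fun A => Evts H q A)
    (fun A => Evts H q (tr A))
  have h3 := card_tr (n := n) (fun A => Evts H q A)
  have h3' : (Nat.card {A : Fin n × Fin n → Bool // Evts H q (tr A)} : ℝ)
      = (Nat.card {A : Fin n × Fin n → Bool // Evts H q A} : ℝ) := by exact_mod_cast h3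
  rw [h3'] at h2
  have g1 := card_not_good m 8 hn6
  have g2 := hF n
  have g3 := hf2 n
  have g4 : 2 ^ (n * n) * failSum (1/2^42) m 8 n
      ≤ 2 ^ (n * n) * (CF * Real.exp (- (3/2)) ^ n) := by
    apply mul_le_mul_of_nonneg_left _ (by positivity)
    refine le_trans g2 (le_of_eq ?_)
    rw [← Real.exp_nat_mul]
    congr 2; ring
  simp only [mul_add]
  linarith

end Pool.Agent.H47
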