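import Mathlib
import Pool.Agent.H47.Upper
import Pool.Agent.H47.Exact

/-!
Bounds for two lines (rows or columns) being unions of others at the same time.
-/

open Finset

namespace Pool.Agent.H47

variable {n : ℕ}

/-- A large all-zero rectangle. -/
def ZB (A : Fin n × Fin n → Bool) : Prop :=
  ∃ U V : Finset (Fin n), n < 100 * U.card ∧ n < 100 * V.card ∧ ∀ i ∈ U, ∀ c ∈ V, A (i, c) = false

/-- A short description of row `b`. -/
def Desc (A : Fin n × Fin n → Bool) (b : Fin n) (α : Bool × Finset (Fin n)) : Prop :=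
  (α.1 = true ∧ ∀ c, A (b, c) = true ↔ c ∉ α.2) ∨
  (α.1 = false ∧ b ∉ α.2 ∧ ∀ c, A (b, c) = true ↔ ∃ i ∈ α.2, A (i, c) = true)

lemma desc_of_rowJoin {A : Fin n × Fin n → Bool} {b : Fin n} (h : RowJoin A b) :
    ZB A ∨ ∃ α ∈ (univ : Finset Bool) ×ˢ smallSets n, Desc A b α := by
  classical
  obtain ⟨S, hb, hS⟩ := h
  by_cases h1 : S ∈ smallSets n
  · right
    exact ⟨(false, S), Finset.mem_product.2 ⟨Finset.mem_univ _, h1⟩, Or.inr ⟨rfl, hb, hS⟩⟩
  set Z : Finset (Fin n) := univ.filter (fun c => A (b, c) = false) with hZ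
  by_cases h2 : Z ∈ smallSets n
  · right
    refine ⟨(true, Z), Finset.mem_product.2 ⟨Finset.mem_univ _, h2⟩, Or.inl ⟨rfl, ?_⟩⟩
    intro c
    simp only [hZ, Finset.mem_filter, Finset.mem_univ, true_and]
    simp
  left
  refine ⟨S, Z, ?_, ?_, ?_⟩
  · by_contra hc
    push Not at hc
    exact h1 (Finset.mem_filter.2 ⟨Finset.mem_univ _, hc⟩)
  · by_contra hc
    push Not at hc
    exact h2 (Finset.mem_filter.2 ⟨Finset.mem_univ _, hc⟩)
  · intro i hi c hc
    rw [hZ, Finset.mem_filter] at hc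
    by_contra hne
    have h3 : A (i, c) = true := by simpa using hne
    have := (hS c).2 ⟨i, hi, h3⟩
    rw [hc.2] at this
    exact Bool.noConfusion this

lemma card_ZB :
    (Nat.card {A : Fin n × Fin n → Bool // ZB A} : ℝ)
      ≤ 2 ^ (n * n) * (4 ^ n * Real.exp (- (1/20000 * (n:ℝ) ^ 2))) := by
  classical
  let Q : Finset (Finset (Fin n) × Finset (Fin n)) :=
    univ.filter (fun p => n < 100 * p.1.card ∧ n < 100 * p.2.card)
  have h1 := natCard_exists_le Q (fun p (A : Fin n × Fin n → Bool) => ∀ z ∈ p.1 ×ˢ p.2, A z = false)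
    (2 ^ (n * n) * Real.exp (- (1/20000 * (n:ℝ) ^ 2))) (by
      rintro ⟨U, V⟩ hp
      rw [Finset.mem_filter] at hp
      obtain ⟨_, hU, hV⟩ := hp
      simp only at hU hV ⊢
      have h := card_agree' (U ×ˢ V) (fun _ => false)
      rw [h, Fintype.card_prod, Fintype.card_fin]
      apply mul_le_mul_of_nonneg_left _ (by positivity)
      have h2 : (1:ℝ)/10000 * n ^ 2 ≤ ((U ×ˢ V).card : ℝ) := by
        rw [Finset.card_product]
        push_cast
        have hU' : (n:ℝ) / 100 ≤ U.card := by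
          have : (n:ℝ) < 100 * U.card := by exact_mod_cast hU
          linarith
        have hV' : (n:ℝ) / 100 ≤ V.card := by
          have : (n:ℝ) < 100 * V.card := by exact_mod_cast hV
          linarith
        have hn0 : (0:ℝ) ≤ (n:ℝ) / 100 := by positivity
        have := mul_le_mul hU' hV' hn0 (le_trans hn0 hU')
        nlinarith
      refine le_trans (half_pow_le _ _ h2) ?_
      rw [Real.exp_le_exp]
      nlinarith [sq_nonneg (n:ℝ)])
  have hQ : (Q.card : ℝ) ≤ 4 ^ n := by
    have : Q.card ≤ 4 ^ n := by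
      refine le_trans (Finset.card_filter_le _ _) ?_
      rw [Finset.card_univ, Fintype.card_prod, Fintype.card_finset, Fintype.card_fin, ← mul_pow]
      exact le_rfl
    exact_mod_cast this
  refine le_trans (natCard_mono ?_) (le_trans h1 ?_)
  · rintro A ⟨U, V, hU, hV, h⟩
    refine ⟨(U, V), Finset.mem_filter.2 ⟨Finset.mem_univ _, hU, hV⟩, ?_⟩
    rintro ⟨i, c⟩ hz
    rw [Finset.mem_product] at hz
    exact h i hz.1 c hz.2
  · calc _ ≤ 4 ^ n * (2 ^ (n * n) * Real.exp (- (1/20000 * (n:ℝ) ^ 2))) :=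
          mul_le_mul_of_nonneg_right hQ (by positivity)
      _ = _ := by ring

lemma bool_eq_of_iff {x y : Bool} (h : x = true ↔ y = true) : x = y := by
  cases x <;> cases y
  · rfl
  · exact absurd (h.2 rfl) (by simp)
  · exact absurd (h.1 rfl) (by simp)
  · rfl

lemma desc_det {A A' : Fin n × Fin n → Bool} {b : Fin n} {α : Bool × Finset (Fin n)}
    (h : Desc A b α) (h' : Desc A' b α) (c : Fin n)
    (hag : α.1 = false → ∀ i ∈ α.2, A (i, c) = A' (i, c)) : A (b, c) = A' (b, c) := by
  apply bool_eq_of_iff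
  rcases h with ⟨h1, h2⟩ | ⟨h1, h2, h3⟩
  · rcases h' with ⟨_, h2'⟩ | ⟨h1', _, _⟩
    · rw [h2 c, h2' c]
    · rw [h1] at h1'; exact Bool.noConfusion h1'
  · rcases h' with ⟨h1', _⟩ | ⟨_, _, h3'⟩
    · rw [h1] at h1'; exact Bool.noConfusion h1'
    · rw [h3 c, h3' c]
      constructor
      · rintro ⟨i, hi, hA⟩
        exact ⟨i, hi, by rw [← hag h1 i hi]; exact hA⟩
      · rintro ⟨i, hi, hA⟩
        exact ⟨i, hi, by rw [hag h1 i hi]; exact hA⟩

lemma card_eq_rows (b b' : Fin n) (hb : b ≠ b') :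
    (Nat.card {A : Fin n × Fin n → Bool // ∀ c, A (b, c) = A (b', c)} : ℝ)
      ≤ 2 ^ (n * n) * (1/2) ^ n := by
  classical
  have h := card_determined (({b} : Finset (Fin n)) ×ˢ (univ : Finset (Fin n)))
    (fun A : Fin n × Fin n → Bool => ∀ c, A (b, c) = A (b', c)) (by
      intro A A' h1 h2 h3
      funext z
      obtain ⟨i, c⟩ := z
      by_cases hi : i = b
      · subst hi
        rw [h1 c, h2 c]
        apply h3
        rw [Finset.mem_product, Finset.mem_singleton]
        exact fun h => hb h.1.symm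
      · apply h3
        rw [Finset.mem_product, Finset.mem_singleton]
        exact fun h => hi h.1)
  rw [Fintype.card_prod, Fintype.card_fin, Finset.card_product, Finset.card_singleton,
    Finset.card_univ, Fintype.card_fin, one_mul] at h
  exact h

lemma card_two_desc (b b' : Fin n) (hb : b ≠ b') (α α' : Bool × Finset (Fin n)) :
    (Nat.card {A : Fin n × Fin n → Bool // Desc A b α ∧ Desc A b' α' ∧ ¬ ∀ c, A (b, c) = A (b', c)} : ℝ)
      ≤ 2 ^ (n * n) * (1/4) ^ n := by
  classical
  have h := card_determined (({b, b'} : Finset (Fin n)) ×ˢ (univ : Finset (Fin n)))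
    (fun A : Fin n × Fin n → Bool => Desc A b α ∧ Desc A b' α' ∧ ¬ ∀ c, A (b, c) = A (b', c)) (by
      rintro A A' ⟨h1, h2, h3⟩ ⟨h1', h2', h3'⟩ hag
      have hout : ∀ i, i ≠ b → i ≠ b' → ∀ c, A (i, c) = A' (i, c) := by
        intro i hi hi' c
        apply hag
        rw [Finset.mem_product, Finset.mem_insert, Finset.mem_singleton]
        rintro ⟨h | h, _⟩
        · exact hi h
        · exact hi' h
      have hself : ∀ (B : Fin n × Fin n → Bool) (x : Fin n) (γ : Bool × Finset (Fin n)),
          Desc B x γ → γ.1 = false → x ∉ γ.2 := by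
        intro B x γ h hγ
        rcases h with ⟨h1, _⟩ | ⟨_, h2, _⟩
        · rw [hγ] at h1; exact Bool.noConfusion h1
        · exact h2
      -- if row b is determined then row b' is determined, and conversely
      have key1 : (∀ c, A (b, c) = A' (b, c)) → ∀ c, A (b', c) = A' (b', c) := by
        intro hbb c
        apply desc_det h2 h2' c
        intro hα i hi
        by_cases hib : i = b
        · rw [hib]; exact hbb c
        · exact hout i hib (fun h => hself A b' α' h2 hα (h ▸ hi)) c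
      have key2 : (∀ c, A (b', c) = A' (b', c)) → ∀ c, A (b, c) = A' (b, c) := by
        intro hbb c
        apply desc_det h1 h1' c
        intro hα i hi
        by_cases hib : i = b'
        · rw [hib]; exact hbb c
        · exact hout i (fun h => hself A b α h1 hα (h ▸ hi)) hib c
      have hfin : (∀ c, A (b, c) = A' (b, c)) ∧ ∀ c, A (b', c) = A' (b', c) := by
        by_cases c1 : α.1 = false ∧ b' ∈ α.2
        · by_cases c2 : α'.1 = false ∧ b ∈ α'.2
          · exfalso
            apply h3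
            intro c
            apply bool_eq_of_iff
            constructor
            · intro hA
              rcases h2 with ⟨h4, _⟩ | ⟨_, _, h5⟩
              · rw [c2.1] at h4; exact Bool.noConfusion h4
              · exact (h5 c).2 ⟨b, c2.2, hA⟩
            · intro hA
              rcases h1 with ⟨h4, _⟩ | ⟨_, _, h5⟩
              · rw [c1.1] at h4; exact Bool.noConfusion h4
              · exact (h5 c).2 ⟨b', c1.2, hA⟩
          · have h6 : ∀ c, A (b', c) = A' (b', c) := by
              intro c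
              apply desc_det h2 h2' c
              intro hα i hi
              exact hout i (fun h => c2 ⟨hα, h ▸ hi⟩) (fun h => hself A b' α' h2 hα (h ▸ hi)) c
            exact ⟨key2 h6, h6⟩
        · have h6 : ∀ c, A (b, c) = A' (b, c) := by
            intro c
            apply desc_det h1 h1' c
            intro hα i hi
            exact hout i (fun h => hself A b α h1 hα (h ▸ hi)) (fun h => c1 ⟨hα, h ▸ hi⟩) c
          exact ⟨h6, key1 h6⟩
      funext z
      obtain ⟨i, c⟩ := z
      by_cases hib : i = b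
      · rw [hib]; exact hfin.1 c
      · by_cases hib' : i = b'
        · rw [hib']; exact hfin.2 c
        · exact hout i hib hib' c)
  rw [Fintype.card_prod, Fintype.card_fin, Finset.card_product, Finset.card_pair hb,
    Finset.card_univ, Fintype.card_fin, pow_mul (1/2 : ℝ) 2 n] at h
  have e : ((1/2 : ℝ) ^ 2) = 1/4 := by norm_num
  rw [e] at h
  exact h

lemma card_rc_desc (b c : Fin n) (α α' : Bool × Finset (Fin n)) :
    (Nat.card {A : Fin n × Fin n → Bool // Desc A b α ∧ Desc (tr A) c α'} : ℝ)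
      ≤ 2 ^ (n * n) * (2 * (1/4) ^ n) := by
  classical
  have hself : ∀ (B : Fin n × Fin n → Bool) (x : Fin n) (γ : Bool × Finset (Fin n)),
      Desc B x γ → γ.1 = false → x ∉ γ.2 := by
    intro B x γ h hγ
    rcases h with ⟨h1, _⟩ | ⟨_, h2, _⟩
    · rw [hγ] at h1; exact Bool.noConfusion h1
    · exact h2
  let W : Finset (Fin n × Fin n) := (({b} : Finset (Fin n)) ×ˢ univ) ∪ ((univ.erase b) ×ˢ {c})
  have h := card_determined W (fun A : Fin n × Fin n → Bool => Desc A b α ∧ Desc (tr A) c α') (by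
      rintro A A' ⟨h1, h2⟩ ⟨h1', h2'⟩ hag
      have hout : ∀ i j, i ≠ b → j ≠ c → A (i, j) = A' (i, j) := by
        intro i j hi hj
        apply hag
        simp only [W, Finset.mem_union, Finset.mem_product, Finset.mem_singleton, Finset.mem_erase,
          Finset.mem_univ, and_true]
        rintro (h | h)
        · exact hi h
        · exact hj h.2
      have s1 : ∀ j, j ≠ c → A (b, j) = A' (b, j) := by
        intro j hj
        apply desc_det h1 h1' j
        intro hα i hi
        exact hout i j (fun h => hself A b α h1 hα (h ▸ hi)) hj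
      have s2 : ∀ i, i ≠ b → A (i, c) = A' (i, c) := by
        intro i hi
        have := desc_det h2 h2' i (by
          intro hα j hj
          exact hout i j hi (fun h => hself (tr A) c α' h2 hα (h ▸ hj)))
        exact this
      have s3 : A (b, c) = A' (b, c) := by
        apply desc_det h1 h1' c
        intro hα i hi
        exact s2 i (fun h => hself A b α h1 hα (h ▸ hi))
      funext z
      obtain ⟨i, j⟩ := z
      by_cases hi : i = b
      · subst hi
        by_cases hj : j = c
        · rw [hj]; exact s3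
        · exact s1 j hj
      · by_cases hj : j = c
        · rw [hj]; exact s2 i hi
        · exact hout i j hi hj)
  have hW : W.card = n + (n - 1) := by
    rw [Finset.card_union_of_disjoint, Finset.card_product, Finset.card_product,
      Finset.card_erase_of_mem (Finset.mem_univ _)]
    · simp
    · rw [Finset.disjoint_left]
      rintro ⟨i, j⟩ h1 h2
      rw [Finset.mem_product] at h1 h2
      simp only [Finset.mem_singleton, Finset.mem_erase] at h1 h2
      exact h2.1.1 h1.1
  have hn : 1 ≤ n := by have := b.2; omega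
  rw [Fintype.card_prod, Fintype.card_fin, hW] at h
  refine le_trans h (le_of_eq ?_)
  congr 1
  obtain ⟨k, rfl⟩ := Nat.exists_eq_add_of_le hn
  have e1 : 1 + k + (1 + k - 1) = 2 * k + 1 := by omega
  rw [e1, pow_add, pow_mul, pow_add]
  norm_num
  ring

lemma card_smallDesc :
    ((((univ : Finset Bool) ×ˢ smallSets n).card : ℕ) : ℝ) ≤ 2 * Real.exp (6/100 * n) := by
  rw [Finset.card_product]
  have := card_smallSets (n := n)
  push_cast
  simp only [Finset.card_univ, Fintype.card_bool]
  push_cast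
  linarith

/-- The error function for pairs. -/
noncomputable def pairErr (n : ℕ) : ℝ :=
  4 ^ n * Real.exp (- (1/20000 * (n:ℝ) ^ 2)) + 8 * (Real.exp (12/100) * (1/4)) ^ n

lemma sumDesc_le (X : ℝ) (hX : 0 ≤ X) :
    ((((((univ : Finset Bool) ×ˢ smallSets n) ×ˢ ((univ : Finset Bool) ×ˢ smallSets n))).card : ℕ) : ℝ)
      * X ≤ 4 * Real.exp (12/100 * n) * X := by
  apply mul_le_mul_of_nonneg_right _ hX
  rw [Finset.card_product]
  have h := card_smallDesc (n := n)
  have h0 : (0:ℝ) ≤ ((((univ : Finset Bool) ×ˢ smallSets n).card : ℕ) : ℝ) := Nat.cast_nonneg _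
  push_cast at h h0 ⊢
  have h2 := mul_le_mul h h h0 (by positivity)
  refine le_trans h2 (le_of_eq ?_)
  have : Real.exp (12/100 * (n:ℝ)) = Real.exp (6/100 * n) * Real.exp (6/100 * n) := by
    rw [← Real.exp_add]; congr 1; ring
  rw [this]; ring

theorem card_pair_rows (b b' : Fin n) (hb : b ≠ b') :
    (Nat.card {A : Fin n × Fin n → Bool // RowJoin A b ∧ RowJoin A b'} : ℝ)
      ≤ 2 ^ (n * n) * ((1/2) ^ n + pairErr n) := by
  classical
  set D := (univ : Finset Bool) ×ˢ smallSets n with hD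
  have h0 := natCard_mono (α := Fin n × Fin n → Bool)
    (P := fun A => RowJoin A b ∧ RowJoin A b')
    (Q := fun A => (∀ c, A (b, c) = A (b', c)) ∨ ZB A ∨ ∃ p ∈ D ×ˢ D,
      (Desc A b p.1 ∧ Desc A b' p.2 ∧ ¬ ∀ c, A (b, c) = A (b', c))) (by
      rintro A ⟨h1, h2⟩
      by_cases heq : ∀ c, A (b, c) = A (b', c)
      · exact Or.inl heq
      right
      rcases desc_of_rowJoin h1 with h | ⟨α, hα, h3⟩
      · exact Or.inl h
      rcases desc_of_rowJoin h2 with h | ⟨α', hα', h4⟩
      · exact Or.inl h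
      right
      exact ⟨(α, α'), Finset.mem_product.2 ⟨hα, hα'⟩, h3, h4, heq⟩)
  have h1 := natCard_or_le (α := Fin n × Fin n → Bool) (fun A => ∀ c, A (b, c) = A (b', c))
    (fun A => ZB A ∨ ∃ p ∈ D ×ˢ D,
      (Desc A b p.1 ∧ Desc A b' p.2 ∧ ¬ ∀ c, A (b, c) = A (b', c)))
  have h2 := natCard_or_le (α := Fin n × Fin n → Bool) (fun A => ZB A)
    (fun A => ∃ p ∈ D ×ˢ D, (Desc A b p.1 ∧ Desc A b' p.2 ∧ ¬ ∀ c, A (b, c) = A (b', c)))
  have h3 := natCard_exists_le (D ×ˢ D) (fun p (A : Fin n × Fin n → Bool) =>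
    (Desc A b p.1 ∧ Desc A b' p.2 ∧ ¬ ∀ c, A (b, c) = A (b', c))) (2 ^ (n * n) * (1/4) ^ n)
    (fun p _ => card_two_desc b b' hb p.1 p.2)
  have h4 := sumDesc_le (n := n) (2 ^ (n * n) * (1/4) ^ n) (by positivity)
  have g1 := card_eq_rows b b' hb
  have g2 := card_ZB (n := n)
  have e1 : 4 * Real.exp (12/100 * n) * (2 ^ (n * n) * (1/4) ^ n)
      = 2 ^ (n * n) * (4 * (Real.exp (12/100) * (1/4)) ^ n) := by
    rw [← exp_pow_mul]; ring
  rw [e1] at h4
  have e2 : (0:ℝ) ≤ 2 ^ (n * n) * (4 * (Real.exp (12/100) * (1/4)) ^ n) := by positivity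
  unfold pairErr
  rw [mul_add, mul_add]
  have e3 : 2 ^ (n * n) * (8 * (Real.exp (12/100) * (1/4)) ^ n)
    = 2 ^ (n * n) * (4 * (Real.exp (12/100) * (1/4)) ^ n)
      + 2 ^ (n * n) * (4 * (Real.exp (12/100) * (1/4)) ^ n) := by ring
  rw [e3]
  linarith

theorem card_pair_rc (b c : Fin n) :
    (Nat.card {A : Fin n × Fin n → Bool // RowJoin A b ∧ RowJoin (tr A) c} : ℝ)
      ≤ 2 ^ (n * n) * (2 * pairErr n) := by
  classical
  set D := (univ : Finset Bool) ×ˢ smallSets n with hD
  have h0 := natCard_mono (α := Fin n × Fin n → Bool)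
    (P := fun A => RowJoin A b ∧ RowJoin (tr A) c)
    (Q := fun A => ZB A ∨ ZB (tr A) ∨ ∃ p ∈ D ×ˢ D, (Desc A b p.1 ∧ Desc (tr A) c p.2)) (by
      rintro A ⟨h1, h2⟩
      rcases desc_of_rowJoin h1 with h | ⟨α, hα, h3⟩
      · exact Or.inl h
      rcases desc_of_rowJoin h2 with h | ⟨α', hα', h4⟩
      · exact Or.inr (Or.inl h)
      right; right
      exact ⟨(α, α'), Finset.mem_product.2 ⟨hα, hα'⟩, h3, h4⟩)
  have h1 := natCard_or_le (α := Fin n × Fin n → Bool) (fun A => ZB A)
    (fun A => ZB (tr A) ∨ ∃ p ∈ D ×ˢ D, (Desc A b p.1 ∧ Desc (tr A) c p.2))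
  have h2 := natCard_or_le (α := Fin n × Fin n → Bool) (fun A => ZB (tr A))
    (fun A => ∃ p ∈ D ×ˢ D, (Desc A b p.1 ∧ Desc (tr A) c p.2))
  have h3 := natCard_exists_le (D ×ˢ D) (fun p (A : Fin n × Fin n → Bool) =>
    (Desc A b p.1 ∧ Desc (tr A) c p.2)) (2 ^ (n * n) * (2 * (1/4) ^ n))
    (fun p _ => card_rc_desc b c p.1 p.2)
  have h4 := sumDesc_le (n := n) (2 ^ (n * n) * (2 * (1/4) ^ n)) (by positivity)
  have g2 := card_ZB (n := n)
  have g3 := card_tr (n := n) (fun A => ZB A)
  have g3' : (Nat.card {A : Fin n × Fin n → Bool // ZB (tr A)} : ℝ)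
      = (Nat.card {A : Fin n × Fin n → Bool // ZB A} : ℝ) := by exact_mod_cast g3
  rw [g3'] at h2
  have e1 : 4 * Real.exp (12/100 * n) * (2 ^ (n * n) * (2 * (1/4) ^ n))
      = 2 ^ (n * n) * (8 * (Real.exp (12/100) * (1/4)) ^ n) := by
    rw [← exp_pow_mul]; ring
  rw [e1] at h4
  have e2 : (0:ℝ) ≤ 2 ^ (n * n) * (8 * (Real.exp (12/100) * (1/4)) ^ n) := by positivity
  unfold pairErr
  have e3 : 2 ^ (n * n) * (2 * (4 ^ n * Real.exp (- (1/20000 * (n:ℝ) ^ 2))
      + 8 * (Real.exp (12/100) * (1/4)) ^ n))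
    = 2 * (2 ^ (n * n) * (4 ^ n * Real.exp (- (1/20000 * (n:ℝ) ^ 2))))
      + 2 * (2 ^ (n * n) * (8 * (Real.exp (12/100) * (1/4)) ^ n)) := by ring
  rw [e3]
  linarith

end Pool.Agent.H47
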