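import Mathlib
import Pool.Agent.H47.Pairs
import Pool.Agent.H47.EnBd

/-!
Two-sided estimate of the number of matrices of Schein rank less than `n`.
-/

open Finset Filter Topology

namespace Pool.Agent.H47

lemma bonferroni {α J : Type*} [Fintype α] [Fintype J] [DecidableEq J] (X : J → α → Prop) :
    ∑ j, (Nat.card {a : α // X j a} : ℝ)
      - ∑ j, ∑ k, (if j ≠ k then (Nat.card {a : α // X j a ∧ X k a} : ℝ) else 0)
      ≤ Nat.card {a : α // ∃ j, X j a} := by
  classical
  have h1 : ∀ P : α → Prop, (Nat.card {a : α // P a} : ℝ) = ∑ a, (if P a then (1:ℝ) else 0) := by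
    intro P
    rw [Nat.card_eq_fintype_card, Fintype.card_subtype, ← Finset.sum_boole]
  have h2 : ∀ j k, (if j ≠ k then (Nat.card {a : α // X j a ∧ X k a} : ℝ) else 0)
      = ∑ a, (if j ≠ k then (if X j a then (1:ℝ) else 0) * (if X k a then (1:ℝ) else 0) else 0) := by
    intro j k
    by_cases hjk : j ≠ k
    · rw [if_pos hjk, h1]
      apply Finset.sum_congr rfl
      intro a _
      rw [if_pos hjk]
      by_cases c1 : X j a <;> by_cases c2 : X k a <;> simp [c1, c2]
    · simp [hjk]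
  rw [Finset.sum_congr rfl (fun j _ => Finset.sum_congr rfl (fun k _ => h2 j k)),
    Finset.sum_congr rfl (fun j _ => h1 (X j)), h1]
  have h3 : ∑ j, ∑ a, (if X j a then (1:ℝ) else 0) = ∑ a, ∑ j, (if X j a then (1:ℝ) else 0) :=
    Finset.sum_comm
  have h4 : ∑ j, ∑ k, ∑ a, (if j ≠ k then (if X j a then (1:ℝ) else 0) * (if X k a then (1:ℝ) else 0) else 0)
      = ∑ a, ∑ j, ∑ k, (if j ≠ k then (if X j a then (1:ℝ) else 0) * (if X k a then (1:ℝ) else 0) else 0) := by
    rw [Finset.sum_comm]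
    have : ∀ k : J, ∑ j, ∑ a, (if j ≠ k then (if X j a then (1:ℝ) else 0) * (if X k a then (1:ℝ) else 0) else 0)
        = ∑ a, ∑ j, (if j ≠ k then (if X j a then (1:ℝ) else 0) * (if X k a then (1:ℝ) else 0) else 0) :=
      fun k => Finset.sum_comm
    rw [Finset.sum_congr rfl (fun k _ => this k), Finset.sum_comm]
    apply Finset.sum_congr rfl
    intro a _
    rw [Finset.sum_comm]
  rw [h3, h4, ← Finset.sum_sub_distrib]
  apply Finset.sum_le_sum
  intro a _
  set x : J → ℝ := fun j => if X j a then (1:ℝ) else 0 with hx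
  have hx2 : ∀ j, x j * x j = x j := by
    intro j; simp only [hx]; split_ifs <;> ring
  have h5 : ∑ j, ∑ k, (if j ≠ k then x j * x k else 0) = (∑ j, x j) ^ 2 - ∑ j, x j := by
    have : ∀ j, ∑ k, (if j ≠ k then x j * x k else 0) = x j * (∑ k, x k) - x j := by
      intro j
      have e : ∀ k, (if j ≠ k then x j * x k else 0) = x j * x k - (if j = k then x j * x k else 0) := by
        intro k; by_cases hjk : j = k <;> simp [hjk]
      rw [Finset.sum_congr rfl (fun k _ => e k), Finset.sum_sub_distrib, Finset.sum_ite_eq,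
        if_pos (Finset.mem_univ _), hx2, ← Finset.mul_sum]
    rw [Finset.sum_congr rfl (fun j _ => this j), Finset.sum_sub_distrib, ← Finset.sum_mul, sq]
  show ∑ j, x j - ∑ j, ∑ k, (if j ≠ k then x j * x k else 0) ≤ _
  rw [h5]
  by_cases hE : ∃ j, X j a
  · rw [if_pos hE]
    nlinarith [sq_nonneg (∑ j, x j - 1)]
  · rw [if_neg hE]
    push Not at hE
    have : ∑ j, x j = 0 := Finset.sum_eq_zero (fun j _ => if_neg (hE j))
    rw [this]; norm_num

variable {n : ℕ}

lemma lowRank_of_rowJoin {A : Fin n × Fin n → Bool} {b : Fin n} (h : RowJoin A b) : LowRank A := by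
  classical
  obtain ⟨S, hb, hS⟩ := h
  obtain ⟨k, rfl⟩ : ∃ k, n = k + 1 := ⟨n - 1, by have := b.2; omega⟩
  refine ⟨k, fun t => if b.succAbove t ∈ S then {b.succAbove t, b} else {b.succAbove t},
    fun t => rowS A (b.succAbove t), rfl, ?_⟩
  intro i c
  constructor
  · intro hA
    by_cases hi : i = b
    · subst hi
      obtain ⟨j, hj, hAj⟩ := (hS c).1 hA
      have hji : j ≠ i := fun h => hb (h ▸ hj)
      obtain ⟨t, ht⟩ := Fin.exists_succAbove_eq hji
      refine ⟨t, ?_, ?_⟩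
      · simp only [ht, if_pos hj]
        exact Finset.mem_insert_of_mem (Finset.mem_singleton_self _)
      · rw [mem_rowS, ht]; exact hAj
    · obtain ⟨t, ht⟩ := Fin.exists_succAbove_eq hi
      refine ⟨t, ?_, ?_⟩
      · simp only [ht]
        split_ifs
        · exact Finset.mem_insert_self _ _
        · exact Finset.mem_singleton_self _
      · rw [mem_rowS, ht]; exact hA
  · rintro ⟨t, h1, h2⟩
    rw [mem_rowS] at h2
    by_cases hS' : b.succAbove t ∈ S
    · simp only [if_pos hS', Finset.mem_insert, Finset.mem_singleton] at h1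
      rcases h1 with rfl | rfl
      · exact h2
      · exact (hS c).2 ⟨_, hS', h2⟩
    · simp only [if_neg hS', Finset.mem_singleton] at h1
      rw [h1]; exact h2

lemma lowRank_tr {A : Fin n × Fin n → Bool} (h : LowRank (tr A)) : LowRank A := by
  obtain ⟨k, U, V, hk, hcov⟩ := h
  refine ⟨k, V, U, hk, ?_⟩
  intro i c
  have := hcov c i
  unfold tr at this
  rw [this]
  constructor
  · rintro ⟨t, h1, h2⟩; exact ⟨t, h2, h1⟩
  · rintro ⟨t, h1, h2⟩; exact ⟨t, h2, h1⟩

/-- The proportion of matrices of rank less than `n`. -/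
noncomputable def prob (n : ℕ) : ℝ :=
  (Nat.card {A : Fin n × Fin n → Bool // LowRank A} : ℝ) / 2 ^ (n * n)

lemma card_rowJoin_tr (b : Fin n) :
    (Nat.card {A : Fin n × Fin n → Bool // RowJoin (tr A) b} : ℝ)
      = 2 ^ (n * n) * ((1/2) ^ n * En n) := by
  have h := card_tr (n := n) (fun A => RowJoin A b)
  rw [← card_rowJoin b]
  exact_mod_cast h

theorem prob_lower (n : ℕ) :
    2 * n * (1/2) ^ n * En n - (2 * (n:ℝ) ^ 2 * (1/2) ^ n + 6 * (n:ℝ) ^ 2 * pairErr n) ≤ prob n := by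
  classical
  have hpE : 0 ≤ pairErr n := by unfold pairErr; positivity
  have h := bonferroni (α := Fin n × Fin n → Bool) (J := Fin n ⊕ Fin n)
    (fun j A => Sum.elim (fun b => RowJoin A b) (fun c => RowJoin (tr A) c) j)
  have h1 : (Nat.card {A : Fin n × Fin n → Bool // ∃ j : Fin n ⊕ Fin n,
      Sum.elim (fun b => RowJoin A b) (fun c => RowJoin (tr A) c) j} : ℝ)
      ≤ Nat.card {A : Fin n × Fin n → Bool // LowRank A} := by
    apply natCard_mono
    rintro A ⟨j | j, hj⟩
    · exact lowRank_of_rowJoin hj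
    · exact lowRank_tr (lowRank_of_rowJoin hj)
  have h2 : ∑ j : Fin n ⊕ Fin n, (Nat.card {A : Fin n × Fin n → Bool //
      Sum.elim (fun b => RowJoin A b) (fun c => RowJoin (tr A) c) j} : ℝ)
      = 2 * n * (2 ^ (n * n) * ((1/2) ^ n * En n)) := by
    rw [Fintype.sum_sum_type]
    simp only [Sum.elim_inl, Sum.elim_inr, card_rowJoin, card_rowJoin_tr, Finset.sum_const,
      Finset.card_univ, Fintype.card_fin, nsmul_eq_mul]
    ring
  have hT : (0:ℝ) ≤ 2 ^ (n * n) * ((1/2) ^ n + pairErr n) := by positivity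
  have hT2 : (0:ℝ) ≤ 2 ^ (n * n) * (2 * pairErr n) := by positivity
  have h3 : ∑ j : Fin n ⊕ Fin n, ∑ k : Fin n ⊕ Fin n, (if j ≠ k then
      (Nat.card {A : Fin n × Fin n → Bool //
        Sum.elim (fun b => RowJoin A b) (fun c => RowJoin (tr A) c) j ∧
        Sum.elim (fun b => RowJoin A b) (fun c => RowJoin (tr A) c) k} : ℝ) else 0)
      ≤ 2 * (n * (n * (2 ^ (n * n) * ((1/2) ^ n + pairErr n))))
        + 2 * (n * (n * (2 ^ (n * n) * (2 * pairErr n)))) := by
    rw [Fintype.sum_sum_type]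
    simp only [Fintype.sum_sum_type, Sum.elim_inl, Sum.elim_inr]
    have a1 : ∀ b k : Fin n, (if (Sum.inl b : Fin n ⊕ Fin n) ≠ Sum.inl k then
        (Nat.card {A : Fin n × Fin n → Bool // RowJoin A b ∧ RowJoin A k} : ℝ) else 0)
        ≤ 2 ^ (n * n) * ((1/2) ^ n + pairErr n) := by
      intro b k
      split_ifs with hbk
      · exact card_pair_rows b k (fun h => hbk (by rw [h]))
      · exact hT
    have a2 : ∀ b k : Fin n, (if (Sum.inr b : Fin n ⊕ Fin n) ≠ Sum.inr k then
        (Nat.card {A : Fin n × Fin n → Bool // RowJoin (tr A) b ∧ RowJoin (tr A) k} : ℝ) else 0)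
        ≤ 2 ^ (n * n) * ((1/2) ^ n + pairErr n) := by
      intro b k
      split_ifs with hbk
      · have e := card_tr (n := n) (fun A => RowJoin A b ∧ RowJoin A k)
        have e' : (Nat.card {A : Fin n × Fin n → Bool // RowJoin (tr A) b ∧ RowJoin (tr A) k} : ℝ)
          = (Nat.card {A : Fin n × Fin n → Bool // RowJoin A b ∧ RowJoin A k} : ℝ) := by
            exact_mod_cast e
        rw [e']
        exact card_pair_rows b k (fun h => hbk (by rw [h]))
      · exact hT
    have a3 : ∀ b k : Fin n, (if (Sum.inl b : Fin n ⊕ Fin n) ≠ Sum.inr k then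
        (Nat.card {A : Fin n × Fin n → Bool // RowJoin A b ∧ RowJoin (tr A) k} : ℝ) else 0)
        ≤ 2 ^ (n * n) * (2 * pairErr n) := by
      intro b k
      rw [if_pos (by simp)]
      exact card_pair_rc b k
    have a4 : ∀ b k : Fin n, (if (Sum.inr b : Fin n ⊕ Fin n) ≠ Sum.inl k then
        (Nat.card {A : Fin n × Fin n → Bool // RowJoin (tr A) b ∧ RowJoin A k} : ℝ) else 0)
        ≤ 2 ^ (n * n) * (2 * pairErr n) := by
      intro b k
      rw [if_pos (by simp)]
      have e : Nat.card {A : Fin n × Fin n → Bool // RowJoin (tr A) b ∧ RowJoin A k}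
          = Nat.card {A : Fin n × Fin n → Bool // RowJoin A k ∧ RowJoin (tr A) b} :=
        Nat.card_congr (Equiv.subtypeEquivRight (fun A => and_comm))
      rw [e]
      exact card_pair_rc k b
    have b1 : ∀ b : Fin n, (∑ k : Fin n, (if (Sum.inl b : Fin n ⊕ Fin n) ≠ Sum.inl k then
        (Nat.card {A : Fin n × Fin n → Bool // RowJoin A b ∧ RowJoin A k} : ℝ) else 0)) +
        ∑ k : Fin n, (if (Sum.inl b : Fin n ⊕ Fin n) ≠ Sum.inr k then
        (Nat.card {A : Fin n × Fin n → Bool // RowJoin A b ∧ RowJoin (tr A) k} : ℝ) else 0)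
        ≤ n * (2 ^ (n * n) * ((1/2) ^ n + pairErr n)) + n * (2 ^ (n * n) * (2 * pairErr n)) := by
      intro b
      have q1 := Finset.sum_le_sum (fun k (_ : k ∈ (univ : Finset (Fin n))) => a1 b k)
      have q2 := Finset.sum_le_sum (fun k (_ : k ∈ (univ : Finset (Fin n))) => a3 b k)
      simp only [Finset.sum_const, Finset.card_univ, Fintype.card_fin, nsmul_eq_mul] at q1 q2
      exact add_le_add q1 q2
    have b2 : ∀ b : Fin n, (∑ k : Fin n, (if (Sum.inr b : Fin n ⊕ Fin n) ≠ Sum.inl k then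
        (Nat.card {A : Fin n × Fin n → Bool // RowJoin (tr A) b ∧ RowJoin A k} : ℝ) else 0)) +
        ∑ k : Fin n, (if (Sum.inr b : Fin n ⊕ Fin n) ≠ Sum.inr k then
        (Nat.card {A : Fin n × Fin n → Bool // RowJoin (tr A) b ∧ RowJoin (tr A) k} : ℝ) else 0)
        ≤ n * (2 ^ (n * n) * (2 * pairErr n)) + n * (2 ^ (n * n) * ((1/2) ^ n + pairErr n)) := by
      intro b
      have q1 := Finset.sum_le_sum (fun k (_ : k ∈ (univ : Finset (Fin n))) => a4 b k)
      have q2 := Finset.sum_le_sum (fun k (_ : k ∈ (univ : Finset (Fin n))) => a2 b k)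
      simp only [Finset.sum_const, Finset.card_univ, Fintype.card_fin, nsmul_eq_mul] at q1 q2
      exact add_le_add q1 q2
    have c1 := Finset.sum_le_sum (fun b (_ : b ∈ (univ : Finset (Fin n))) => b1 b)
    have c2 := Finset.sum_le_sum (fun b (_ : b ∈ (univ : Finset (Fin n))) => b2 b)
    rw [Finset.sum_const, Finset.card_univ, Fintype.card_fin, nsmul_eq_mul] at c1 c2
    refine le_trans (add_le_add c1 c2) (le_of_eq ?_)
    ring
  unfold prob
  rw [le_div_iff₀ (by positivity)]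
  rw [h2] at h
  have hfin : (2 * n * (1/2) ^ n * En n - (2 * (n:ℝ) ^ 2 * (1/2) ^ n + 6 * (n:ℝ) ^ 2 * pairErr n)) * 2 ^ (n * n)
      = 2 * n * (2 ^ (n * n) * ((1/2) ^ n * En n))
        - (2 * (n * (n * (2 ^ (n * n) * ((1/2) ^ n + pairErr n))))
        + 2 * (n * (n * (2 ^ (n * n) * (2 * pairErr n))))) := by ring
  rw [hfin]
  linarith

theorem prob_upper : ∃ f : ℕ → ℝ, Sm f ∧ ∃ N0 : ℕ, ∀ n : ℕ, N0 ≤ n →
    prob n ≤ 2 * n * (1/2) ^ n * En n + f n := by
  classical
  obtain ⟨f, hf, N0, hN0⟩ := card_noJoin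
  refine ⟨f, hf, N0, ?_⟩
  intro n hn
  unfold prob
  rw [div_le_iff₀ (by positivity)]
  have h0 := natCard_mono (α := Fin n × Fin n → Bool) (P := fun A => LowRank A)
    (Q := fun A => (LowRank A ∧ ¬ (∃ b, RowJoin A b) ∧ ¬ (∃ b, RowJoin (tr A) b)) ∨
      (∃ b ∈ (univ : Finset (Fin n)), RowJoin A b) ∨ (∃ b ∈ (univ : Finset (Fin n)), RowJoin (tr A) b)) (by
      intro A hA
      by_cases h1 : ∃ b, RowJoin A b
      · obtain ⟨b, hb⟩ := h1
        exact Or.inr (Or.inl ⟨b, Finset.mem_univ _, hb⟩)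
      · by_cases h2 : ∃ b, RowJoin (tr A) b
        · obtain ⟨b, hb⟩ := h2
          exact Or.inr (Or.inr ⟨b, Finset.mem_univ _, hb⟩)
        · exact Or.inl ⟨hA, h1, h2⟩)
  have h1 := natCard_or_le (α := Fin n × Fin n → Bool)
    (fun A => (LowRank A ∧ ¬ (∃ b, RowJoin A b) ∧ ¬ (∃ b, RowJoin (tr A) b)))
    (fun A => (∃ b ∈ (univ : Finset (Fin n)), RowJoin A b) ∨ (∃ b ∈ (univ : Finset (Fin n)), RowJoin (tr A) b))
  have h2 := natCard_or_le (α := Fin n × Fin n → Bool)
    (fun A => (∃ b ∈ (univ : Finset (Fin n)), RowJoin A b))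
    (fun A => (∃ b ∈ (univ : Finset (Fin n)), RowJoin (tr A) b))
  have h3 := natCard_exists_le (univ : Finset (Fin n)) (fun b (A : Fin n × Fin n → Bool) => RowJoin A b)
    (2 ^ (n * n) * ((1/2) ^ n * En n)) (fun b _ => (card_rowJoin b).le)
  have h4 := natCard_exists_le (univ : Finset (Fin n)) (fun b (A : Fin n × Fin n → Bool) => RowJoin (tr A) b)
    (2 ^ (n * n) * ((1/2) ^ n * En n)) (fun b _ => (card_rowJoin_tr b).le)
  rw [Finset.card_univ, Fintype.card_fin] at h3 h4
  have h5 := hN0 n hn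
  have hfin : (2 * n * (1/2) ^ n * En n + f n) * 2 ^ (n * n)
      = 2 ^ (n * n) * f n + (n * (2 ^ (n * n) * ((1/2) ^ n * En n)) + n * (2 ^ (n * n) * ((1/2) ^ n * En n))) := by
    ring
  rw [hfin]
  linarith

lemma sm_pairErr : Sm (fun n => 6 * (n:ℝ) ^ 2 * pairErr n) := by
  have e12 : Real.exp (12/100) ≤ 115/100 := by
    have := Real.exp_bound' (x := 12/100) (by norm_num) (by norm_num) (n := 3) (by norm_num)
    refine le_trans this ?_
    norm_num [Finset.sum_range_succ, Nat.factorial]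
  obtain ⟨C, hC, h⟩ := geom_quad (a := 1/20000) (by norm_num) 1 (B := 4) (by norm_num)
  have hexp : Real.exp (-1) < 1/2 := by
    rw [Real.exp_neg, inv_lt_comm₀ (Real.exp_pos _) (by norm_num)]
    have := Real.add_one_lt_exp (x := 1) (by norm_num)
    linarith
  have s1 := Sm.poly (6 * C) (by positivity) 2 (θ := Real.exp (-1)) (Real.exp_pos _).le hexp
  have s2 := Sm.poly (6 * 8) (by positivity) 2 (θ := Real.exp (12/100) * (1/4)) (by positivity)
    (by linarith)
  apply (s1.add s2).mono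
  intro n
  have h1 := h n
  have h2 : Real.exp (- (1 * (n:ℝ))) = Real.exp (-1) ^ n := by
    rw [← Real.exp_nat_mul]; congr 1; ring
  rw [h2] at h1
  have h3 : (n:ℝ) ^ 2 ≤ ((n:ℝ) + 1) ^ 2 := by
    have : (0:ℝ) ≤ n := Nat.cast_nonneg _
    nlinarith
  unfold pairErr
  calc 6 * (n:ℝ) ^ 2 * (4 ^ n * Real.exp (- (1/20000 * (n:ℝ) ^ 2)) + 8 * (Real.exp (12/100) * (1/4)) ^ n)
      ≤ 6 * ((n:ℝ) + 1) ^ 2 * (C * Real.exp (-1) ^ n + 8 * (Real.exp (12/100) * (1/4)) ^ n) := by
        apply mul_le_mul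
        · exact mul_le_mul_of_nonneg_left h3 (by norm_num)
        · linarith
        · positivity
        · positivity
    _ = _ := by ring

end Pool.Agent.H47
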