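import Mathlib
import Pool.Agent.H47.Asym

/-!
Limits: the growth of `En n` and the asymptotic formula.
-/

open Finset Filter Topology

namespace Pool.Agent.H47

lemma clog_facts (n : ℕ) (hn : 9 ≤ n) : n ≤ 2 ^ Nat.clog 2 n ∧ 2 ^ Nat.clog 2 n ≤ 2 * n ∧
    2 * Nat.clog 2 n < n ∧ 4 ≤ Nat.clog 2 n := by
  have h1 := Nat.le_pow_clog (b := 2) (by norm_num) n
  have h2 := Nat.pow_pred_clog_lt_self (b := 2) (by norm_num) (x := n) (by omega)
  have h4 : 4 ≤ Nat.clog 2 n := by
    by_contra hc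
    push Not at hc
    have : 2 ^ Nat.clog 2 n ≤ 2 ^ 3 := Nat.pow_le_pow_right (by norm_num) (by omega)
    omega
  have h3 : 2 ^ Nat.clog 2 n = 2 * 2 ^ (Nat.clog 2 n).pred := by
    rw [← pow_succ']; congr 1
    rw [Nat.pred_eq_sub_one]; omega
  refine ⟨h1, by omega, ?_, h4⟩
  have h5 : ∀ l : ℕ, 4 ≤ l → 2 * l ≤ 2 ^ (l.pred) := by
    intro l hl
    obtain ⟨d, rfl⟩ := Nat.exists_eq_add_of_le hl
    have : (4 + d).pred = d + 3 := by rw [Nat.pred_eq_sub_one]; omega
    rw [this]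
    clear hl this
    induction d with
    | zero => norm_num
    | succ d ih => rw [show d + 1 + 3 = (d + 3) + 1 by ring, pow_succ]; omega
  exact lt_of_le_of_lt (h5 _ h4) h2

lemma tendsto_clog : Tendsto (fun n : ℕ => ((Nat.clog 2 n : ℕ) : ℝ)) atTop atTop := by
  apply tendsto_natCast_atTop_atTop.comp
  rw [tendsto_atTop_atTop]
  intro b
  refine ⟨2 ^ b + 1, ?_⟩
  intro n hn
  by_contra hc
  push Not at hc
  have h1 := Nat.le_pow_clog (b := 2) (by norm_num) n
  have h2 : 2 ^ Nat.clog 2 n ≤ 2 ^ b := Nat.pow_le_pow_right (by norm_num) hc.le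
  omega

lemma logb_le_clog (n : ℕ) (hn : 9 ≤ n) : Real.logb 2 n ≤ Nat.clog 2 n := by
  have h := (clog_facts n hn).1
  have hn0 : (0:ℝ) < n := by
    have : 0 < n := by omega
    exact_mod_cast this
  rw [Real.logb_le_iff_le_rpow (by norm_num) hn0, Real.rpow_natCast]
  exact_mod_cast h

lemma clog_le_logb (n : ℕ) (hn : 9 ≤ n) : (Nat.clog 2 n : ℝ) - 1 ≤ Real.logb 2 n := by
  have h := (clog_facts n hn).2.1
  have hn0 : (0:ℝ) < n := by
    have : 0 < n := by omega
    exact_mod_cast this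
  rw [Real.le_logb_iff_rpow_le (by norm_num) hn0, Real.rpow_sub (by norm_num), Real.rpow_natCast,
    Real.rpow_one]
  have : (2:ℝ) ^ Nat.clog 2 n ≤ 2 * n := by exact_mod_cast h
  linarith

lemma En_pos (n : ℕ) (hn : 9 ≤ n) : 0 < En n := by
  obtain ⟨h1, h2, h3, h4⟩ := clog_facts n hn
  have h := le_En n (Nat.clog 2 n) h1 h2 h3 (by omega)
  have hl : (0:ℝ) < (Nat.clog 2 n : ℕ) := by
    have : 0 < Nat.clog 2 n := by omega
    exact_mod_cast this
  refine lt_of_lt_of_le ?_ h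
  positivity

/-- `log₂ (En n) / ⌈log₂ n⌉² → 1`. -/
lemma tendsto_logEn_clog :
    Tendsto (fun n : ℕ => Real.logb 2 (En n) / ((Nat.clog 2 n : ℕ) : ℝ) ^ 2) atTop (𝓝 1) := by
  have hinv : Tendsto (fun x : ℝ => x⁻¹) atTop (𝓝 0) := tendsto_inv_atTop_zero
  have hlogx : Tendsto (fun x : ℝ => Real.log x / x) atTop (𝓝 0) := by
    have := Real.tendsto_pow_log_div_mul_add_atTop 1 0 1 (by norm_num)
    simpa using this
  have hlow : Tendsto (fun x : ℝ => 1 - 4 * x⁻¹ - 2 / Real.log 2 * (Real.log x / x)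
      - 4 / Real.log 2 * (x⁻¹ * x⁻¹)) atTop (𝓝 1) := by
    have h := ((tendsto_const_nhds (x := (1:ℝ))).sub (hinv.const_mul 4)).sub
      (hlogx.const_mul (2 / Real.log 2))
    have h2 := h.sub ((hinv.mul hinv).const_mul (4 / Real.log 2))
    simpa using h2
  have hup : Tendsto (fun x : ℝ => 1 + 2 * x⁻¹ + 2 * (x⁻¹ * x⁻¹)) atTop (𝓝 1) := by
    have h := ((tendsto_const_nhds (x := (1:ℝ))).add (hinv.const_mul 2)).add
      ((hinv.mul hinv).const_mul 2)
    simpa using h
  have hlog2 : 0 < Real.log 2 := Real.log_pos (by norm_num)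
  refine tendsto_of_tendsto_of_tendsto_of_le_of_le' (hlow.comp tendsto_clog)
    (hup.comp tendsto_clog) ?_ ?_
  · filter_upwards [eventually_ge_atTop 9] with n hn
    obtain ⟨h1, h2, h3, h4⟩ := clog_facts n hn
    have h := le_En n (Nat.clog 2 n) h1 h2 h3 (by omega)
    simp only [Function.comp]
    set l := Nat.clog 2 n with hl
    have hl0 : (0:ℝ) < (l:ℝ) := by
      have : 0 < l := by omega
      exact_mod_cast this
    have hpos : (0:ℝ) < 2 ^ (l * l) / (16 ^ l * (l:ℝ) ^ (2 * l)) * Real.exp (- 4) := by positivity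
    have hlog := Real.log_le_log hpos h
    rw [Real.log_mul (by positivity) (Real.exp_pos _).ne', Real.log_exp,
      Real.log_div (by positivity) (by positivity), Real.log_mul (by positivity) (by positivity),
      Real.log_pow, Real.log_pow, Real.log_pow] at hlog
    have h16 : Real.log 16 = 4 * Real.log 2 := by
      rw [show (16:ℝ) = 2 ^ 4 by norm_num, Real.log_pow]; norm_num
    rw [h16] at hlog
    push_cast at hlog
    rw [le_div_iff₀ (by positivity), Real.logb, le_div_iff₀ hlog2]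
    refine le_trans (le_of_eq ?_) hlog
    field_simp
    ring
  · filter_upwards [eventually_ge_atTop 9] with n hn
    obtain ⟨h1, h2, h3, h4⟩ := clog_facts n hn
    have h := En_le n (Nat.clog 2 n) (by omega) h1 (by omega)
    have hE := En_pos n hn
    simp only [Function.comp]
    set l := Nat.clog 2 n with hl
    have hl0 : (0:ℝ) < (l:ℝ) := by
      have : 0 < l := by omega
      exact_mod_cast this
    have hlog := Real.log_le_log hE h
    rw [Real.log_pow] at hlog
    push_cast at hlog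
    rw [div_le_iff₀ (by positivity), Real.logb, div_le_iff₀ hlog2]
    refine le_trans hlog (le_of_eq ?_)
    field_simp

lemma tendsto_logb_div_clog :
    Tendsto (fun n : ℕ => Real.logb 2 n / ((Nat.clog 2 n : ℕ) : ℝ)) atTop (𝓝 1) := by
  have hinv : Tendsto (fun x : ℝ => 1 - x⁻¹) atTop (𝓝 1) := by
    have := (tendsto_const_nhds (x := (1:ℝ))).sub tendsto_inv_atTop_zero
    simpa using this
  refine tendsto_of_tendsto_of_tendsto_of_le_of_le' (hinv.comp tendsto_clog)
    tendsto_const_nhds ?_ ?_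
  · filter_upwards [eventually_ge_atTop 9] with n hn
    obtain ⟨h1, h2, h3, h4⟩ := clog_facts n hn
    have h := clog_le_logb n hn
    simp only [Function.comp]
    have hl0 : (0:ℝ) < (Nat.clog 2 n : ℝ) := by
      have : 0 < Nat.clog 2 n := by omega
      exact_mod_cast this
    rw [le_div_iff₀ hl0, sub_mul, inv_mul_cancel₀ hl0.ne']
    linarith
  · filter_upwards [eventually_ge_atTop 9] with n hn
    obtain ⟨h1, h2, h3, h4⟩ := clog_facts n hn
    have h := logb_le_clog n hn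
    have hl0 : (0:ℝ) < (Nat.clog 2 n : ℝ) := by
      have : 0 < Nat.clog 2 n := by omega
      exact_mod_cast this
    rw [div_le_one hl0]
    exact h

/-- `log₂ (En n) ~ (log₂ n)²`. -/
theorem tendsto_logEn :
    Tendsto (fun n : ℕ => Real.logb 2 (En n) / (Real.logb 2 n) ^ 2) atTop (𝓝 1) := by
  have h := tendsto_logEn_clog.div (tendsto_logb_div_clog.pow 2) (by norm_num)
  rw [one_pow, div_one] at h
  refine h.congr' ?_
  filter_upwards [eventually_ge_atTop 9] with n hn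
  obtain ⟨h1, h2, h3, h4⟩ := clog_facts n hn
  have hl0 : (0:ℝ) < (Nat.clog 2 n : ℝ) := by
    have : 0 < Nat.clog 2 n := by omega
    exact_mod_cast this
  have hl1 : (4:ℝ) ≤ (Nat.clog 2 n : ℝ) := by exact_mod_cast h4
  have hL : 0 < Real.logb 2 n := by
    have := clog_le_logb n hn
    linarith
  simp only [Pi.div_apply, Pi.pow_apply]
  field_simp

/-- Eventually `En n ≥ n²`. -/
lemma En_ge_sq : ∀ᶠ n : ℕ in atTop, (n:ℝ) ^ 2 ≤ En n := by
  have h1 : ∀ᶠ n : ℕ in atTop, 1/2 ≤ Real.logb 2 (En n) / (Real.logb 2 n) ^ 2 :=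
    tendsto_logEn.eventually_const_le (by norm_num)
  have h2 : ∀ᶠ n : ℕ in atTop, (5:ℝ) ≤ (Nat.clog 2 n : ℕ) := tendsto_clog.eventually_ge_atTop 5
  filter_upwards [h1, h2, eventually_ge_atTop 9] with n h1 h2 hn
  have hE := En_pos n hn
  have hL := clog_le_logb n hn
  have hL4 : 4 ≤ Real.logb 2 n := by linarith
  have hL0 : 0 < (Real.logb 2 n) ^ 2 := by positivity
  rw [le_div_iff₀ hL0] at h1
  have h3 : 2 * Real.logb 2 n ≤ Real.logb 2 (En n) := by nlinarith
  have hn0 : (0:ℝ) < n := by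
    have : 0 < n := by omega
    exact_mod_cast this
  rw [Real.le_logb_iff_rpow_le (by norm_num) hE] at h3
  have h4 : (2:ℝ) ^ (2 * Real.logb 2 n) = (n:ℝ) ^ 2 := by
    rw [mul_comm, Real.rpow_mul (by norm_num), Real.rpow_logb (by norm_num) (by norm_num) hn0]
    norm_cast
  rw [h4] at h3
  exact h3

lemma sm_tendsto {C γ : ℝ} (h0 : 0 < γ) (h1 : γ < 1/2) :
    Tendsto (fun n : ℕ => C * (2 * γ) ^ n) atTop (𝓝 0) := by
  have := (tendsto_pow_atTop_nhds_zero_of_lt_one (by positivity : 0 ≤ 2 * γ) (by linarith)).const_mul C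
  simpa using this

/-- **The asymptotic formula.** -/
theorem tendsto_ratio :
    Tendsto (fun n : ℕ => prob n / (2 * n * (1/2) ^ n * En n)) atTop (𝓝 1) := by
  obtain ⟨f, ⟨C, γ, hC, hγ0, hγ1, hf⟩, N0, hN0⟩ := prob_upper
  obtain ⟨C', γ', hC', hγ0', hγ1', hg⟩ := sm_pairErr
  have hup : Tendsto (fun n : ℕ => 1 + C * (2 * γ) ^ n) atTop (𝓝 1) := by
    have := (tendsto_const_nhds (x := (1:ℝ))).add (sm_tendsto (C := C) hγ0 hγ1)
    simpa using this
  have hlow : Tendsto (fun n : ℕ => 1 - (n:ℝ)⁻¹ - C' * (2 * γ') ^ n) atTop (𝓝 1) := by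
    have h1 : Tendsto (fun n : ℕ => (n:ℝ)⁻¹) atTop (𝓝 0) := tendsto_inv_atTop_nhds_zero_nat
    have := ((tendsto_const_nhds (x := (1:ℝ))).sub h1).sub (sm_tendsto (C := C') hγ0' hγ1')
    simpa using this
  refine tendsto_of_tendsto_of_tendsto_of_le_of_le' hlow hup ?_ ?_
  · filter_upwards [En_ge_sq, eventually_ge_atTop 9] with n hE hn
    have hn0 : (9:ℝ) ≤ n := by exact_mod_cast hn
    have hEpos : 0 < En n := En_pos n hn
    have h := prob_lower n
    have hgn := hg n
    have hM : 0 < 2 * (n:ℝ) * (1/2) ^ n * En n := by positivity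
    rw [le_div_iff₀ hM]
    refine le_trans ?_ h
    have hEn1 : (1:ℝ) ≤ 2 * n * En n := by nlinarith
    have e1 : (n:ℝ)⁻¹ * (2 * n * (1/2) ^ n * En n) ≥ 2 * (n:ℝ) ^ 2 * (1/2) ^ n := by
      have : (n:ℝ)⁻¹ * (2 * n * (1/2) ^ n * En n) = 2 * (1/2) ^ n * En n := by
        field_simp
      rw [this]
      have h2 : (0:ℝ) ≤ 2 * (1/2) ^ n := by positivity
      have := mul_le_mul_of_nonneg_left hE h2
      linarith
    have e2 : C' * γ' ^ n ≤ C' * (2 * γ') ^ n * (2 * n * (1/2) ^ n * En n) := by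
      have h3 : C' * (2 * γ') ^ n * (2 * n * (1/2) ^ n * En n)
          = C' * γ' ^ n * (2 ^ n * (1/2) ^ n) * (2 * n * En n) := by
        rw [mul_pow]; ring
      have h4 : (2:ℝ) ^ n * (1/2) ^ n = 1 := by rw [← mul_pow]; norm_num
      rw [h3, h4, mul_one]
      have h5 : (0:ℝ) ≤ C' * γ' ^ n := by positivity
      calc C' * γ' ^ n = C' * γ' ^ n * 1 := (mul_one _).symm
        _ ≤ _ := mul_le_mul_of_nonneg_left hEn1 h5
    have e3 : (1 - (n:ℝ)⁻¹ - C' * (2 * γ') ^ n) * (2 * n * (1/2) ^ n * En n)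
        = 2 * n * (1/2) ^ n * En n - (n:ℝ)⁻¹ * (2 * n * (1/2) ^ n * En n)
          - C' * (2 * γ') ^ n * (2 * n * (1/2) ^ n * En n) := by ring
    rw [e3]
    linarith
  · filter_upwards [En_ge_sq, eventually_ge_atTop 9, eventually_ge_atTop N0] with n hE hn hnN
    have hn0 : (9:ℝ) ≤ n := by exact_mod_cast hn
    have hEpos : 0 < En n := En_pos n hn
    have h := hN0 n hnN
    have hfn := hf n
    have hM : 0 < 2 * (n:ℝ) * (1/2) ^ n * En n := by positivity
    rw [div_le_iff₀ hM]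
    refine le_trans h ?_
    have hEn1 : (1:ℝ) ≤ 2 * n * En n := by nlinarith
    have e2 : C * γ ^ n ≤ C * (2 * γ) ^ n * (2 * n * (1/2) ^ n * En n) := by
      have h3 : C * (2 * γ) ^ n * (2 * n * (1/2) ^ n * En n)
          = C * γ ^ n * (2 ^ n * (1/2) ^ n) * (2 * n * En n) := by
        rw [mul_pow]; ring
      have h4 : (2:ℝ) ^ n * (1/2) ^ n = 1 := by rw [← mul_pow]; norm_num
      rw [h3, h4, mul_one]
      have h5 : (0:ℝ) ≤ C * γ ^ n := by positivity
      calc C * γ ^ n = C * γ ^ n * 1 := (mul_one _).symm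
        _ ≤ _ := mul_le_mul_of_nonneg_left hEn1 h5
    have e3 : (1 + C * (2 * γ) ^ n) * (2 * n * (1/2) ^ n * En n)
        = 2 * n * (1/2) ^ n * En n + C * (2 * γ) ^ n * (2 * n * (1/2) ^ n * En n) := by ring
    rw [e3]
    linarith

end Pool.Agent.H47
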