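import Mathlib
import Pool.Agent.H47.Fail

/-!
A good matrix (without exceptional rows) is not covered by fewer than `n` rectangles.
-/

open Finset

namespace Pool.Agent.H47

lemma no_cover_of_good {n k : ℕ} (hn : 60000 ≤ n) (hk : k < n) {A : Fin n × Fin n → Bool}
    (hA : Good 0 0 A) {U V : Fin k → Finset (Fin n)} (hcov : Covers A U V) : False := by
  classical
  obtain ⟨R, R', W, hR, hR', hW, hT⟩ := hA
  have hR2 : Rᶜ.card = 0 := by omega
  have hR'2 : R'ᶜ.card = 0 := by omega
  rw [Finset.card_eq_zero, Finset.compl_eq_empty_iff] at hR2 hR'2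
  subst hR2 hR'2
  have hnR : (60000:ℝ) ≤ n := by exact_mod_cast hn
  have hn2 : (0:ℝ) < (n:ℝ) ^ 2 := by positivity
  have h := structure_of_cover (s := 0) (ω := 0) hT (by positivity) (by norm_num) le_rfl le_rfl
    (by simpa using hW) (by omega) (by simp) (by
      have : 15 * (2 * ((1:ℝ)/2^42) + 1/2^42) * n ^ 2 < 1/2^35 * n ^ 2 :=
        mul_lt_mul_of_pos_right (by norm_num) hn2
      simpa using this) (by
      have : 15 * (2 * ((1:ℝ)/2^42) + 1/2^42) * n ^ 2 < 1/4096 * n ^ 2 :=
        mul_lt_mul_of_pos_right (by norm_num) hn2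
      calc 15 * (2 * ((1:ℝ)/2^42) + 1/2^42) * (n:ℝ) ^ 2 + 16 * (0 + 0) * (n:ℝ)
          = 15 * (2 * ((1:ℝ)/2^42) + 1/2^42) * (n:ℝ) ^ 2 := by ring
        _ < 1/4096 * (n:ℝ) ^ 2 := this
        _ = (n:ℝ) ^ 2 / 4096 := by ring) hcov (by
      simp only [Finset.card_univ, Fintype.card_fin]
      have : (k:ℝ) ≤ n := by exact_mod_cast hk.le
      linarith)
  have key : ∀ F : Fin k → Finset (Fin n), (∀ i, ∃ t, F t = {i}) → False := by
    intro F hF
    choose f hf using hF
    have hinj : Function.Injective f := by
      intro i j hij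
      have h1 := hf i
      rw [hij, hf j] at h1
      exact (Finset.singleton_injective h1).symm
    have := Fintype.card_le_of_injective f hinj
    simp only [Fintype.card_fin] at this
    omega
  rcases h with h | h
  · apply key U
    intro i
    by_contra hc
    push Not at hc
    have : (0:ℝ) < ((univ.filter (fun i => ∀ t, U t ∩ univ ≠ {i})).card : ℝ) := by
      have : 0 < (univ.filter (fun i => ∀ t, U t ∩ univ ≠ {i})).card := by
        apply Finset.card_pos.2
        exact ⟨i, Finset.mem_filter.2 ⟨Finset.mem_univ _, fun t => by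
          rw [Finset.inter_univ]; exact hc t⟩⟩
      exact_mod_cast this
    linarith
  · apply key V
    intro i
    by_contra hc
    push Not at hc
    have : (0:ℝ) < ((univ.filter (fun i => ∀ t, V t ∩ univ ≠ {i})).card : ℝ) := by
      have : 0 < (univ.filter (fun i => ∀ t, V t ∩ univ ≠ {i})).card := by
        apply Finset.card_pos.2
        exact ⟨i, Finset.mem_filter.2 ⟨Finset.mem_univ _, fun t => by
          rw [Finset.inter_univ]; exact hc t⟩⟩
      exact_mod_cast this
    linarith

end Pool.Agent.H47
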